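import Pool.Agent.D0H67.CX.Stm

/-! # The vertex of a cone of maximal analytic spread: statements of the modules -/

set_option autoImplicit false
set_option linter.unusedSectionVars false
set_option linter.unusedVariables false

namespace Pool.Agent.D0H67.CX

open MvPolynomial Pool.Agent.W428.MOT Pool.Agent.TH192.MT Pool.Agent.TH192.DT
  Pool.Agent.D0H67.SUB Pool.Agent.D0H67.PM Pool.Agent.D0H67.SUB.Trn

/-- (REL) `n` algebraically independent forms of degree `d` in `n` variables: every variable is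
algebraic over them, and the relation can be chosen homogeneous (weights `d` for the `g j`, `1` for
the variable `X i`): `∑_{k ≤ K} A_k(g) X_i ^ k = 0`, `A_K ≠ 0`, `A_k` homogeneous of degree `m k` and
`d m_k + k = d m_K + K` whenever `A_k ≠ 0`. -/
def S_REL : Prop :=
  ∀ {σ : Type} [Fintype σ] (g : σ → MvPolynomial σ ℂ) (d : ℕ), 0 < d →
    (∀ j, (g j).IsHomogeneous d) → AlgebraicIndependent ℂ g → ∀ i : σ,
    ∃ (K : ℕ) (m : ℕ → ℕ) (A : ℕ → MvPolynomial σ ℂ), (∀ k ≤ K, (A k).IsHomogeneous (m k)) ∧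
      (∀ k ≤ K, A k ≠ 0 → d * m k + k = d * m K + K) ∧ A K ≠ 0 ∧
      ∑ k ∈ Finset.range (K + 1), bind₁ g (A k) * X i ^ k = 0

/-- (GENV) The jets at the vertex with the leading coefficients `c g(v)`, `v` general; `H` is the
product of the `A_{i, K_i}(g)` and of the `g (ι i)`. For `z ∈ JetE` write `z = t ^ a w`, `w(0) ≠ 0`; then
`g(w) = t ^ δ G`, `δ = N - d a`, `G(0) = c g(v)`. If `δ > 0` then the relation of an `i` with
`w_i(0) ≠ 0`, `∑_k t ^ (δ m_k) A_k(G) w_i ^ k = 0`, divided by `t ^ (δ m_K)`, gives the contradiction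
`c ^ (m_K) A_K(g(v)) w_i(0) ^ K = 0`. The fibre is finite since the coordinates of its points are roots
of the polynomials `∑_k A_k(g(v)) T ^ k`. (`Pool.Agent.D0H35.CX.{Pw,Apex}`: `hom_aeval`, `ar_factor`,
`coeff_zero_aeval`.) -/
def S_GENV : Prop :=
  ∀ {σ J : Type} [Fintype σ] [Nonempty σ] (g : J → MvPolynomial σ ℂ) (ι : σ → J) (d : ℕ), 0 < d →
    (∀ j, (g j).IsHomogeneous d) → AlgebraicIndependent ℂ (fun i => g (ι i)) →
    ∃ H : MvPolynomial σ ℂ, H ≠ 0 ∧ ∀ v : Pt ℂ σ, aeval v H ≠ 0 →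
      (∃ j, aeval v (g j) ≠ 0) ∧
      {u : Pt ℂ σ | ∀ j, aeval u (g j) = aeval v (g j)}.Finite ∧
      ∀ N : ℕ, JetE g 0 (fun j => aeval v (g j)) N =
        {z : Pt ℂ (σ × Fin (N + 1)) | jk z 0 = 0 ∧ ∃ a : ℕ, (∀ k < a, jk z k = 0) ∧
          (∃ c : AlgebraicClosure ℂ, c ≠ 0 ∧
            ∀ j, aeval (jk z a) (g j) = c * aeval v (g j)) ∧ d * a = N}

/-- (VMON) the monodromy zeta function at the point `(0, [g(v)])` is a power of `1 - t ^ d`: GENV with
`v` complex, `H(v) ≠ 0`; the points `u` with `g(u) = c g(v)` are the multiples of the points of the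
finite fibre, i.e. a disjoint union of finitely many lines minus the origin, so that `JetE` is a
disjoint union of sets treated in `Real.vertex` (`SUB.Sing.main`). -/
def S_VMON : Prop :=
  ∀ {σ J : Type} [Fintype σ] [Nonempty σ] (g : J → MvPolynomial σ ℂ) (ι : σ → J) (d : ℕ), 0 < d →
    (∀ j, (g j).IsHomogeneous d) → AlgebraicIndependent ℂ (fun i => g (ι i)) →
    ∃ (y : J → ℂ) (k : ℕ), 0 < k ∧ MonZeta g 0 y (Finsupp.single d (k : ℤ))

end Pool.Agent.D0H67.CX
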