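import Pool.Agent.D0H67.CX.Stm2

/-! # Families of cones: statements of the modules

The weights `w i ∈ {0, 1}`: the polynomials `g j` are homogeneous of degree `d` in the variables of
weight `1`, and the variables of weight `0` are parameters. -/

set_option autoImplicit false
set_option linter.unusedSectionVars false
set_option linter.unusedVariables false

namespace Pool.Agent.D0H67.CX

open MvPolynomial Pool.Agent.W428.MOT Pool.Agent.TH192.MT Pool.Agent.TH192.DT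
  Pool.Agent.D0H67.SUB Pool.Agent.D0H67.PM Pool.Agent.D0H67.SUB.Trn

/-- (ADD2) as S_REC (b), (c), but for arbitrary polynomials -/
def S_ADD2 : Prop :=
  ∀ {K : Type} [Field K] {σ J : Type} [Fintype σ] [Finite J] (g : J → MvPolynomial σ K)
    {R : Type} [CommRing R] (M : Meas K R) (v : R), M.L * v = 1 →
    (∀ V W : Set (Pt K σ), Constr V → Constr W → Disjoint V W →
      ZF M v g (V ∪ W) = ZF M v g V + ZF M v g W) ∧
    ∀ V : Set (Pt K σ), Constr V → (∀ x ∈ V, ∃ j, aeval x (g j) ≠ 0) →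
      ZF M v g V = PowerSeries.C (M.χ σ V)

/-- (REC2) as S_REC (a): division by `t` of the coordinates of weight `1` only; the condition
`g (z_0) = 0` for the coordinates of weight `0` remains -/
def S_REC2 : Prop :=
  ∀ {K : Type} [Field K] {σ J : Type} [Fintype σ] [Finite J] (g : J → MvPolynomial σ K)
    (w : σ → ℕ) (d : ℕ), (∀ i, w i ≤ 1) → 0 < d →
    (∀ j, MvPolynomial.IsWeightedHomogeneous w (g j) d) →
    ∀ {R : Type} [CommRing R] (M : Meas K R) (v : R), M.L * v = 1 →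
    ZF M v g {0} = PowerSeries.C (v ^ (∑ i, w i)) * PowerSeries.X ^ d *
      ZF M v g {z | ∀ i, w i = 0 → z i = 0}

/-- (SCALE2) as S_SCALE -/
def S_SCALE2 : Prop :=
  ∀ {σ J : Type} [Fintype σ] [Finite J] (g : J → MvPolynomial σ ℂ) (w : σ → ℕ) (d : ℕ),
    (∀ j, MvPolynomial.IsWeightedHomogeneous w (g j) d) → ∀ (a : ℂ), a ≠ 0 →
    ∀ (p : σ → ℂ) (y : J → ℂ) (b : ℕ →₀ ℤ), MonZeta g p y b →
      MonZeta g (fun i => a ^ w i * p i) y b

/-- the forms `g (ι i)`, `w i = 1`, and the parameters -/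
noncomputable def gX {σ J : Type} (g : J → MvPolynomial σ ℂ) (ι : σ → J) (w : σ → ℕ) (i : σ) :
    MvPolynomial σ ℂ := if w i = 1 then g (ι i) else X i

/-- (REL2) as S_REL -/
def S_REL2 : Prop :=
  ∀ {σ J : Type} [Fintype σ] (g : J → MvPolynomial σ ℂ) (ι : σ → J) (w : σ → ℕ) (d : ℕ),
    (∀ i, w i ≤ 1) → 0 < d → (∀ j, MvPolynomial.IsWeightedHomogeneous w (g j) d) →
    AlgebraicIndependent ℂ (gX g ι w) → ∀ i : σ, w i = 1 →
    ∃ (K : ℕ) (m : ℕ → ℕ) (A : ℕ → MvPolynomial σ ℂ),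
      (∀ k ≤ K, MvPolynomial.IsWeightedHomogeneous w (A k) (m k)) ∧
      (∀ k ≤ K, A k ≠ 0 → d * m k + k = d * m K + K) ∧ A K ≠ 0 ∧
      ∑ k ∈ Finset.range (K + 1), bind₁ (gX g ι w) (A k) * X i ^ k = 0

/-- (GENV2) as S_GENV, over the points `(0, s)`, `v = (v', s)` general -/
def S_GENV2 : Prop :=
  ∀ {σ J : Type} [Fintype σ] (g : J → MvPolynomial σ ℂ) (ι : σ → J) (w : σ → ℕ) (d : ℕ),
    (∀ i, w i ≤ 1) → (∃ i, w i = 1) → 0 < d →
    (∀ j, MvPolynomial.IsWeightedHomogeneous w (g j) d) → AlgebraicIndependent ℂ (gX g ι w) →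
    ∃ H : MvPolynomial σ ℂ, H ≠ 0 ∧ ∀ v : Pt ℂ σ, aeval v H ≠ 0 →
      (∃ j, aeval v (g j) ≠ 0) ∧
      {u : Pt ℂ σ | (∀ i, w i = 0 → u i = v i) ∧ ∀ j, aeval u (g j) = aeval v (g j)}.Finite ∧
      ∀ N : ℕ, JetE g (fun i => if w i = 1 then 0 else v i) (fun j => aeval v (g j)) N =
        {z : Pt ℂ (σ × Fin (N + 1)) | (jk z 0 = fun i => if w i = 1 then 0 else v i) ∧
          ∃ a : ℕ, (∀ k < a, ∀ i, w i = 1 → jk z k i = 0) ∧
          (∃ c : AlgebraicClosure ℂ, c ≠ 0 ∧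
            ∀ j, aeval (fun i => if w i = 1 then jk z a i else v i) (g j) =
              c * aeval v (g j)) ∧ d * a = N}

/-- (VMON2) as S_VMON, at points `(0, s)` near the origin -/
def S_VMON2 : Prop :=
  ∀ {σ J : Type} [Fintype σ] (g : J → MvPolynomial σ ℂ) (ι : σ → J) (w : σ → ℕ) (d : ℕ),
    (∀ i, w i ≤ 1) → (∃ i, w i = 1) → 0 < d →
    (∀ j, MvPolynomial.IsWeightedHomogeneous w (g j) d) → AlgebraicIndependent ℂ (gX g ι w) →
    ∀ ε : ℝ, 0 < ε → ∃ p : σ → ℂ, ‖p‖ < ε ∧ ∃ (y : J → ℂ) (k : ℕ), 0 < k ∧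
      MonZeta g p y (Finsupp.single d (k : ℤ))

end Pool.Agent.D0H67.CX
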