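import Pool.Agent.D0H67.CX.Stm3

/-! # Families of quasi-homogeneous cones: statements of the modules

The weights `w i ≥ 0` are arbitrary: the polynomials `g j` are weighted homogeneous of degree `d`, and
the variables of weight `0` are parameters. -/

set_option autoImplicit false
set_option linter.unusedSectionVars false
set_option linter.unusedVariables false

namespace Pool.Agent.D0H67.CX

open MvPolynomial Pool.Agent.W428.MOT Pool.Agent.TH192.MT Pool.Agent.TH192.DT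
  Pool.Agent.D0H67.SUB Pool.Agent.D0H67.PM Pool.Agent.D0H67.SUB.Trn

/-- (REC3) as S_REC2, with weights. The jets `z`, `z_0 = 0`, with `ord z_i ≥ w i` for all `i` are
`t ^ w z'` (`g (t ^ w z') = t ^ d g(z')`). The other jets have order `< d`: let `α < 1` be the minimum of
the `ord z_i / w i`, `w i ≠ 0`, and let `u_i` be the leading coefficient of `z_i` if
`ord z_i = α w i`, `u_i = 0` otherwise. The coefficient of `t ^ (α d)` of `g j (z)` is `g j (u)` (if `α d` is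
an integer, otherwise `g j (u) = 0`). If all `g j (u) = 0` then the denominator `k > 1` of `α` divides
all `w i` with `u_i ≠ 0`, a contradiction to `hfree`. So they contribute only to `T ^ N`, `N < d`. -/
def S_REC3 : Prop :=
  ∀ {K : Type} [Field K] {σ J : Type} [Fintype σ] [Finite J] (g : J → MvPolynomial σ K)
    (w : σ → ℕ) (d : ℕ), 0 < d →
    (∀ j, MvPolynomial.IsWeightedHomogeneous w (g j) d) →
    (∀ u : Pt K σ, u ≠ 0 → (∀ i, w i = 0 → u i = 0) → (∀ j, aeval u (g j) = 0) →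
      ∀ k : ℕ, (∀ i, u i ≠ 0 → k ∣ w i) → k = 1) →
    ∀ {R : Type} [CommRing R] (M : Meas K R) (v : R), M.L * v = 1 → ∃ q : ℕ → R,
    ZF M v g {0} = ∑ k ∈ Finset.range d, PowerSeries.C (q k) * PowerSeries.X ^ k +
      PowerSeries.C (v ^ (∑ i, w i)) * PowerSeries.X ^ d *
        ZF M v g {z | ∀ i, w i = 0 → z i = 0}

/-- the forms `g (ι i)`, `w i ≠ 0`, and the parameters -/
noncomputable def gY {σ J : Type} (g : J → MvPolynomial σ ℂ) (ι : σ → J) (w : σ → ℕ) (i : σ) :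
    MvPolynomial σ ℂ := if w i = 0 then X i else g (ι i)

/-- (REL3) as S_REL2, with weights, and with `A 0 ≠ 0` (divide by a power of `X i`) -/
def S_REL3 : Prop :=
  ∀ {σ J : Type} [Fintype σ] (g : J → MvPolynomial σ ℂ) (ι : σ → J) (w : σ → ℕ) (d : ℕ),
    0 < d → (∀ j, MvPolynomial.IsWeightedHomogeneous w (g j) d) →
    AlgebraicIndependent ℂ (gY g ι w) → ∀ i : σ, w i ≠ 0 →
    ∃ (K : ℕ) (m : ℕ → ℕ) (A : ℕ → MvPolynomial σ ℂ),
      (∀ k ≤ K, MvPolynomial.IsWeightedHomogeneous (fun l => if w l = 0 then 0 else 1) (A k)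
        (m k)) ∧
      (∀ k ≤ K, A k ≠ 0 → d * m k + k * w i = d * m K + K * w i) ∧ A K ≠ 0 ∧ A 0 ≠ 0 ∧
      ∑ k ∈ Finset.range (K + 1), bind₁ (gY g ι w) (A k) * X i ^ k = 0

/-- (GENV3) as S_GENV2, with weights. `H` is the product of the `A_{i, K_i}(g, s)`, the `A_{i, 0}(g, s)`
and the `g (ι i)`, over the `i` with `w i ≠ 0`. For `z ∈ JetE` the relation for `z_i` gives
`d ord z_i ≥ N w i`; let `u_i` be the coefficient of `t ^ (N w i / d)` of `z_i` (`0` if this is not an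
integer); then `g(u) = c g(v)`, so all `u_i ≠ 0` since `A_{i, 0}(g(v)) ≠ 0`, hence `d ∣ N w i` for
all `i` and `d ∣ N` by `hgcd`. (`w i ≤ d`: otherwise `X i` does not occur in the `g j`, so the set of the
`u` with `g(u) = g(v)` would be infinite.) -/
def S_GENV3 : Prop :=
  ∀ {σ J : Type} [Fintype σ] (g : J → MvPolynomial σ ℂ) (ι : σ → J) (w : σ → ℕ) (d : ℕ),
    (∀ k : ℕ, (∀ i, k ∣ w i) → k = 1) → 0 < d →
    (∀ j, MvPolynomial.IsWeightedHomogeneous w (g j) d) → AlgebraicIndependent ℂ (gY g ι w) →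
    (∀ i, w i ≤ d) ∧ ∃ H : MvPolynomial σ ℂ, H ≠ 0 ∧ ∀ v : Pt ℂ σ, aeval v H ≠ 0 →
      (∃ j, aeval v (g j) ≠ 0) ∧
      {u : Pt ℂ σ | (∀ i, w i = 0 → u i = v i) ∧ ∀ j, aeval u (g j) = aeval v (g j)}.Finite ∧
      (∀ u : Pt ℂ σ, (∀ i, w i = 0 → u i = v i) → ∀ c : AlgebraicClosure ℂ, c ≠ 0 →
        (∀ j, aeval u (g j) = c * aeval v (g j)) → ∀ i, w i ≠ 0 → u i ≠ 0) ∧
      ∀ N : ℕ, JetE g (fun i => if w i = 0 then v i else 0) (fun j => aeval v (g j)) N =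
        {z : Pt ℂ (σ × Fin (N + 1)) | (jk z 0 = fun i => if w i = 0 then v i else 0) ∧
          ∃ a : ℕ, (∀ i, w i ≠ 0 → ∀ k < a * w i, jk z k i = 0) ∧
          (∃ c : AlgebraicClosure ℂ, c ≠ 0 ∧
            ∀ j, aeval (fun i => if w i = 0 then v i else jk z (a * w i) i) (g j) =
              c * aeval v (g j)) ∧ d * a = N}

/-- (VMON3) as S_VMON2, with weights. The points `u` with `g(u) = c g(v)` (and the parameters of `v`)
form finitely many orbits `(ρ ^ (w i) u_i)`, `ρ ≠ 0`; as all `u_i ≠ 0`, `w i ≠ 0`, and the greatest common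
divisor of the weights is `1`, the orbits are isomorphic to `𝔾_m` (`ρ = ∏ (x_i / u_i) ^ (b i)`,
`∑ b i w i = 1`). -/
def S_VMON3 : Prop :=
  ∀ {σ J : Type} [Fintype σ] (g : J → MvPolynomial σ ℂ) (ι : σ → J) (w : σ → ℕ) (d : ℕ),
    (∀ k : ℕ, (∀ i, k ∣ w i) → k = 1) → 0 < d →
    (∀ j, MvPolynomial.IsWeightedHomogeneous w (g j) d) → AlgebraicIndependent ℂ (gY g ι w) →
    ∀ ε : ℝ, 0 < ε → ∃ p : σ → ℂ, ‖p‖ < ε ∧ ∃ (y : J → ℂ) (k : ℕ), 0 < k ∧
      MonZeta g p y (Finsupp.single d (k : ℤ))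

/-- (ORB) the class of the jets with given vanishing orders and leading coefficients in one orbit;
`p i = 0` for `w i ≠ 0`; `a > 0`, `a w i ≤ N`. -/
def S_ORB : Prop :=
  ∀ {σ : Type} [Fintype σ] (w : σ → ℕ), (∀ k : ℕ, (∀ i, k ∣ w i) → k = 1) →
    ∀ u : Pt ℂ σ, (∀ i, w i ≠ 0 → u i ≠ 0) → ∀ (N a : ℕ), 0 < a → (∀ i, a * w i ≤ N) →
    Constr {z : Pt ℂ (σ × Fin (N + 1)) | (jk z 0 = fun i => if w i = 0 then u i else 0) ∧
      (∀ i, w i ≠ 0 → ∀ k < a * w i, jk z k i = 0) ∧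
      ∃ ρ : AlgebraicClosure ℂ, ρ ≠ 0 ∧ ∀ i, w i ≠ 0 → jk z (a * w i) i = ρ ^ w i * u i} ∧
    ∀ {R : Type} [CommRing R] (M : Meas ℂ R),
      M.χ _ {z : Pt ℂ (σ × Fin (N + 1)) | (jk z 0 = fun i => if w i = 0 then u i else 0) ∧
        (∀ i, w i ≠ 0 → ∀ k < a * w i, jk z k i = 0) ∧
        ∃ ρ : AlgebraicClosure ℂ, ρ ≠ 0 ∧ ∀ i, w i ≠ 0 → jk z (a * w i) i = ρ ^ w i * u i} =
      (M.L - 1) * M.L ^ (∑ i, (N - a * w i))

end Pool.Agent.D0H67.CX
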