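import Pool.Agent.D0H67.CX.Loc

/-! # Monodromy zeta functions and smooth maps -/

set_option autoImplicit false
set_option linter.unusedSectionVars false
set_option linter.unusedVariables false

namespace Pool.Agent.D0H67.CX.Lift

open MvPolynomial Pool.Agent.W428.MOT Pool.Agent.TH192.MT Pool.Agent.TH192.DT
  Pool.Agent.D0H67.SUB Pool.Agent.D0H67.PM Pool.Agent.D0H67.SUB.Trn Pool.Agent.D0H67.CX.Loc

section

variable {K : Type} [Field K] {σ : Type}

theorem pa_ar {N : ℕ} (i : σ) : IsPA (fun z : Pt K (σ × Fin (N + 1)) => ar z i) := by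
  intro j
  simp only [ar, PowerSeries.coeff_mk]
  split_ifs with h
  · exact IsPF.coord _
  · exact IsPF.zero

theorem pa_aeval {N : ℕ} (f : MvPolynomial σ K) :
    IsPA (fun z : Pt K (σ × Fin (N + 1)) => aeval (ar z) f) := by
  induction f using MvPolynomial.induction_on with
  | C a =>
    simp only [MvPolynomial.algHom_C, PowerSeries.algebraMap_apply]
    exact IsPA.C (IsPF.const a)
  | add p q hp hq =>
    simp only [map_add]
    exact hp.add hq
  | mul_X p i hp =>
    simp only [map_mul, MvPolynomial.aeval_X]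
    exact hp.mul (pa_ar i)

/-- the jets with given leading coefficients form a constructible set -/
theorem constr_JetE [IsAlgClosed K] {J : Type} [Finite J] [Finite σ] (g : J → MvPolynomial σ K)
    (p : Pt K σ) (y : J → AlgebraicClosure K) (hy : y ≠ 0) (N : ℕ) : Constr (JetE g p y N) := by
  obtain ⟨l, hl⟩ := Function.ne_iff.1 hy
  have h1 : JetE g p y N = {z | (∀ i, z (i, 0) = p i) ∧
      (∀ j, ∀ k < N, PowerSeries.coeff k (aeval (ar z) (g j)) = 0) ∧
      PowerSeries.coeff N (aeval (ar z) (g l)) ≠ 0 ∧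
      ∀ j, PowerSeries.coeff N (aeval (ar z) (g j)) * y l =
        PowerSeries.coeff N (aeval (ar z) (g l)) * y j} := by
    ext z
    unfold JetE
    rw [Set.mem_ofPred_eq, Set.mem_ofPred_eq]
    refine and_congr_right fun _ => and_congr_right fun _ => ?_
    constructor
    · rintro ⟨c, hc, h2⟩
      refine ⟨by rw [h2 l]; exact mul_ne_zero hc hl, fun j => ?_⟩
      rw [h2 j, h2 l]
      ring
    · rintro ⟨h2, h3⟩
      refine ⟨PowerSeries.coeff N (aeval (ar z) (g l)) / y l, div_ne_zero h2 hl, fun j => ?_⟩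
      rw [div_mul_eq_mul_div, ← h3 j, mul_div_assoc, div_self hl, mul_one]
  rw [h1]
  refine Constr.and (Constr.all fun i => Constr.eq (IsPF.coord _) (Base.pf_const _))
    (Constr.and (Constr.all fun j => Constr.allLt N fun k _ => Constr.eqz (pa_aeval (g j) k))
      (Constr.and (Constr.ne (pa_aeval (g l) N) IsPF.zero) (Constr.all fun j => ?_)))
  exact Constr.eq ((pa_aeval (g j) N).mul (Base.pf_const _))
    ((pa_aeval (g l) N).mul (Base.pf_const _))

/-- a set of jets with the same origin -/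
theorem chi_fix [IsAlgClosed K] [Fintype σ] {R : Type} [CommRing R] (M : Meas K R) (b : Pt K σ)
    (N : ℕ) (Ψ : Set (Pt K (σ × Fin (N + 1)))) (hΨ : Constr Ψ) (hb : ∀ ψ ∈ Ψ, jk ψ 0 = b) :
    Constr {w : Pt K (σ × Fin N) | gl b w ∈ Ψ} ∧
      M.χ _ Ψ = M.χ _ {w : Pt K (σ × Fin N) | gl b w ∈ Ψ} := by
  have h1 : Constr {w : Pt K (σ × Fin N) | gl b w ∈ Ψ} :=
    hΨ.preimage (fun w : Pt K (σ × Fin N) => gl b w)
      (pf_gl (fun i => Base.pf_const _) fun p => IsPF.coord p)
  refine ⟨h1, M.iso _ _ hΨ h1 (fun z p => z (p.1, p.2.succ)) (fun w => gl b w)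
    (regularOn_poly (fun p => IsPF.coord _) _)
    (regularOn_poly (pf_gl (x := fun _ => b) (w := fun w => w) (fun i => Base.pf_const (b i))
      fun p => IsPF.coord p) _) ?_ ?_ ?_ ?_⟩
  · intro z hz
    have h2 : gl b (fun p => z (p.1, p.2.succ)) = z := by
      have h3 := gl_eta z
      have h4 : (fun i => z (i, 0)) = b := by
        rw [← hb z hz, Lev.jk_zero]
      rwa [h4] at h3
    change gl b (fun p => z (p.1, p.2.succ)) ∈ Ψ
    rw [h2]
    exact hz
  · intro w hw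
    exact hw
  · intro z hz
    have h3 := gl_eta z
    have h4 : (fun i => z (i, 0)) = b := by
      rw [← hb z hz, Lev.jk_zero]
    rwa [h4] at h3
  · intro w _
    rfl

end

theorem main (hFIB : S_FIB) (hORDT : S_ORDT) : S_LIFT := by
  intro σ τ J J' _ _ _ _ _ g g' f h hI1 hI2 κ p hκ hdet hhp y' b hmon
  obtain ⟨M, hL, hM⟩ := exists_meas ℂ
  obtain ⟨hy', ⟨N₀, hN₀, w₀, hw₀⟩, hb0, hE⟩ := hmon
  set pF : Pt ℂ σ := fun i => algebraMap ℂ (AlgebraicClosure ℂ) (p i) with hpF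
  have hvf : (fun i => algebraMap ℂ (AlgebraicClosure ℂ) (eval p (f i))) = vf f pF := by
    funext i
    unfold vf
    rw [hpF, aevalA]
  rw [hvf] at hw₀
  simp only [hvf] at hE
  set yF' : J' → AlgebraicClosure ℂ := fun j => algebraMap ℂ (AlgebraicClosure ℂ) (y' j) with hyF'
  have hyF'0 : yF' ≠ 0 := by
    intro h1
    apply hy'
    funext j
    exact injA (by rw [show algebraMap ℂ (AlgebraicClosure ℂ) (y' j) = 0 from congrFun h1 j]; simp)
  have hBc : Constr ({pF} : Set (Pt ℂ σ)) := by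
    have h1 : ({pF} : Set (Pt ℂ σ)) = {x | ∀ i, x i = pF i} := by
      ext x
      rw [Set.mem_singleton_iff, funext_iff]
      rfl
    rw [h1]
    exact Constr.all fun i => Constr.eq (IsPF.coord i) (Base.pf_const _)
  have hBd : ∀ x ∈ ({pF} : Set (Pt ℂ σ)), (jac f κ x).det ≠ 0 := by
    intro x hx
    rw [Set.mem_singleton_iff] at hx
    rw [hx, hpF, jac_det]
    intro h1
    exact hdet (injA (by rw [h1, map_zero]))
  have hhF : aeval pF h ≠ 0 := by
    rw [hpF, aevalA]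
    intro h1
    exact hhp (injA (by rw [h1, map_zero]))
  have hjk : ∀ {N : ℕ} {ψ : Pt ℂ (τ × Fin (N + 1))}, ψ ∈ JetE g' (vf f pF) yF' N →
      jk ψ 0 = vf f pF := by
    intro N ψ hψ
    rw [Lev.jk_zero]
    funext i
    exact hψ.1 i
  -- a jet
  obtain ⟨z₀, hz₀, hz₀'⟩ := (hFIB f κ hκ {pF} hBc hBd N₀).1 pF rfl fun q => w₀ (q.1, q.2.succ)
  have hz₀w : push f z₀ = w₀ := by
    rw [hz₀']
    have h3 := gl_eta w₀
    have h4 : (fun i => w₀ (i, 0)) = vf f pF := by
      rw [← hjk hw₀, Lev.jk_zero]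
    rwa [h4] at h3
  obtain ⟨yF, hyF, hJ⟩ := (hORDT g g' f h hI1 hI2).2 pF yF' N₀ z₀ hhF hz₀ (by rw [hz₀w]; exact hw₀)
  choose y hy using fun j => Base.exists_alg (yF j)
  have hy2 : (fun j => algebraMap ℂ (AlgebraicClosure ℂ) (y j)) = yF := funext hy
  have hyF0 : yF ≠ 0 := hyF hyF'0
  refine ⟨y, ?_, ⟨N₀, hN₀, ?_⟩, hb0, fun N hN => ?_⟩
  · intro h1
    apply hyF0
    rw [← hy2, h1]
    funext j
    simp
  · rw [hy2]
    refine ⟨z₀, ?_⟩
    rw [hJ]
    exact ⟨hz₀, by rw [hz₀w]; exact hw₀⟩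
  · rw [hy2]
    have hΨc := constr_JetE g' (vf f pF) yF' hyF'0 N
    obtain ⟨h1, h2⟩ := chi_fix M (vf f pF) N _ hΨc fun ψ hψ => hjk hψ
    have h3 := ((hFIB f κ hκ {pF} hBc hBd N).2 _ hΨc).2 M
    have h4 : {x : Pt ℂ (σ ⊕ (τ × Fin N)) | (fun i => x (Sum.inl i)) ∈ ({pF} : Set (Pt ℂ σ)) ∧
        gl (vf f fun i => x (Sum.inl i)) (fun q => x (Sum.inr q)) ∈
          JetE g' (vf f pF) yF' N} =
        {x | (fun i => x (Sum.inl i)) ∈ ({pF} : Set (Pt ℂ σ)) ∧ (fun q => x (Sum.inr q)) ∈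
          {w : Pt ℂ (τ × Fin N) | gl (vf f pF) w ∈ JetE g' (vf f pF) yF' N}} := by
      ext x
      refine and_congr_right fun hx => ?_
      rw [Set.mem_singleton_iff] at hx
      rw [hx]
      rfl
    rw [h4, M.prod _ _ hBc h1, ← h2] at h3
    have h5 : M.χ σ ({pF} : Set (Pt ℂ σ)) = 1 := by
      rw [← M.point (ι := Empty)]
      refine M.iso _ _ hBc Constr.univ (fun _ i => i.elim) (fun _ => pF) (fun i => i.elim)
        (fun i => (Base.pf_const _).isRF _) (fun _ _ => trivial) (fun _ _ => rfl) ?_ ?_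
      · intro z hz
        exact (Set.mem_singleton_iff.1 hz).symm
      · intro w _
        funext i
        exact i.elim
    rw [h5, one_mul] at h3
    have h6 : JetE g pF yF N = {z : Pt ℂ (σ × Fin (N + 1)) | jk z 0 ∈ ({pF} : Set (Pt ℂ σ)) ∧
        push f z ∈ JetE g' (vf f pF) yF' N} := hJ N
    obtain ⟨Q, k, hQ1, hQ⟩ := hE N hN
    rw [← hM] at hQ
    refine ⟨Q * Polynomial.X ^ ((Fintype.card σ - Fintype.card τ) * N), k, ?_, ?_⟩
    · rw [Polynomial.eval_mul, Polynomial.eval_pow, Polynomial.eval_X, one_pow, mul_one]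
      exact hQ1
    · rw [← hM, h6, h3, Polynomial.eval₂_mul, Polynomial.eval₂_X_pow, ← mul_assoc, ← hQ, hL]
      ring

end Pool.Agent.D0H67.CX.Lift
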