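import Pool.Agent.D0H67.CX.Stm

/-! # Rationality, with the closed subsets only -/

set_option autoImplicit false
set_option linter.unusedSectionVars false
set_option linter.unusedVariables false

namespace Pool.Agent.D0H67.CX.Rat2

open MvPolynomial Pool.Agent.W428.MOT Pool.Agent.TH192.MT Pool.Agent.TH192.DT
  Pool.Agent.D0H67.SUB Pool.Agent.D0H67.PM

/-- The pairs. -/
def DD {K : Type} [Field K] {σ S : Type} [Fintype σ] [DecidableEq S]
    (L : S → Submodule (AlgebraicClosure K) (Pt K σ)) (f : Finset S → ℕ) (A : Finset S) :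
    Set (ℤ × ℤ) :=
  {q : ℤ × ℤ | ∃ B ⊆ A, (∀ s, B.inf L ≤ L s → s ∈ B) ∧ 0 < f B ∧
    q = (-((Fintype.card σ - Module.finrank (AlgebraicClosure K) (B.inf L : Submodule _ _)
      : ℕ) : ℤ), (f B : ℤ))}

theorem ratU_mono {R : Type} [CommRing R] (u : Rˣ) {D D' : Set (ℤ × ℤ)} (h : D ⊆ D')
    {x : PowerSeries R} (hx : x ∈ ratU u D) : x ∈ ratU u D' := by
  refine Algebra.adjoin_mono ?_ hx
  rintro y (hy | ⟨p, hp, hy⟩)
  · exact Or.inl hy
  · exact Or.inr ⟨p, h hp, hy⟩

theorem main : S_RAT2 := by
  intro K _ _ σ S _ _ L f hf0 hf R _ M u hu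
  set v : R := ((u⁻¹ : Rˣ) : R) with hvdef
  have hv : M.L * v = 1 := by rw [hu, hvdef, Units.mul_inv]
  have hL : ∀ s, Constr (L s : Set (Pt K σ)) := fun s => Base.constr_sub (L s)
  have hE := Eng.main L f hL hf0 hf M v hv
  change ∀ A : Finset S, (∀ s, A.inf L ≤ L s → s ∈ A) → zf M v L f A ∈ ratU u (DD L f A)
  have key : ∀ (n : ℕ) (A : Finset S), A.card = n → (∀ s, A.inf L ≤ L s → s ∈ A) →
      zf M v L f A ∈ ratU u (DD L f A) := by
    intro n
    induction n using Nat.strong_induction_on with
    | _ n ih =>
      intro A hn hcl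
      by_cases h0 : f A = 0
      · rw [hE.1 A h0]
        exact Subalgebra.one_mem _
      · have hpos : 0 < f A := Nat.pos_of_ne_zero h0
        set d := Module.finrank (AlgebraicClosure K) (A.inf L : Submodule _ _) with hd
        have hdn : d ≤ Fintype.card σ := by
          have h1 := Submodule.finrank_le (A.inf L : Submodule (AlgebraicClosure K) (Pt K σ))
          rwa [Module.finrank_fintype_fun_eq_card] at h1
        refine geo_solve u hpos (D := DD L f A) (ν := Fintype.card σ - d)
          ⟨A, Finset.Subset.refl A, hcl, hpos, rfl⟩ _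
          (PowerSeries.C (v ^ Fintype.card σ) * PowerSeries.X ^ f A *
            ∑ B ∈ A.powerset.erase A, PowerSeries.C (M.χ σ (VC L A B)) * zf M v L f B) ?_ ?_
        · refine Subalgebra.mul_mem _ (Subalgebra.mul_mem _ (rat_C u _)
            (Subalgebra.pow_mem _ (rat_X u) _)) (Subalgebra.sum_mem _ fun B hB => ?_)
          rw [Finset.mem_erase, Finset.mem_powerset] at hB
          by_cases hV : (VC L A B).Nonempty
          · refine Subalgebra.mul_mem _ (rat_C u _) ?_
            refine ratU_mono u ?_ (ih B.card ?_ B rfl ?_)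
            · rintro q ⟨B', h1, h2⟩
              exact ⟨B', h1.trans hB.2, h2⟩
            · rw [← hn]
              exact Finset.card_lt_card (Finset.ssubset_iff_subset_ne.2 ⟨hB.2, hB.1⟩)
            · obtain ⟨x, hx1, hx2⟩ := hV
              intro s hs
              have h1 : s ∈ A := hcl s ((Finset.inf_mono hB.2).trans hs)
              by_contra h2
              have h3 : x ∈ B.inf L := by
                rw [Submodule.mem_finsetInf]
                exact hx1
              exact hx2 s (Finset.mem_sdiff.2 ⟨h1, h2⟩) (hs h3)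
          · rw [Set.not_nonempty_iff_eq_empty] at hV
            rw [hV, Pool.Agent.W375.MT.chi_empty, map_zero, zero_mul]
            exact Subalgebra.zero_mem _
        · conv_lhs => rw [hE.2 A]
          have h1 : A ∈ A.powerset := Finset.mem_powerset.2 (Finset.Subset.refl A)
          rw [← Finset.sum_erase_add _ _ h1, Rat.VC_self, (Base.cls (A.inf L)).2 M, ← hd, mul_add]
          congr 1
          have h2 : v ^ Fintype.card σ * M.L ^ d = v ^ (Fintype.card σ - d) := by
            have h3 : Fintype.card σ = (Fintype.card σ - d) + d := by omega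
            conv_lhs => rw [h3, pow_add]
            have h4 : v ^ d * M.L ^ d = 1 := by
              rw [← mul_pow, mul_comm v, hv, one_pow]
            rw [mul_assoc, h4, mul_one]
          rw [← h2, map_mul]
          ring
  intro A hA
  exact key _ A rfl hA

end Pool.Agent.D0H67.CX.Rat2
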