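import Pool.Agent.D0H67.CX.Loc

/-! # The zeta function of a cone -/

set_option autoImplicit false
set_option linter.unusedSectionVars false
set_option linter.unusedVariables false

namespace Pool.Agent.D0H67.CX.Zeta

open MvPolynomial Pool.Agent.W428.MOT Pool.Agent.TH192.MT Pool.Agent.TH192.DT
  Pool.Agent.D0H67.SUB Pool.Agent.D0H67.PM Pool.Agent.D0H67.CX.Loc

variable {σ J : Type} [Fintype σ] [Finite J] (g : J → MvPolynomial σ ℂ)

/-- all pairs of the chart, at all points, belong to `D` -/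
def Pairs {τ S : Type} [Fintype τ] [Fintype S] {κ : S → Type}
    (c : (s : S) → κ s → τ → ℂ) (P : Finset (S → ℕ)) (hP : P.Nonempty)
    (f : τ → MvPolynomial σ ℂ) (h : MvPolynomial σ ℂ) (D : Set (ℤ × ℤ)) : Prop :=
  ∀ w : σ → ℂ, w ≠ 0 → (∀ j, eval w (g j) = 0) → IsChart g c P hP f h w →
    ∀ A : Finset S, Closed c A → (fun i => eval w (f i)) ∈ Gs c A → 0 < fP P hP A →
      (-((Fintype.card τ - Module.finrank ℂ (Gs c A) : ℕ) : ℤ), (fP P hP A : ℤ)) ∈ D

theorem mem_Gs {τ S : Type} [Fintype τ] {κ : S → Type} (c : (s : S) → κ s → τ → ℂ)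
    (A : Finset S) (y : τ → ℂ) : y ∈ Gs c A ↔ ∀ s ∈ A, y ∈ zeros (c s) := by
  unfold Gs
  rw [Submodule.mem_finsetInf]

/-- a piece of one chart -/
theorem piece (hORDT : S_ORDT) (hZST : S_ZST) (M : Meas ℂ (MK ℂ))
    (hL : M.L = ((Lu ℂ : (MK ℂ)ˣ) : MK ℂ))
    (hadd : Add M (((Lu ℂ)⁻¹ : (MK ℂ)ˣ) : MK ℂ) g)
    {τ S : Type} [Fintype τ] [Fintype S] {κ : S → Type} [hκ : ∀ s, Finite (κ s)]
    (c : (s : S) → κ s → τ → ℂ) (P : Finset (S → ℕ)) (hP : P.Nonempty)
    (f : τ → MvPolynomial σ ℂ) (h : MvPolynomial σ ℂ) (u : σ → ℂ)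
    (hch : IsChart g c P hP f h u) (D : Set (ℤ × ℤ)) (hD : Pairs g c P hP f h D)
    [DecidableEq τ] (κ0 : τ → σ) (hκ0 : Function.Injective κ0)
    (B : Set (Pt ℂ σ)) (hB : Constr B) (hB0 : ∀ x ∈ B, x ≠ 0) (hBg : ∀ x ∈ B, ∀ j, aeval x (g j) = 0)
    (hBh : ∀ x ∈ B, aeval x h ≠ 0) (hBj : ∀ x ∈ B, (jac f κ0 x).det ≠ 0) :
    ZF M (((Lu ℂ)⁻¹ : (MK ℂ)ˣ) : MK ℂ) g B ∈ ratU (Lu ℂ) D := by
  classical
  obtain ⟨hc, hG, hX, hli, hhu, hI1, hI2⟩ := hch
  obtain ⟨Φ, h1, h2, h3⟩ := Pool.Agent.D0H9.SUB.trans (K := ℂ) (σ := τ)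
  have hLw : M.L * (((Lu ℂ)⁻¹ : (MK ℂ)ˣ) : MK ℂ) = 1 := by rw [hL, Units.mul_inv]
  set L : S → Submodule (AlgebraicClosure ℂ) (Pt ℂ τ) := fun s => zerosF (c s) with hLdef
  have hLc : ∀ s, Constr (L s : Set (Pt ℂ τ)) := fun s => Base.constr_sub (L s)
  have h4 : ∀ A : Finset S, A.inf L = Φ (Gs c A) := by
    intro A
    unfold Gs
    rw [map_finset_inf Φ A]
    exact Finset.inf_congr rfl fun s _ => (h3 (c s)).symm
  -- the strata
  set V : Finset S → Set (Pt ℂ σ) := fun A => {x | x ∈ B ∧ vf f x ∈ VC L Finset.univ A} with hV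
  have hVc : ∀ A, Constr (V A) := fun A => Constr.and hB
    ((Eng.constr_VC L hLc Finset.univ A).preimage (fun x => vf f x) fun i => IsPF.poly (f i))
  have hBV : B = ⋃ A ∈ (Finset.univ : Finset S).powerset, V A := by
    ext x
    simp only [Set.mem_iUnion, exists_prop, Finset.mem_powerset]
    constructor
    · intro hx
      refine ⟨Finset.univ.filter fun s => vf f x ∈ L s, Finset.subset_univ _, hx, ?_, ?_⟩
      · exact fun s hs => (Finset.mem_filter.1 hs).2
      · intro s hs h5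
        rw [Finset.mem_sdiff, Finset.mem_filter] at hs
        exact hs.2 ⟨hs.1, h5⟩
    · rintro ⟨A, -, hx, -⟩
      exact hx
  rw [hBV]
  refine mem_biUnion hadd _ _ _ (fun A _ => hVc A) ?_ ?_
  · intro A hA A' hA' hne
    rw [Set.disjoint_left]
    rintro x ⟨-, h5⟩ ⟨-, h6⟩
    exact hne (Eng.VC_disj L (Finset.mem_powerset.1 hA) (Finset.mem_powerset.1 hA') h5 h6)
  · intro A _
    by_cases hne : (V A).Nonempty
    · obtain ⟨x, hxB, hxA⟩ := hne
      obtain ⟨w, hw⟩ := exists_pt x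
      have hvf : vf f x = fun i => algebraMap ℂ (AlgebraicClosure ℂ) (eval w (f i)) := by
        funext i
        unfold vf
        rw [← hw, aevalA]
      have hmemL : ∀ s, (vf f x ∈ L s ↔ (fun i => eval w (f i)) ∈ zeros (c s)) := by
        intro s
        rw [hvf, hLdef, h2 (zeros (c s)), h3 (c s)]
      -- the stratum is closed
      have hcl : ∀ s, A.inf L ≤ L s → s ∈ A := by
        intro s hs
        by_contra h5
        refine hxA.2 s (Finset.mem_sdiff.2 ⟨Finset.mem_univ s, h5⟩) (hs ?_)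
        rw [Submodule.mem_finsetInf]
        exact hxA.1
      have hZ : ZF M (((Lu ℂ)⁻¹ : (MK ℂ)ˣ) : MK ℂ) g (V A) =
          PowerSeries.C (M.χ σ (V A)) *
            zf M (((Lu ℂ)⁻¹ : (MK ℂ)ˣ) : MK ℂ) L (fP P hP) A := by
        rw [← hZST f κ0 hκ0 L (fP P hP) A (V A) (hVc A) (fun x hx => hBj x hx.1)
          (fun x hx => hx.2) M _ hLw]
        unfold ZF
        congr 1
        funext N
        congr 2
        ext z
        rw [← Ordv.ord1 c P hP hG Set.univ N]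
        constructor
        · intro hz
          have h5 : jk z 0 ∈ V A := by
            rw [Lev.jk_zero]
            exact hz.1
          exact (((hORDT g (gensP P c) f h hI1 hI2).1 N z (V A) (hBh _ h5.1)).1 hz)
        · rintro ⟨h5, h6⟩
          exact (((hORDT g (gensP P c) f h hI1 hI2).1 N z (V A) (hBh _ h5.1)).2 ⟨h5, h6⟩)
      rw [hZ]
      refine Subalgebra.mul_mem _ (rat_C (Lu ℂ) _) ?_
      refine Rat2.ratU_mono (Lu ℂ) ?_ (Rat2.main L (fP P hP) (PM.Fin.fP_empty P hP)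
        (PM.Fin.fP_mono P hP) M (Lu ℂ) hL A hcl)
      rintro q ⟨A', hA', hA'cl, hA'pos, hq⟩
      have hw0 : w ≠ 0 := by
        intro h5
        apply hB0 x hxB
        rw [← hw, h5]
        funext i
        simp
      have hwg : ∀ j, eval w (g j) = 0 := by
        intro j
        have h5 := hBg x hxB j
        rw [← hw, aevalA] at h5
        exact injA (by rw [h5, map_zero])
      have hq' : q = (-((Fintype.card τ - Module.finrank ℂ (Gs c A') : ℕ) : ℤ),
          (fP P hP A' : ℤ)) := by rw [hq, h4, h1]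
      rw [hq']
      refine hD w hw0 hwg ⟨hc, hG, hX, ?_, ?_, hI1, hI2⟩ A' ?_ ?_ hA'pos
      · have h5 := hBj x hxB
        rw [← hw, jac_det] at h5
        exact indep_of_det _ κ0 fun h6 => h5 (by rw [h6, map_zero])
      · intro h5
        apply hBh x hxB
        rw [← hw, aevalA, h5, map_zero]
      · intro s hs
        apply hA'cl s
        rw [h4]
        change Φ _ ≤ zerosF (c s)
        rw [← h3 (c s), OrderIso.le_iff_le]
        exact hs
      · rw [mem_Gs]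
        intro s hs
        rw [← hmemL]
        exact hxA.1 s (hA' hs)
    · rw [Set.not_nonempty_iff_eq_empty] at hne
      rw [hne, zf_empty hadd]
      exact Subalgebra.zero_mem _

/-- The zeta function lies in the ring. -/
theorem main (hORDT : S_ORDT) (hZST : S_ZST) (hREC : S_REC) (d : ℕ) (hd : 0 < d)
    (hg : ∀ j, (g j).IsHomogeneous d)
    (D : Set (ℤ × ℤ)) (hD0 : (-(Fintype.card σ : ℤ), (d : ℤ)) ∈ D)
    (hloc : ∀ u : σ → ℂ, u ≠ 0 → (∀ j, eval u (g j) = 0) →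
      ∃ (τ S : Type) (_ : Fintype τ) (_ : Fintype S) (κ : S → Type) (_ : ∀ s, Finite (κ s))
        (c : (s : S) → κ s → τ → ℂ) (P : Finset (S → ℕ)) (hP : P.Nonempty)
        (f : τ → MvPolynomial σ ℂ) (h : MvPolynomial σ ℂ), IsChart g c P hP f h u ∧
          Pairs g c P hP f h D) :
    zetaJ g ∈ ratRing ℂ D := by
  classical
  obtain ⟨M, hL, hM⟩ := exists_meas ℂ
  set v : MK ℂ := (((Lu ℂ)⁻¹ : (MK ℂ)ˣ) : MK ℂ) with hvdef
  have hLw : M.L * v = 1 := by rw [hL, Units.mul_inv]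
  obtain ⟨hRa, hRb, hRc⟩ := hREC g d hd hg M v hLw
  have hadd : Add M v g := hRb
  -- the charts
  have hdata : ∀ u : σ → ℂ, ∃ H : MvPolynomial σ ℂ, u ≠ 0 → (∀ j, eval u (g j) = 0) →
      eval u H ≠ 0 ∧ ∀ B : Set (Pt ℂ σ), Constr B → (∀ x ∈ B, x ≠ 0) →
        (∀ x ∈ B, ∀ j, aeval x (g j) = 0) → (∀ x ∈ B, aeval x H ≠ 0) →
        ZF M v g B ∈ ratU (Lu ℂ) D := by
    intro u
    by_cases hu : u ≠ 0 ∧ ∀ j, eval u (g j) = 0
    · obtain ⟨τ, S, iτ, iS, κ, hκ, c, P, hP, f, h, hch, hDu⟩ := hloc u hu.1 hu.2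
      obtain ⟨κ0, hκ0, hdet⟩ := Small.minor _ hch.2.2.2.1
      refine ⟨h * (Matrix.of fun i j => pderiv (κ0 j) (f i) :
        Matrix τ τ (MvPolynomial σ ℂ)).det, fun _ _ => ⟨?_, fun B hB hB0 hBg hBH => ?_⟩⟩
      · rw [map_mul]
        refine mul_ne_zero hch.2.2.2.2.1 ?_
        rw [RingHom.map_det]
        exact hdet
      · have h5 : ∀ x : Pt ℂ σ, aeval x (Matrix.of fun i j => pderiv (κ0 j) (f i) :
            Matrix τ τ (MvPolynomial σ ℂ)).det = (jac f κ0 x).det := by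
          intro x
          rw [AlgHom.map_det]
          rfl
        refine piece g hORDT hZST M hL hadd c P hP f h u hch D hDu κ0 hκ0 B hB hB0 hBg
          (fun x hx h6 => hBH x hx ?_) (fun x hx h6 => hBH x hx ?_)
        · rw [map_mul, h6, zero_mul]
        · rw [map_mul, h5, h6, mul_zero]
    · exact ⟨0, fun h1 h2 => absurd ⟨h1, h2⟩ hu⟩
  choose H hH using hdata
  obtain ⟨T, hTZ, hT⟩ := Small.cov {u : σ → ℂ | u ≠ 0 ∧ ∀ j, eval u (g j) = 0} H
    fun u hu => (hH u hu.1 hu.2).1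
  -- the points outside the origin where all `g j` vanish
  set W : Set (Pt ℂ σ) := {x | x ≠ 0 ∧ ∀ j, aeval x (g j) = 0} with hW
  have hne0 : Constr {x : Pt ℂ σ | x ≠ 0} := by
    have := (Shift.constr_z (K := ℂ) (σ := σ)).compl
    exact this
  have hWc : Constr W := Constr.and hne0 (Constr.all fun j => Constr.eqz (IsPF.poly (g j)))
  have hU : ∀ T' : Finset (σ → ℂ), Constr {x : Pt ℂ σ | ∃ u ∈ T', aeval x (H u) ≠ 0} :=
    fun T' => Constr.bexFinset T' fun u _ => Constr.ne (IsPF.poly (H u)) IsPF.zero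
  have hmemT : ∀ T' : Finset (σ → ℂ), T' ⊆ T →
      ZF M v g {x | x ∈ W ∧ ∃ u ∈ T', aeval x (H u) ≠ 0} ∈ ratU (Lu ℂ) D := by
    intro T'
    induction T' using Finset.induction_on with
    | empty =>
      intro _
      have h5 : {x : Pt ℂ σ | x ∈ W ∧ ∃ u ∈ (∅ : Finset (σ → ℂ)), aeval x (H u) ≠ 0} = ∅ := by
        ext x
        simp
      rw [h5, zf_empty hadd]
      exact Subalgebra.zero_mem _
    | insert a T' ha ih =>
      intro hsub
      have h5 : {x : Pt ℂ σ | x ∈ W ∧ ∃ u ∈ insert a T', aeval x (H u) ≠ 0} =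
          {x | x ∈ W ∧ ∃ u ∈ T', aeval x (H u) ≠ 0} ∪
          {x | (x ∈ W ∧ ¬ ∃ u ∈ T', aeval x (H u) ≠ 0) ∧ aeval x (H a) ≠ 0} := by
        ext x
        simp only [Finset.exists_mem_insert, Set.mem_ofPred_eq, Set.mem_union]
        generalize (∃ u ∈ T', aeval x (H u) ≠ 0) = p1
        generalize (x ∈ W) = p2
        generalize (aeval x (H a) ≠ 0) = p3
        tauto
      have h6 := hTZ (hsub (Finset.mem_insert_self a T'))
      have hc2 : Constr {x : Pt ℂ σ | (x ∈ W ∧ ¬ ∃ u ∈ T', aeval x (H u) ≠ 0) ∧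
          aeval x (H a) ≠ 0} :=
        Constr.and (Constr.and hWc (Constr.not (hU T'))) (Constr.ne (IsPF.poly (H a)) IsPF.zero)
      have hc1 : Constr {x : Pt ℂ σ | x ∈ W ∧ ∃ u ∈ T', aeval x (H u) ≠ 0} :=
        Constr.and hWc (hU T')
      rw [h5, hadd _ _ hc1 hc2]
      · refine Subalgebra.add_mem _ (ih fun x hx => hsub (Finset.mem_insert_of_mem hx)) ?_
        exact (hH a h6.1 h6.2).2 _ hc2 (fun x hx => hx.1.1.1) (fun x hx => hx.1.1.2)
          fun x hx => hx.2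
      · rw [Set.disjoint_left]
        rintro x ⟨-, h7⟩ ⟨⟨-, h8⟩, -⟩
        exact h8 h7
  have hZW : ZF M v g W ∈ ratU (Lu ℂ) D := by
    have h5 : W = {x | x ∈ W ∧ ∃ u ∈ T, aeval x (H u) ≠ 0} := by
      ext x
      constructor
      · intro hx
        refine ⟨hx, ?_⟩
        obtain ⟨w, hw⟩ := exists_pt x
        have hw0 : w ≠ 0 := by
          intro h5
          apply hx.1
          rw [← hw, h5]
          funext i
          simp
        have hwg : ∀ j, eval w (g j) = 0 := by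
          intro j
          have h5 := hx.2 j
          rw [← hw, aevalA] at h5
          exact injA (by rw [h5, map_zero])
        obtain ⟨u, hu, hu'⟩ := hT w ⟨hw0, hwg⟩
        refine ⟨u, hu, fun h6 => hu' ?_⟩
        rw [← hw, aevalA] at h6
        exact injA (by rw [h6, map_zero])
      · exact fun hx => hx.1
    rw [h5]
    exact hmemT T (Finset.Subset.refl T)
  -- all points outside the origin
  have hne : ZF M v g {x | x ≠ 0} ∈ ratU (Lu ℂ) D := by
    have h5 : {x : Pt ℂ σ | x ≠ 0} = W ∪ {x | x ≠ 0 ∧ ¬ ∀ j, aeval x (g j) = 0} := by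
      ext x
      simp only [hW, Set.mem_ofPred_eq, Set.mem_union]
      tauto
    have hc2 : Constr {x : Pt ℂ σ | x ≠ 0 ∧ ¬ ∀ j, aeval x (g j) = 0} :=
      Constr.and hne0 (Constr.not (Constr.all fun j => Constr.eqz (IsPF.poly (g j))))
    rw [h5, hadd _ _ hWc hc2]
    · refine Subalgebra.add_mem _ hZW ?_
      rw [hRc _ hc2 fun x hx => by
        have := hx.2
        push Not at this
        exact this]
      exact rat_C _ _
    · rw [Set.disjoint_left]
      rintro x ⟨-, h7⟩ ⟨-, h8⟩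
      exact h8 h7
  have h0 : ZF M v g {0} ∈ ratU (Lu ℂ) D := by
    have h5 : (Set.univ : Set (Pt ℂ σ)) = {0} ∪ {x | x ≠ 0} := by
      ext x
      simp only [Set.mem_univ, Set.mem_union, Set.mem_singleton_iff, Set.mem_ofPred_eq, true_iff]
      exact em _
    have hdj : Disjoint ({0} : Set (Pt ℂ σ)) {x | x ≠ 0} := by
      rw [Set.disjoint_left]
      intro x hx hx'
      exact hx' hx
    rw [h5, hadd _ _ Shift.constr_z hne0 hdj] at hRa
    refine geo_solve (Lu ℂ) hd (D := D) (ν := Fintype.card σ) hD0 _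
      (PowerSeries.C (v ^ Fintype.card σ) * PowerSeries.X ^ d * ZF M v g {x | x ≠ 0}) ?_ ?_
    · exact Subalgebra.mul_mem _ (Subalgebra.mul_mem _ (rat_C _ _)
        (Subalgebra.pow_mem _ (rat_X _) _)) hne
    · conv_lhs => rw [hRa]
      rw [hvdef]
      ring
  -- the zeta function
  refine Subalgebra.mul_mem _ (rat_C (Lu ℂ) _) (drop_mem ?_)
  have h9 : (PowerSeries.mk fun N => algebraMap (K0 ℂ) (MK ℂ) (cls (σ × _root_.Fin (N + 1))
      (JetF g {0} N)) * (((Lu ℂ) ^ (-((Fintype.card σ * N : ℕ) : ℤ)) : (MK ℂ)ˣ) : MK ℂ)) =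
      ZF M v g {0} := by
    unfold ZF
    congr 1
    funext N
    rw [hM, hvdef, inv_pow_eq]
  rw [h9]
  exact h0

end Pool.Agent.D0H67.CX.Zeta
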