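import Pool.Agent.D0H67.CX.Zst
import Pool.Agent.D0H67.CX.Zeta
import Pool.Agent.D0H87.CX.Rec
import Pool.Agent.D0H35.CX.Ordt

/-! # Centers of charts -/

set_option autoImplicit false
set_option linter.unusedSectionVars false
set_option linter.unusedVariables false

namespace Pool.Agent.D0H67.CX.Cen

open MvPolynomial Pool.Agent.W428.MOT Pool.Agent.TH192.MT Pool.Agent.TH192.DT
  Pool.Agent.D0H67.SUB Pool.Agent.D0H67.PM Pool.Agent.D0H67.SUB.Trn Pool.Agent.D0H67.PM.Eng
  Pool.Agent.D0H67.CX.Loc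

variable {K : Type} [Field K] {σ τ J J' : Type} [Fintype σ] [Fintype τ] [Finite J] [Finite J']

theorem constr_JetF (g : J → MvPolynomial σ K) {V : Set (Pt K σ)} (hV : Constr V) (N : ℕ) :
    Constr (JetF g V N) := Pool.Agent.D0H87.CX.Rec.constr_OS g hV N N

/-- the jets at the origin -/
def Yg (g : J → MvPolynomial τ K) (N : ℕ) : Set (Pt K (τ × Fin N)) :=
  {w | gl 0 w ∈ JetF g Set.univ N}

theorem constr_Yg (g : J → MvPolynomial τ K) (N : ℕ) : Constr (Yg g N) :=
  (constr_JetF g Constr.univ N).preimage (fun w : Pt K (τ × Fin N) => gl 0 w)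
    (pf_gl (fun i => IsPF.zero) fun p => IsPF.coord p)

theorem chi_center (hFIB : S_FIB) (hORDT : S_ORDT) [DecidableEq τ] (g : J → MvPolynomial σ K)
    (g' : J' → MvPolynomial τ K) (f : τ → MvPolynomial σ K) (h : MvPolynomial σ K)
    (hI1 : ∀ j, h * g j ∈ Ideal.span (Set.range fun l => bind₁ f (g' l)))
    (hI2 : ∀ l, h * bind₁ f (g' l) ∈ Ideal.span (Set.range g))
    (κ : τ → σ) (hκ : Function.Injective κ) (B : Set (Pt K σ)) (hB : Constr B)
    (hBf : ∀ x ∈ B, vf f x = 0) (hBh : ∀ x ∈ B, aeval x h ≠ 0)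
    (hdet : ∀ x ∈ B, (jac f κ x).det ≠ 0) (N : ℕ) {R : Type} [CommRing R] (M : Meas K R) :
    M.χ (σ × Fin (N + 1)) (JetF g B N) =
      M.χ σ B * M.χ _ (Yg g' N) * M.L ^ ((Fintype.card σ - Fintype.card τ) * N) := by
  have h1 : JetF g B N = {z | jk z 0 ∈ B ∧ push f z ∈ JetF g' Set.univ N} := by
    ext z
    constructor
    · intro hz
      have h5 : jk z 0 ∈ B := by
        rw [Lev.jk_zero]
        exact hz.1
      exact (((hORDT g g' f h hI1 hI2).1 N z B (hBh _ h5)).1 hz)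
    · rintro ⟨h5, h6⟩
      exact (((hORDT g g' f h hI1 hI2).1 N z B (hBh _ h5)).2 ⟨h5, h6⟩)
  have h2 : {x : Pt K (σ ⊕ (τ × Fin N)) | (fun i => x (Sum.inl i)) ∈ B ∧
      gl (vf f fun i => x (Sum.inl i)) (fun p => x (Sum.inr p)) ∈ JetF g' Set.univ N} =
      {x | (fun i => x (Sum.inl i)) ∈ B ∧ (fun p => x (Sum.inr p)) ∈ Yg g' N} := by
    ext x
    refine and_congr_right fun hx => ?_
    rw [hBf _ hx]
    rfl
  obtain ⟨-, hΨ⟩ := hFIB f κ hκ B hB hdet N
  rw [h1, (hΨ _ (constr_JetF g' Constr.univ N)).2 M, h2, M.prod B _ hB (constr_Yg g' N)]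

theorem chi_zero' (hFIB : S_FIB) (hORDT : S_ORDT) [DecidableEq τ] (g' : J' → MvPolynomial τ K)
    (N : ℕ) {R : Type} [CommRing R] (M : Meas K R) :
    M.χ (τ × Fin (N + 1)) (JetF g' {0} N) = M.χ _ (Yg g' N) := by
  have hX : ∀ l, bind₁ (X : τ → MvPolynomial τ K) (g' l) = g' l := fun l => by
    rw [bind₁_X_left]; rfl
  have h := chi_center hFIB hORDT g' g' (X : τ → MvPolynomial τ K) 1
    (fun j => by rw [one_mul]; exact Ideal.subset_span ⟨j, hX j⟩)
    (fun j => by rw [one_mul, hX]; exact Ideal.subset_span ⟨j, rfl⟩) id Function.injective_id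
    {0} Shift.constr_z (by
      rintro x rfl
      funext i
      simp [vf]) (fun x _ => by simp) (by
      rintro x -
      have h1 : jac (X : τ → MvPolynomial τ K) id x = 1 := by
        ext i j
        unfold jac
        rw [Matrix.of_apply, id, pderiv_X, Matrix.one_apply]
        by_cases hij : i = j
        · subst hij
          simp
        · rw [if_neg hij, Pi.single_eq_of_ne hij]
          simp
      rw [h1, Matrix.det_one]
      exact one_ne_zero) N M
  rw [h, chi_zero, one_mul, Nat.sub_self, zero_mul, pow_zero, mul_one]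

/-- the series over the center of a chart -/
theorem series (hFIB : S_FIB) (hORDT : S_ORDT) [DecidableEq τ] (g : J → MvPolynomial σ K)
    (g' : J' → MvPolynomial τ K) (f : τ → MvPolynomial σ K) (h : MvPolynomial σ K)
    (hI1 : ∀ j, h * g j ∈ Ideal.span (Set.range fun l => bind₁ f (g' l)))
    (hI2 : ∀ l, h * bind₁ f (g' l) ∈ Ideal.span (Set.range g))
    (κ : τ → σ) (hκ : Function.Injective κ) (B : Set (Pt K σ)) (hB : Constr B)
    (hBf : ∀ x ∈ B, vf f x = 0) (hBh : ∀ x ∈ B, aeval x h ≠ 0)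
    (hdet : ∀ x ∈ B, (jac f κ x).det ≠ 0) {R : Type} [CommRing R] (M : Meas K R) (v : R)
    (hv : M.L * v = 1) :
    ZF M v g B = PowerSeries.C (M.χ σ B) * ZF M v g' {0} := by
  ext N
  unfold ZF
  rw [PowerSeries.coeff_mk, PowerSeries.coeff_C_mul, PowerSeries.coeff_mk,
    chi_center hFIB hORDT g g' f h hI1 hI2 κ hκ B hB hBf hBh hdet N M,
    chi_zero' hFIB hORDT g' N M, mul_assoc, mul_assoc,
    Zst.pow_key hv (Fintype.card_le_of_injective κ hκ)]

end Pool.Agent.D0H67.CX.Cen
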