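import Pool.Agent.D0H67.CX.Cen

/-! # The zeta function of a cone: covers -/

set_option autoImplicit false
set_option linter.unusedSectionVars false
set_option linter.unusedVariables false

namespace Pool.Agent.D0H67.CX.Core

open MvPolynomial Pool.Agent.W428.MOT Pool.Agent.TH192.MT Pool.Agent.TH192.DT
  Pool.Agent.D0H67.SUB Pool.Agent.D0H67.PM Pool.Agent.D0H67.CX.Loc

variable {σ J : Type} [Fintype σ] [Finite J] (g : J → MvPolynomial σ ℂ)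

/-- a finite cover -/
theorem cover {M : Meas ℂ (MK ℂ)} (hadd : Add M (((Lu ℂ)⁻¹ : (MK ℂ)ˣ) : MK ℂ) g)
    (D : Set (ℤ × ℤ)) (W : Set (Pt ℂ σ)) {ι : Type} [DecidableEq ι] (U : ι → Set (Pt ℂ σ))
    (T : Finset ι) (hU : ∀ i ∈ T, Constr (U i))
    (h : ∀ i ∈ T, ∀ B ⊆ U i, Constr B → B ⊆ W →
      ZF M (((Lu ℂ)⁻¹ : (MK ℂ)ˣ) : MK ℂ) g B ∈ ratU (Lu ℂ) D) :
    ∀ W' : Set (Pt ℂ σ), Constr W' → W' ⊆ W → (∀ x ∈ W', ∃ i ∈ T, x ∈ U i) →
      ZF M (((Lu ℂ)⁻¹ : (MK ℂ)ˣ) : MK ℂ) g W' ∈ ratU (Lu ℂ) D := by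
  induction T using Finset.induction_on with
  | empty =>
    intro W' _ _ h5
    have h6 : W' = ∅ := by
      ext x
      simp only [Set.mem_empty_iff_false, iff_false]
      intro hx
      obtain ⟨i, hi, -⟩ := h5 x hx
      exact absurd hi (Finset.notMem_empty i)
    rw [h6, zf_empty hadd]
    exact Subalgebra.zero_mem _
  | insert a T ha ih =>
    intro W' hW' hWW h5
    have hUa : Constr (U a) := hU a (Finset.mem_insert_self a T)
    have hc1 : Constr {x : Pt ℂ σ | x ∈ W' ∧ x ∈ U a} := Constr.and hW' hUa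
    have hc2 : Constr {x : Pt ℂ σ | x ∈ W' ∧ ¬ x ∈ U a} := Constr.and hW' (Constr.not hUa)
    have h6 : W' = {x | x ∈ W' ∧ x ∈ U a} ∪ {x | x ∈ W' ∧ ¬ x ∈ U a} := by
      ext x
      simp only [Set.mem_ofPred_eq, Set.mem_union]
      tauto
    rw [h6, hadd _ _ hc1 hc2]
    · refine Subalgebra.add_mem _ ?_ ?_
      · exact h a (Finset.mem_insert_self a T) _ (fun x hx => hx.2) hc1 fun x hx => hWW hx.1
      · refine ih (fun i hi => hU i (Finset.mem_insert_of_mem hi))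
          (fun i hi => h i (Finset.mem_insert_of_mem hi)) _ hc2 (fun x hx => hWW hx.1) ?_
        rintro x ⟨hx, hxa⟩
        obtain ⟨i, hi, hxi⟩ := h5 x hx
        rcases Finset.mem_insert.1 hi with rfl | hi
        · exact absurd hxi hxa
        · exact ⟨i, hi, hxi⟩
    · rw [Set.disjoint_left]
      rintro x ⟨-, h7⟩ ⟨-, h8⟩
      exact h8 h7

/-- The sets `B` near the point `u` -/
def LR (M : Meas ℂ (MK ℂ)) (D : Set (ℤ × ℤ)) (u : σ → ℂ) : Prop :=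
  ∃ H : MvPolynomial σ ℂ, eval u H ≠ 0 ∧ ∀ B : Set (Pt ℂ σ), Constr B → (∀ x ∈ B, x ≠ 0) →
    (∀ x ∈ B, ∀ j, aeval x (g j) = 0) → (∀ x ∈ B, aeval x H ≠ 0) →
      ZF M (((Lu ℂ)⁻¹ : (MK ℂ)ˣ) : MK ℂ) g B ∈ ratU (Lu ℂ) D

theorem core (hREC : S_REC) (d : ℕ) (hd : 0 < d) (hg : ∀ j, (g j).IsHomogeneous d)
    (D : Set (ℤ × ℤ)) (hD0 : (-(Fintype.card σ : ℤ), (d : ℤ)) ∈ D) (M : Meas ℂ (MK ℂ))
    (hL : M.L = ((Lu ℂ : (MK ℂ)ˣ) : MK ℂ)) {Ω : Type} [Finite Ω] (C : Ω → Set (Pt ℂ σ))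
    (hC : ∀ ω, Constr (C ω))
    (hCr : ∀ ω, ∀ B ⊆ C ω, Constr B → (∀ x ∈ B, x ≠ 0) → (∀ x ∈ B, ∀ j, aeval x (g j) = 0) →
      ZF M (((Lu ℂ)⁻¹ : (MK ℂ)ˣ) : MK ℂ) g B ∈ ratU (Lu ℂ) D)
    (hcov : ∀ u : σ → ℂ, u ≠ 0 → (∀ j, eval u (g j) = 0) →
      (∃ ω, (fun i => algebraMap ℂ (AlgebraicClosure ℂ) (u i)) ∈ C ω) ∨ LR g M D u) :
    ZF M (((Lu ℂ)⁻¹ : (MK ℂ)ˣ) : MK ℂ) g {0} ∈ ratU (Lu ℂ) D := by
  classical
  cases nonempty_fintype Ω
  set v : MK ℂ := (((Lu ℂ)⁻¹ : (MK ℂ)ˣ) : MK ℂ) with hvdef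
  have hLw : M.L * v = 1 := by rw [hL, Units.mul_inv]
  obtain ⟨hRa, hRb, hRc⟩ := hREC g d hd hg M v hLw
  have hadd : Add M v g := hRb
  set W : Set (Pt ℂ σ) := {x | x ≠ 0 ∧ ∀ j, aeval x (g j) = 0} with hW
  have hne0 : Constr {x : Pt ℂ σ | x ≠ 0} := by
    have := (Shift.constr_z (K := ℂ) (σ := σ)).compl
    exact this
  have hWc : Constr W := Constr.and hne0 (Constr.all fun j => Constr.eqz (IsPF.poly (g j)))
  have hCc : Constr {x : Pt ℂ σ | ∃ ω ∈ (Finset.univ : Finset Ω), x ∈ C ω} :=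
    Constr.bexFinset Finset.univ fun ω _ => hC ω
  -- the points outside the centers
  set W2 : Set (Pt ℂ σ) := {x | x ∈ W ∧ ¬ ∃ ω ∈ (Finset.univ : Finset Ω), x ∈ C ω} with hW2
  have hdata : ∀ u : σ → ℂ, ∃ H : MvPolynomial σ ℂ,
      (fun i => algebraMap ℂ (AlgebraicClosure ℂ) (u i)) ∈ W2 →
      eval u H ≠ 0 ∧ ∀ B : Set (Pt ℂ σ), Constr B → (∀ x ∈ B, x ≠ 0) →
        (∀ x ∈ B, ∀ j, aeval x (g j) = 0) → (∀ x ∈ B, aeval x H ≠ 0) →
        ZF M v g B ∈ ratU (Lu ℂ) D := by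
    intro u
    by_cases hu : (fun i => algebraMap ℂ (AlgebraicClosure ℂ) (u i)) ∈ W2
    · have hu0 : u ≠ 0 := by
        intro h5
        apply hu.1.1
        rw [h5]
        funext i
        simp
      have hug : ∀ j, eval u (g j) = 0 := by
        intro j
        have h5 := hu.1.2 j
        rw [aevalA] at h5
        exact injA (by rw [h5, map_zero])
      rcases hcov u hu0 hug with ⟨ω, hω⟩ | ⟨H, hH⟩
      · exact absurd ⟨ω, Finset.mem_univ ω, hω⟩ hu.2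
      · exact ⟨H, fun _ => hH⟩
    · exact ⟨0, fun h => absurd h hu⟩
  choose H hH using hdata
  obtain ⟨T, hTZ, hT⟩ := Small.cov
    {u : σ → ℂ | (fun i => algebraMap ℂ (AlgebraicClosure ℂ) (u i)) ∈ W2} H
    fun u hu => (hH u hu).1
  have hZW2 : ZF M v g W2 ∈ ratU (Lu ℂ) D := by
    refine cover g hadd D W (fun u : σ → ℂ => {x : Pt ℂ σ | aeval x (H u) ≠ 0}) T
      (fun u _ => Constr.ne (IsPF.poly (H u)) IsPF.zero) (fun u hu B hB hBc hBW => ?_) W2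
      (Constr.and hWc (Constr.not hCc)) (fun x hx => hx.1) ?_
    · exact (hH u (hTZ hu)).2 B hBc (fun x hx => (hBW hx).1) (fun x hx => (hBW hx).2) hB
    · intro x hx
      obtain ⟨w, hw⟩ := exists_pt x
      obtain ⟨u, hu, hu'⟩ := hT w (by
        change (fun i => algebraMap ℂ (AlgebraicClosure ℂ) (w i)) ∈ W2
        rw [hw]
        exact hx)
      refine ⟨u, hu, fun h6 => hu' ?_⟩
      rw [← hw, aevalA] at h6
      exact injA (by rw [h6, map_zero])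
  have hZW1 : ZF M v g {x | x ∈ W ∧ ∃ ω ∈ (Finset.univ : Finset Ω), x ∈ C ω} ∈
      ratU (Lu ℂ) D := by
    refine cover g hadd D W C Finset.univ (fun ω _ => hC ω) (fun ω _ B hB hBc hBW => ?_) _
      (Constr.and hWc hCc) (fun x hx => hx.1) (fun x hx => hx.2)
    exact hCr ω B hB hBc (fun x hx => (hBW hx).1) (fun x hx => (hBW hx).2)
  have hZW : ZF M v g W ∈ ratU (Lu ℂ) D := by
    have h5 : W = {x | x ∈ W ∧ ∃ ω ∈ (Finset.univ : Finset Ω), x ∈ C ω} ∪ W2 := by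
      ext x
      simp only [hW2, Set.mem_ofPred_eq, Set.mem_union]
      generalize (∃ ω ∈ (Finset.univ : Finset Ω), x ∈ C ω) = p1
      generalize (x ∈ W) = p2
      tauto
    have hc1 : Constr {x | x ∈ W ∧ ∃ ω ∈ (Finset.univ : Finset Ω), x ∈ C ω} :=
      Constr.and hWc hCc
    have hc2 : Constr W2 := Constr.and hWc (Constr.not hCc)
    rw [h5, hadd _ _ hc1 hc2]
    · exact Subalgebra.add_mem _ hZW1 hZW2
    · rw [Set.disjoint_left]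
      rintro x ⟨-, h7⟩ ⟨-, h8⟩
      exact h8 h7
  -- all points outside the origin
  have hne : ZF M v g {x | x ≠ 0} ∈ ratU (Lu ℂ) D := by
    have h5 : {x : Pt ℂ σ | x ≠ 0} = W ∪ {x | x ≠ 0 ∧ ¬ ∀ j, aeval x (g j) = 0} := by
      ext x
      simp only [hW, Set.mem_ofPred_eq, Set.mem_union]
      tauto
    have hc2 : Constr {x : Pt ℂ σ | x ≠ 0 ∧ ¬ ∀ j, aeval x (g j) = 0} :=
      Constr.and hne0 (Constr.not (Constr.all fun j => Constr.eqz (IsPF.poly (g j))))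
    rw [h5, hadd _ _ hWc hc2]
    · refine Subalgebra.add_mem _ hZW ?_
      rw [hRc _ hc2 fun x hx => by
        have := hx.2
        push Not at this
        exact this]
      exact rat_C _ _
    · rw [Set.disjoint_left]
      rintro x ⟨-, h7⟩ ⟨-, h8⟩
      exact h8 h7
  have h5 : (Set.univ : Set (Pt ℂ σ)) = {0} ∪ {x | x ≠ 0} := by
    ext x
    simp only [Set.mem_univ, Set.mem_union, Set.mem_singleton_iff, Set.mem_ofPred_eq, true_iff]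
    exact em _
  have hdj : Disjoint ({0} : Set (Pt ℂ σ)) {x | x ≠ 0} := by
    rw [Set.disjoint_left]
    intro x hx hx'
    exact hx' hx
  rw [h5, hadd _ _ Shift.constr_z hne0 hdj] at hRa
  refine geo_solve (Lu ℂ) hd (D := D) (ν := Fintype.card σ) hD0 _
    (PowerSeries.C (v ^ Fintype.card σ) * PowerSeries.X ^ d * ZF M v g {x | x ≠ 0}) ?_ ?_
  · exact Subalgebra.mul_mem _ (Subalgebra.mul_mem _ (rat_C _ _)
      (Subalgebra.pow_mem _ (rat_X _) _)) hne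
  · conv_lhs => rw [hRa]
    rw [hvdef]
    ring

/-- from the series to the zeta function -/
theorem zeta_of (D : Set (ℤ × ℤ)) (M : Meas ℂ (MK ℂ))
    (hM : ∀ (ι : Type) [Fintype ι] (S : Set (Pt ℂ ι)), M.χ ι S = algebraMap (K0 ℂ) (MK ℂ) (cls ι S))
    (h : ZF M (((Lu ℂ)⁻¹ : (MK ℂ)ˣ) : MK ℂ) g {0} ∈ ratU (Lu ℂ) D) : zetaJ g ∈ ratRing ℂ D := by
  refine Subalgebra.mul_mem _ (rat_C (Lu ℂ) _) (drop_mem ?_)
  have h9 : (PowerSeries.mk fun N => algebraMap (K0 ℂ) (MK ℂ) (cls (σ × _root_.Fin (N + 1))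
      (JetF g {0} N)) * (((Lu ℂ) ^ (-((Fintype.card σ * N : ℕ) : ℤ)) : (MK ℂ)ˣ) : MK ℂ)) =
      ZF M (((Lu ℂ)⁻¹ : (MK ℂ)ˣ) : MK ℂ) g {0} := by
    unfold ZF
    congr 1
    funext N
    rw [hM, inv_pow_eq]
  rw [h9]
  exact h

/-- from the zeta function to the series -/
theorem of_zeta (D : Set (ℤ × ℤ)) (M : Meas ℂ (MK ℂ))
    (hM : ∀ (ι : Type) [Fintype ι] (S : Set (Pt ℂ ι)), M.χ ι S = algebraMap (K0 ℂ) (MK ℂ) (cls ι S))
    (h : zetaJ g ∈ ratRing ℂ D) :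
    ZF M (((Lu ℂ)⁻¹ : (MK ℂ)ˣ) : MK ℂ) g {0} ∈ ratU (Lu ℂ) D := by
  have h1 : ZF M (((Lu ℂ)⁻¹ : (MK ℂ)ˣ) : MK ℂ) g {0} =
      PowerSeries.C (((Lu ℂ) ^ (Fintype.card σ : ℤ) : (MK ℂ)ˣ) : MK ℂ) * zetaJ g +
        PowerSeries.C (PowerSeries.coeff 0
          (ZF M (((Lu ℂ)⁻¹ : (MK ℂ)ˣ) : MK ℂ) g {0})) := by
    have h2 : PowerSeries.C (((Lu ℂ) ^ (Fintype.card σ : ℤ) : (MK ℂ)ˣ) : MK ℂ) *
        PowerSeries.C (((Lu ℂ) ^ (-(Fintype.card σ : ℤ)) : (MK ℂ)ˣ) : MK ℂ) = 1 := by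
      rw [← map_mul, ← Units.val_mul, ← zpow_add, add_neg_cancel, zpow_zero, Units.val_one,
        map_one]
    unfold zetaJ
    rw [← mul_assoc, h2, one_mul]
    ext N
    rw [map_add, PowerSeries.coeff_mk, PowerSeries.coeff_C]
    by_cases hN : N = 0
    · rw [if_pos hN, if_pos hN, hN, zero_add]
    · rw [if_neg hN, if_neg hN, add_zero]
      unfold ZF
      rw [PowerSeries.coeff_mk, hM, inv_pow_eq]
  rw [h1]
  exact Subalgebra.add_mem _ (Subalgebra.mul_mem _ (rat_C _ _) h) (rat_C _ _)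

end Pool.Agent.D0H67.CX.Core
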