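import Pool.Agent.D0H67.CX.Zeta2
import Pool.Agent.D0H67.CX.Core
import Pool.Agent.D0H67.CX.Stm3

/-! # The zeta function of a family of cones: covers -/

set_option autoImplicit false
set_option linter.unusedSectionVars false
set_option linter.unusedVariables false

namespace Pool.Agent.D0H67.CX.Fam

open MvPolynomial Pool.Agent.W428.MOT Pool.Agent.TH192.MT Pool.Agent.TH192.DT
  Pool.Agent.D0H67.SUB Pool.Agent.D0H67.PM Pool.Agent.D0H67.CX.Loc

variable {σ J : Type} [Fintype σ] [Finite J] (g : J → MvPolynomial σ ℂ)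

/-- the points `(x, 0)`, `x ≠ 0`, where all `g j` vanish -/
def WW (w : σ → ℕ) : Set (Pt ℂ σ) :=
  {x | (x ≠ 0 ∧ ∀ i, w i = 0 → x i = 0) ∧ ∀ j, aeval x (g j) = 0}

/-- the complex points `(x, 0)`, `x ≠ 0`, where all `g j` vanish -/
def QQ (w : σ → ℕ) (u : σ → ℂ) : Prop :=
  (u ≠ 0 ∧ ∀ i, w i = 0 → u i = 0) ∧ ∀ j, eval u (g j) = 0

theorem mem_WW (w : σ → ℕ) (u : σ → ℂ) :
    (fun i => algebraMap ℂ (AlgebraicClosure ℂ) (u i)) ∈ WW g w ↔ QQ g w u := by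
  have h0 : ((fun i => algebraMap ℂ (AlgebraicClosure ℂ) (u i)) = (0 : Pt ℂ σ)) ↔ u = 0 := by
    constructor
    · intro h
      funext i
      exact injA (by rw [show algebraMap ℂ (AlgebraicClosure ℂ) (u i) = 0 from congrFun h i]; simp)
    · rintro rfl
      funext i
      simp
  unfold WW QQ
  rw [Set.mem_ofPred_eq]
  refine and_congr (and_congr (not_congr h0) (forall_congr' fun i => forall_congr' fun _ => ?_))
    (forall_congr' fun j => ?_)
  · change algebraMap ℂ (AlgebraicClosure ℂ) (u i) = 0 ↔ u i = 0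
    constructor
    · intro h
      exact injA (by rw [h, map_zero])
    · intro h
      rw [h, map_zero]
  · rw [aevalA]
    constructor
    · intro h
      exact injA (by rw [h, map_zero])
    · intro h
      rw [h, map_zero]

theorem constr_par (w : σ → ℕ) : Constr {x : Pt ℂ σ | ∀ i, w i = 0 → x i = 0} := by
  refine Constr.all fun i => ?_
  by_cases h : w i = 0
  · have h1 : {x : Pt ℂ σ | w i = 0 → x i = 0} = {x | x i = 0} := by
      ext x
      exact ⟨fun h2 => h2 h, fun h2 _ => h2⟩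
    rw [h1]
    exact Constr.eqz (IsPF.coord i)
  · have h1 : {x : Pt ℂ σ | w i = 0 → x i = 0} = Set.univ := by
      ext x
      exact ⟨fun _ => trivial, fun _ h2 => absurd h2 h⟩
    rw [h1]
    exact Constr.univ

theorem constr_WW (w : σ → ℕ) : Constr (WW g w) := by
  have hne0 : Constr {x : Pt ℂ σ | x ≠ 0} := by
    have := (Shift.constr_z (K := ℂ) (σ := σ)).compl
    exact this
  exact Constr.and (Constr.and hne0 (constr_par w))
    (Constr.all fun j => Constr.eqz (IsPF.poly (g j)))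

theorem core (hADD : S_ADD2) (hREC : S_REC2) (w : σ → ℕ) (hw : ∀ i, w i ≤ 1) (d : ℕ) (hd : 0 < d)
    (hg : ∀ j, IsWeightedHomogeneous w (g j) d)
    (D : Set (ℤ × ℤ)) (hD0 : (-((∑ i, w i : ℕ) : ℤ), (d : ℤ)) ∈ D) (M : Meas ℂ (MK ℂ))
    (hL : M.L = ((Lu ℂ : (MK ℂ)ˣ) : MK ℂ)) {Ω : Type} [Finite Ω] (C : Ω → Set (Pt ℂ σ))
    (hC : ∀ ω, Constr (C ω))
    (hCr : ∀ ω, ∀ B ⊆ C ω, Constr B → B ⊆ WW g w →
      ZF M (((Lu ℂ)⁻¹ : (MK ℂ)ˣ) : MK ℂ) g B ∈ ratU (Lu ℂ) D)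
    (hcov : ∀ u : σ → ℂ, QQ g w u →
      (∃ ω, (fun i => algebraMap ℂ (AlgebraicClosure ℂ) (u i)) ∈ C ω) ∨ LR g M D (WW g w) u) :
    ZF M (((Lu ℂ)⁻¹ : (MK ℂ)ˣ) : MK ℂ) g {0} ∈ ratU (Lu ℂ) D := by
  classical
  cases nonempty_fintype Ω
  set v : MK ℂ := (((Lu ℂ)⁻¹ : (MK ℂ)ˣ) : MK ℂ) with hvdef
  have hLw : M.L * v = 1 := by rw [hL, Units.mul_inv]
  have hRa := hREC g w d hw hd hg M v hLw
  obtain ⟨hRb, hRc⟩ := hADD g M v hLw
  have hadd : Add M v g := hRb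
  have hWc : Constr (WW g w) := constr_WW g w
  have hCc : Constr {x : Pt ℂ σ | ∃ ω ∈ (Finset.univ : Finset Ω), x ∈ C ω} :=
    Constr.bexFinset Finset.univ fun ω _ => hC ω
  -- the points outside the centers
  set W2 : Set (Pt ℂ σ) := {x | x ∈ WW g w ∧ ¬ ∃ ω ∈ (Finset.univ : Finset Ω), x ∈ C ω} with hW2
  have hdata : ∀ u : σ → ℂ, ∃ H : MvPolynomial σ ℂ,
      (fun i => algebraMap ℂ (AlgebraicClosure ℂ) (u i)) ∈ W2 →
      eval u H ≠ 0 ∧ ∀ B ⊆ WW g w, Constr B → (∀ x ∈ B, aeval x H ≠ 0) →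
        ZF M v g B ∈ ratU (Lu ℂ) D := by
    intro u
    by_cases hu : (fun i => algebraMap ℂ (AlgebraicClosure ℂ) (u i)) ∈ W2
    · rcases hcov u ((mem_WW g w u).1 hu.1) with ⟨ω, hω⟩ | ⟨H, hH⟩
      · exact absurd ⟨ω, Finset.mem_univ ω, hω⟩ hu.2
      · exact ⟨H, fun _ => hH⟩
    · exact ⟨0, fun h => absurd h hu⟩
  choose H hH using hdata
  obtain ⟨T, hTZ, hT⟩ := Small.cov
    {u : σ → ℂ | (fun i => algebraMap ℂ (AlgebraicClosure ℂ) (u i)) ∈ W2} H
    fun u hu => (hH u hu).1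
  have hZW2 : ZF M v g W2 ∈ ratU (Lu ℂ) D := by
    refine Core.cover g hadd D (WW g w) (fun u : σ → ℂ => {x : Pt ℂ σ | aeval x (H u) ≠ 0}) T
      (fun u _ => Constr.ne (IsPF.poly (H u)) IsPF.zero) (fun u hu B hB hBc hBW => ?_) W2
      (Constr.and hWc (Constr.not hCc)) (fun x hx => hx.1) ?_
    · exact (hH u (hTZ hu)).2 B hBW hBc hB
    · intro x hx
      obtain ⟨z, hz⟩ := exists_pt x
      obtain ⟨u, hu, hu'⟩ := hT z (by
        change (fun i => algebraMap ℂ (AlgebraicClosure ℂ) (z i)) ∈ W2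
        rw [hz]
        exact hx)
      refine ⟨u, hu, fun h6 => hu' ?_⟩
      rw [← hz, aevalA] at h6
      exact injA (by rw [h6, map_zero])
  have hZW1 : ZF M v g {x | x ∈ WW g w ∧ ∃ ω ∈ (Finset.univ : Finset Ω), x ∈ C ω} ∈
      ratU (Lu ℂ) D := by
    refine Core.cover g hadd D (WW g w) C Finset.univ (fun ω _ => hC ω)
      (fun ω _ B hB hBc hBW => ?_) _ (Constr.and hWc hCc) (fun x hx => hx.1) (fun x hx => hx.2)
    exact hCr ω B hB hBc hBW
  have hZW : ZF M v g (WW g w) ∈ ratU (Lu ℂ) D := by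
    have h5 : WW g w = {x | x ∈ WW g w ∧ ∃ ω ∈ (Finset.univ : Finset Ω), x ∈ C ω} ∪ W2 := by
      ext x
      simp only [hW2, Set.mem_ofPred_eq, Set.mem_union]
      generalize (∃ ω ∈ (Finset.univ : Finset Ω), x ∈ C ω) = p1
      generalize (x ∈ WW g w) = p2
      tauto
    have hc1 : Constr {x | x ∈ WW g w ∧ ∃ ω ∈ (Finset.univ : Finset Ω), x ∈ C ω} :=
      Constr.and hWc hCc
    have hc2 : Constr W2 := Constr.and hWc (Constr.not hCc)
    rw [h5, hadd _ _ hc1 hc2]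
    · exact Subalgebra.add_mem _ hZW1 hZW2
    · rw [Set.disjoint_left]
      rintro x ⟨-, h7⟩ ⟨-, h8⟩
      exact h8 h7
  -- all points `(x, 0)`, `x ≠ 0`
  have hne0 : Constr {x : Pt ℂ σ | x ≠ 0} := by
    have := (Shift.constr_z (K := ℂ) (σ := σ)).compl
    exact this
  have hne1 : Constr {x : Pt ℂ σ | x ≠ 0 ∧ ∀ i, w i = 0 → x i = 0} :=
    Constr.and hne0 (constr_par w)
  have hne : ZF M v g {x | x ≠ 0 ∧ ∀ i, w i = 0 → x i = 0} ∈ ratU (Lu ℂ) D := by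
    have h5 : {x : Pt ℂ σ | x ≠ 0 ∧ ∀ i, w i = 0 → x i = 0} =
        WW g w ∪ {x | (x ≠ 0 ∧ ∀ i, w i = 0 → x i = 0) ∧ ¬ ∀ j, aeval x (g j) = 0} := by
      ext x
      simp only [WW, Set.mem_ofPred_eq, Set.mem_union]
      generalize (x ≠ 0 ∧ ∀ i, w i = 0 → x i = 0) = p1
      generalize (∀ j, aeval x (g j) = 0) = p2
      tauto
    have hc2 : Constr {x : Pt ℂ σ | (x ≠ 0 ∧ ∀ i, w i = 0 → x i = 0) ∧
        ¬ ∀ j, aeval x (g j) = 0} :=
      Constr.and hne1 (Constr.not (Constr.all fun j => Constr.eqz (IsPF.poly (g j))))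
    rw [h5, hadd _ _ hWc hc2]
    · refine Subalgebra.add_mem _ hZW ?_
      rw [hRc _ hc2 fun x hx => by
        have := hx.2
        push Not at this
        exact this]
      exact rat_C _ _
    · rw [Set.disjoint_left]
      rintro x ⟨-, h7⟩ ⟨-, h8⟩
      exact h8 h7
  have h5 : {x : Pt ℂ σ | ∀ i, w i = 0 → x i = 0} =
      {0} ∪ {x | x ≠ 0 ∧ ∀ i, w i = 0 → x i = 0} := by
    ext x
    simp only [Set.mem_union, Set.mem_singleton_iff, Set.mem_ofPred_eq]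
    constructor
    · intro h
      by_cases hx : x = 0
      · exact Or.inl hx
      · exact Or.inr ⟨hx, h⟩
    · rintro (rfl | h)
      · exact fun i _ => rfl
      · exact h.2
  have hdj : Disjoint ({0} : Set (Pt ℂ σ)) {x | x ≠ 0 ∧ ∀ i, w i = 0 → x i = 0} := by
    rw [Set.disjoint_left]
    intro x hx hx'
    exact hx'.1 hx
  rw [h5, hadd _ _ Shift.constr_z hne1 hdj] at hRa
  refine geo_solve (Lu ℂ) hd (D := D) (ν := ∑ i, w i) hD0 _
    (PowerSeries.C (v ^ (∑ i, w i)) * PowerSeries.X ^ d *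
      ZF M v g {x | x ≠ 0 ∧ ∀ i, w i = 0 → x i = 0}) ?_ ?_
  · exact Subalgebra.mul_mem _ (Subalgebra.mul_mem _ (rat_C _ _)
      (Subalgebra.pow_mem _ (rat_X _) _)) hne
  · conv_lhs => rw [hRa]
    rw [hvdef]
    ring

end Pool.Agent.D0H67.CX.Fam
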