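import Pool.Agent.D0H67.CX.Stm4

/-! # Products in disjoint variables, powers: statements of the modules -/

set_option autoImplicit false
set_option linter.unusedSectionVars false
set_option linter.unusedVariables false

namespace Pool.Agent.D0H67.CX

open MvPolynomial Pool.Agent.W428.MOT Pool.Agent.TH192.MT Pool.Agent.TH192.DT
  Pool.Agent.D0H67.SUB Pool.Agent.D0H67.PM Pool.Agent.D0H67.SUB.Trn

/-- the products `g j (x) g' l (y)` -/
noncomputable def extG {K : Type} [Field K] {σ τ J J' : Type} (g : J → MvPolynomial σ K)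
    (g' : J' → MvPolynomial τ K) (q : J × J') : MvPolynomial (σ ⊕ τ) K :=
  rename Sum.inl (g q.1) * rename Sum.inr (g' q.2)

/-- (PRODZ) the orders are added: `JetF (g g') {0} N` is the disjoint union over `a + b = N` of the
products of `{ord g (z) = a}` and `{ord g' (z') = b}`; `Rec.OS`, `Rec.chi_level` in
`Pool.Agent.D0H87.CX.Rec` give the `N`-jets with `ord = a`. -/
def S_PRODZ : Prop :=
  ∀ {K : Type} [Field K] {σ τ J J' : Type} [Fintype σ] [Fintype τ] [Finite J] [Finite J']
    (g : J → MvPolynomial σ K) (g' : J' → MvPolynomial τ K)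
    {R : Type} [CommRing R] (M : Meas K R) (v : R), M.L * v = 1 →
    ZF M v (extG g g') {0} = ZF M v g {0} * ZF M v g' {0}

/-- the products of `m` of the `g j` -/
noncomputable def powG {K : Type} [Field K] {σ J : Type} (g : J → MvPolynomial σ K) (m : ℕ)
    (q : Fin m → J) : MvPolynomial σ K := ∏ k, g (q k)

/-- the series `F(T ^ m)` -/
noncomputable def expandS {R : Type} [CommRing R] (m : ℕ) (F : PowerSeries R) : PowerSeries R :=
  PowerSeries.mk fun N => if m ∣ N then PowerSeries.coeff (N / m) F else 0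

/-- (POWZ) the order of the `m`-th power is `m` times the order -/
def S_POWZ : Prop :=
  ∀ {K : Type} [Field K] {σ J : Type} [Fintype σ] [Finite J] (g : J → MvPolynomial σ K) (m : ℕ),
    0 < m → ∀ {R : Type} [CommRing R] (M : Meas K R) (v : R), M.L * v = 1 →
    ZF M v (powG g m) {0} = expandS m (ZF M v g {0})

/-- (POWR) `T ↦ T ^ m` maps the ring of `D` to the ring of the `(a, m b)`, `(a, b) ∈ D` (`expandS` is a
ring homomorphism; `geoU u a b ↦ geoU u a (m b)`, `0 < b`) -/
def S_POWR : Prop :=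
  ∀ {R : Type} [CommRing R] (u : Rˣ) (D : Set (ℤ × ℤ)), (∀ q ∈ D, 0 < q.2) → ∀ m : ℕ, 0 < m →
    ∀ F ∈ ratU u D, expandS m F ∈ ratU u {q : ℤ × ℤ | ∃ p ∈ D, q = (p.1, (m : ℤ) * p.2)}

/-- (POWM) the monodromy zeta functions of the power: `JetE (powG g m) p (∏ y) N` is the set of the
`N`-jets over `JetE g p y (N / m)` if `m ∣ N`, and empty otherwise (if the leading vector `y'` of
`g(z)` satisfies `∏ y'_{q k} = c ∏ y_{q k}` for all `q` then `y'` is a multiple of `y`). -/
def S_POWM : Prop :=
  ∀ {σ J : Type} [Fintype σ] [Finite J] (g : J → MvPolynomial σ ℂ) (m : ℕ), 0 < m →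
    ∀ (p : σ → ℂ) (y : J → ℂ) (b : ℕ →₀ ℤ), MonZeta g p y b →
      MonZeta (powG g m) p (fun q => ∏ k, y (q k)) (Finsupp.mapDomain (fun M => m * M) b)

end Pool.Agent.D0H67.CX
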