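import Pool.Agent.D0H67.CX.Zeta2
import Pool.Agent.D0H67.CX.Core
import Pool.Agent.D0H67.CX.Stm5
import Pool.Agent.D0H67.CX.Core2

/-! # The zeta function of a family of quasi-homogeneous cones: covers -/

set_option autoImplicit false
set_option linter.unusedSectionVars false
set_option linter.unusedVariables false

namespace Pool.Agent.D0H67.CX.Qh

open MvPolynomial Pool.Agent.W428.MOT Pool.Agent.TH192.MT Pool.Agent.TH192.DT
  Pool.Agent.D0H67.SUB Pool.Agent.D0H67.PM Pool.Agent.D0H67.CX.Loc Pool.Agent.D0H67.CX.Fam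

variable {σ J : Type} [Fintype σ] [Finite J] (g : J → MvPolynomial σ ℂ)

theorem core (hADD : S_ADD2) (hREC : S_REC3) (w : σ → ℕ) (d : ℕ) (hd : 0 < d)
    (hg : ∀ j, IsWeightedHomogeneous w (g j) d)
    (hfree : ∀ u : σ → ℂ, QQ g w u → ∀ k : ℕ, (∀ i, u i ≠ 0 → k ∣ w i) → k = 1)
    (D : Set (ℤ × ℤ)) (hD0 : (-((∑ i, w i : ℕ) : ℤ), (d : ℤ)) ∈ D) (M : Meas ℂ (MK ℂ))
    (hL : M.L = ((Lu ℂ : (MK ℂ)ˣ) : MK ℂ)) {Ω : Type} [Finite Ω] (C : Ω → Set (Pt ℂ σ))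
    (hC : ∀ ω, Constr (C ω))
    (hCr : ∀ ω, ∀ B ⊆ C ω, Constr B → B ⊆ WW g w →
      ZF M (((Lu ℂ)⁻¹ : (MK ℂ)ˣ) : MK ℂ) g B ∈ ratU (Lu ℂ) D)
    (hcov : ∀ u : σ → ℂ, QQ g w u →
      (∃ ω, (fun i => algebraMap ℂ (AlgebraicClosure ℂ) (u i)) ∈ C ω) ∨ LR g M D (WW g w) u) :
    ZF M (((Lu ℂ)⁻¹ : (MK ℂ)ˣ) : MK ℂ) g {0} ∈ ratU (Lu ℂ) D := by
  classical
  cases nonempty_fintype Ω
  set v : MK ℂ := (((Lu ℂ)⁻¹ : (MK ℂ)ˣ) : MK ℂ) with hvdef
  have hLw : M.L * v = 1 := by rw [hL, Units.mul_inv]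
  obtain ⟨a, hRa⟩ := hREC g w d hd hg (by
    intro x hx0 hxw hxg k hk
    obtain ⟨z, hz⟩ := exists_pt x
    have hzQ : QQ g w z := (mem_WW g w z).1 (by rw [hz]; exact ⟨⟨hx0, hxw⟩, hxg⟩)
    refine hfree z hzQ k fun i hi => hk i ?_
    rw [← hz]
    intro h5
    exact hi (injA ((show algebraMap ℂ (AlgebraicClosure ℂ) (z i) = 0 from h5).trans
      (map_zero _).symm))) M v hLw
  obtain ⟨hRb, hRc⟩ := hADD g M v hLw
  have hadd : Add M v g := hRb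
  have hWc : Constr (WW g w) := constr_WW g w
  have hCc : Constr {x : Pt ℂ σ | ∃ ω ∈ (Finset.univ : Finset Ω), x ∈ C ω} :=
    Constr.bexFinset Finset.univ fun ω _ => hC ω
  -- the points outside the centers
  set W2 : Set (Pt ℂ σ) := {x | x ∈ WW g w ∧ ¬ ∃ ω ∈ (Finset.univ : Finset Ω), x ∈ C ω} with hW2
  have hdata : ∀ u : σ → ℂ, ∃ H : MvPolynomial σ ℂ,
      (fun i => algebraMap ℂ (AlgebraicClosure ℂ) (u i)) ∈ W2 →
      eval u H ≠ 0 ∧ ∀ B ⊆ WW g w, Constr B → (∀ x ∈ B, aeval x H ≠ 0) →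
        ZF M v g B ∈ ratU (Lu ℂ) D := by
    intro u
    by_cases hu : (fun i => algebraMap ℂ (AlgebraicClosure ℂ) (u i)) ∈ W2
    · rcases hcov u ((mem_WW g w u).1 hu.1) with ⟨ω, hω⟩ | ⟨H, hH⟩
      · exact absurd ⟨ω, Finset.mem_univ ω, hω⟩ hu.2
      · exact ⟨H, fun _ => hH⟩
    · exact ⟨0, fun h => absurd h hu⟩
  choose H hH using hdata
  obtain ⟨T, hTZ, hT⟩ := Small.cov
    {u : σ → ℂ | (fun i => algebraMap ℂ (AlgebraicClosure ℂ) (u i)) ∈ W2} H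
    fun u hu => (hH u hu).1
  have hZW2 : ZF M v g W2 ∈ ratU (Lu ℂ) D := by
    refine Core.cover g hadd D (WW g w) (fun u : σ → ℂ => {x : Pt ℂ σ | aeval x (H u) ≠ 0}) T
      (fun u _ => Constr.ne (IsPF.poly (H u)) IsPF.zero) (fun u hu B hB hBc hBW => ?_) W2
      (Constr.and hWc (Constr.not hCc)) (fun x hx => hx.1) ?_
    · exact (hH u (hTZ hu)).2 B hBW hBc hB
    · intro x hx
      obtain ⟨z, hz⟩ := exists_pt x
      obtain ⟨u, hu, hu'⟩ := hT z (by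
        change (fun i => algebraMap ℂ (AlgebraicClosure ℂ) (z i)) ∈ W2
        rw [hz]
        exact hx)
      refine ⟨u, hu, fun h6 => hu' ?_⟩
      rw [← hz, aevalA] at h6
      exact injA (by rw [h6, map_zero])
  have hZW1 : ZF M v g {x | x ∈ WW g w ∧ ∃ ω ∈ (Finset.univ : Finset Ω), x ∈ C ω} ∈
      ratU (Lu ℂ) D := by
    refine Core.cover g hadd D (WW g w) C Finset.univ (fun ω _ => hC ω)
      (fun ω _ B hB hBc hBW => ?_) _ (Constr.and hWc hCc) (fun x hx => hx.1) (fun x hx => hx.2)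
    exact hCr ω B hB hBc hBW
  have hZW : ZF M v g (WW g w) ∈ ratU (Lu ℂ) D := by
    have h5 : WW g w = {x | x ∈ WW g w ∧ ∃ ω ∈ (Finset.univ : Finset Ω), x ∈ C ω} ∪ W2 := by
      ext x
      simp only [hW2, Set.mem_ofPred_eq, Set.mem_union]
      generalize (∃ ω ∈ (Finset.univ : Finset Ω), x ∈ C ω) = p1
      generalize (x ∈ WW g w) = p2
      tauto
    have hc1 : Constr {x | x ∈ WW g w ∧ ∃ ω ∈ (Finset.univ : Finset Ω), x ∈ C ω} :=
      Constr.and hWc hCc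
    have hc2 : Constr W2 := Constr.and hWc (Constr.not hCc)
    rw [h5, hadd _ _ hc1 hc2]
    · exact Subalgebra.add_mem _ hZW1 hZW2
    · rw [Set.disjoint_left]
      rintro x ⟨-, h7⟩ ⟨-, h8⟩
      exact h8 h7
  -- all points `(x, 0)`, `x ≠ 0`
  have hne0 : Constr {x : Pt ℂ σ | x ≠ 0} := by
    have := (Shift.constr_z (K := ℂ) (σ := σ)).compl
    exact this
  have hne1 : Constr {x : Pt ℂ σ | x ≠ 0 ∧ ∀ i, w i = 0 → x i = 0} :=
    Constr.and hne0 (constr_par w)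
  have hne : ZF M v g {x | x ≠ 0 ∧ ∀ i, w i = 0 → x i = 0} ∈ ratU (Lu ℂ) D := by
    have h5 : {x : Pt ℂ σ | x ≠ 0 ∧ ∀ i, w i = 0 → x i = 0} =
        WW g w ∪ {x | (x ≠ 0 ∧ ∀ i, w i = 0 → x i = 0) ∧ ¬ ∀ j, aeval x (g j) = 0} := by
      ext x
      simp only [WW, Set.mem_ofPred_eq, Set.mem_union]
      generalize (x ≠ 0 ∧ ∀ i, w i = 0 → x i = 0) = p1
      generalize (∀ j, aeval x (g j) = 0) = p2
      tauto
    have hc2 : Constr {x : Pt ℂ σ | (x ≠ 0 ∧ ∀ i, w i = 0 → x i = 0) ∧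
        ¬ ∀ j, aeval x (g j) = 0} :=
      Constr.and hne1 (Constr.not (Constr.all fun j => Constr.eqz (IsPF.poly (g j))))
    rw [h5, hadd _ _ hWc hc2]
    · refine Subalgebra.add_mem _ hZW ?_
      rw [hRc _ hc2 fun x hx => by
        have := hx.2
        push Not at this
        exact this]
      exact rat_C _ _
    · rw [Set.disjoint_left]
      rintro x ⟨-, h7⟩ ⟨-, h8⟩
      exact h8 h7
  have h5 : {x : Pt ℂ σ | ∀ i, w i = 0 → x i = 0} =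
      {0} ∪ {x | x ≠ 0 ∧ ∀ i, w i = 0 → x i = 0} := by
    ext x
    simp only [Set.mem_union, Set.mem_singleton_iff, Set.mem_ofPred_eq]
    constructor
    · intro h
      by_cases hx : x = 0
      · exact Or.inl hx
      · exact Or.inr ⟨hx, h⟩
    · rintro (rfl | h)
      · exact fun i _ => rfl
      · exact h.2
  have hdj : Disjoint ({0} : Set (Pt ℂ σ)) {x | x ≠ 0 ∧ ∀ i, w i = 0 → x i = 0} := by
    rw [Set.disjoint_left]
    intro x hx hx'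
    exact hx'.1 hx
  rw [h5, hadd _ _ Shift.constr_z hne1 hdj] at hRa
  refine geo_solve (Lu ℂ) hd (D := D) (ν := ∑ i, w i) hD0 _
    (∑ k ∈ Finset.range d, PowerSeries.C (a k) * PowerSeries.X ^ k +
      PowerSeries.C (v ^ (∑ i, w i)) * PowerSeries.X ^ d *
      ZF M v g {x | x ≠ 0 ∧ ∀ i, w i = 0 → x i = 0}) ?_ ?_
  · refine Subalgebra.add_mem _ (Subalgebra.sum_mem _ fun k _ =>
      Subalgebra.mul_mem _ (rat_C _ _) (Subalgebra.pow_mem _ (rat_X _) _)) ?_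
    exact Subalgebra.mul_mem _ (Subalgebra.mul_mem _ (rat_C _ _)
      (Subalgebra.pow_mem _ (rat_X _) _)) hne
  · conv_lhs => rw [hRa]
    rw [hvdef]
    ring

end Pool.Agent.D0H67.CX.Qh
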