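import Pool.Agent.D0H67.CX.Zeta

/-! # Multiple smooth schemes -/

set_option autoImplicit false
set_option linter.unusedSectionVars false
set_option linter.unusedVariables false

namespace Pool.Agent.D0H67.CX

open MvPolynomial Pool.Agent.W428.MOT Pool.Agent.TH192.MT Pool.Agent.TH192.DT
  Pool.Agent.D0H67.SUB Pool.Agent.D0H67.PM

/-- At the point `u` the ideal `(g j)` is the `m`-th power of the ideal of a smooth subvariety of
codimension `c > 0` through `u`: there are polynomials `f i`, `i < c`, with `f i (u) = 0` and with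
linearly independent differentials at `u`, and a polynomial `h`, `h(u) ≠ 0`, such that `(g j)` and
`(f i) ^ m` are equal where `h ≠ 0`. -/
def SmoothAt {σ J : Type} (g : J → MvPolynomial σ ℂ) (u : σ → ℂ) (c m : ℕ) : Prop :=
  0 < c ∧ 0 < m ∧ ∃ (f : Fin c → MvPolynomial σ ℂ) (h : MvPolynomial σ ℂ),
    (∀ i, eval u (f i) = 0) ∧
    LinearIndependent ℂ (fun (i : Fin c) (k : σ) => eval u (pderiv k (f i))) ∧ eval u h ≠ 0 ∧
    (∀ j, h * g j ∈ Ideal.span (Set.range f) ^ m) ∧
    ∀ x ∈ Ideal.span (Set.range f) ^ m, h * x ∈ Ideal.span (Set.range g)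

namespace Smooth

/-- the coordinate functions -/
def cU (c : ℕ) : (s : Unit) → Fin c → Fin c → ℂ := fun _ j i => if i = j then 1 else 0

/-- the exponent -/
def PU (m : ℕ) : Finset (Unit → ℕ) := {fun _ => m}

theorem hPU (m : ℕ) : (PU m).Nonempty := Finset.singleton_nonempty _

theorem zeros_cU (c : ℕ) (s : Unit) : zeros (cU c s) = ⊥ := by
  ext x
  rw [Submodule.mem_bot]
  constructor
  · intro h
    funext j
    have := h j
    simpa [cU] using this
  · rintro rfl j
    simp

theorem fP_U (m : ℕ) (A : Finset Unit) : fP (PU m) (hPU m) A = A.card * m := by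
  unfold fP PU
  rw [Finset.inf'_singleton, Finset.sum_const, smul_eq_mul]

theorem form_cU (c : ℕ) (j : Fin c) : form (cU c () j) = X j := by
  unfold form cU
  rw [Finset.sum_eq_single j]
  · simp
  · intro b _ hb
    simp [hb]
  · intro h
    exact absurd (Finset.mem_univ j) h

theorem bind_gens {σ : Type} (c m : ℕ) (f : Fin c → MvPolynomial σ ℂ)
    (l : GI (PU m) fun _ : Unit => Fin c) :
    bind₁ f (gensP (PU m) (cU c) l) = ∏ k, f (l.2 () k) := by
  unfold gensP gens
  simp only [Finset.univ_unique, Finset.prod_singleton, map_prod]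
  refine Finset.prod_congr rfl fun k _ => ?_
  change bind₁ f (form (cU c () (l.2 () k))) = _
  rw [form_cU, bind₁_X_right]

theorem pow_le {R : Type} [CommRing R] (c : ℕ) (f : Fin c → R) (m : ℕ) :
    Ideal.span (Set.range f) ^ m ≤
      Ideal.span (Set.range fun l : Fin m → Fin c => ∏ k, f (l k)) := by
  induction m with
  | zero =>
    have h : (1 : R) ∈ Ideal.span (Set.range fun l : Fin 0 → Fin c => ∏ k, f (l k)) :=
      Ideal.subset_span ⟨Fin.elim0, by simp⟩
    rw [(Ideal.eq_top_iff_one _).2 h]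
    exact le_top
  | succ m ih =>
    rw [pow_succ]
    refine (Ideal.mul_mono_left ih).trans ?_
    rw [Ideal.span_mul_span', Ideal.span_le]
    rintro x ⟨a, ⟨l, rfl⟩, b, ⟨i, rfl⟩, rfl⟩
    refine Ideal.subset_span ⟨Fin.snoc l i, ?_⟩
    simp only
    rw [Fin.prod_univ_castSucc]
    simp only [Fin.snoc_castSucc, Fin.snoc_last]

theorem span_eq {σ : Type} (c m : ℕ) (f : Fin c → MvPolynomial σ ℂ) :
    Ideal.span (Set.range fun l : GI (PU m) (fun _ : Unit => Fin c) =>
      bind₁ f (gensP (PU m) (cU c) l)) = Ideal.span (Set.range f) ^ m := by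
  apply le_antisymm
  · rw [Ideal.span_le]
    rintro x ⟨⟨⟨e, he⟩, l⟩, rfl⟩
    have he' : e = fun _ => m := by
      unfold PU at he
      rwa [Finset.mem_singleton] at he
    subst he'
    change bind₁ f (gensP (PU m) (cU c) _) ∈ _
    rw [bind_gens]
    have h1 := Ideal.prod_mem_prod (s := Finset.univ) (I := fun _ : Fin m =>
      Ideal.span (Set.range f)) (x := fun k => f (l () k))
      fun k _ => Ideal.subset_span ⟨_, rfl⟩
    rw [Finset.prod_const, Finset.card_univ, Fintype.card_fin] at h1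
    exact h1
  · refine (pow_le c f m).trans ?_
    rw [Ideal.span_le]
    rintro x ⟨l, rfl⟩
    refine Ideal.subset_span ⟨⟨⟨fun _ => m, Finset.mem_singleton_self _⟩, fun _ => l⟩, ?_⟩
    change bind₁ f (gensP (PU m) (cU c) _) = _
    rw [bind_gens]

theorem greedy_U (m : ℕ) : Greedy (PU m) (hPU m) := by
  intro A _
  refine ⟨fun _ => m, Finset.mem_singleton_self _, fun k => ?_⟩
  rw [fP_U, Finset.sum_const, smul_eq_mul]

theorem exch_U (m : ℕ) (A : Finset Unit) : ExchOn (PU m) (hPU m) A :=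
  fun s _ t _ hst => absurd (Subsingleton.elim s t) hst

theorem univ_of_pos {m : ℕ} {A : Finset Unit} (h : 0 < fP (PU m) (hPU m) A) : A = Finset.univ := by
  rw [fP_U] at h
  have hA : A.card ≠ 0 := fun h0 => by rw [h0, zero_mul] at h; exact lt_irrefl _ h
  obtain ⟨s, hs⟩ := Finset.card_ne_zero.1 hA
  ext t
  simp only [Finset.mem_univ, iff_true]
  rwa [Subsingleton.elim t s]

theorem Gs_U (c : ℕ) : Gs (cU c) (Finset.univ : Finset Unit) = ⊥ := by
  unfold Gs
  rw [Finset.univ_unique, Finset.inf_singleton, zeros_cU]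

theorem pair_U (c m : ℕ) : ((-((Fintype.card (Fin c) -
      Module.finrank ℂ (Gs (cU c) (Finset.univ : Finset Unit)) : ℕ) : ℤ),
      (fP (PU m) (hPU m) Finset.univ : ℤ)) : ℤ × ℤ) = (-(c : ℤ), (m : ℤ)) := by
  rw [Gs_U, finrank_bot, fP_U, Fintype.card_fin, Nat.sub_zero, Finset.card_univ]
  simp

variable {σ J : Type} [Fintype σ]

theorem isChart (g : J → MvPolynomial σ ℂ) (u : σ → ℂ) (c m : ℕ) (hc : 0 < c)
    (f : Fin c → MvPolynomial σ ℂ) (h : MvPolynomial σ ℂ)
    (hli : LinearIndependent ℂ (fun (i : Fin c) (k : σ) => eval u (pderiv k (f i))))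
    (hh : eval u h ≠ 0) (h1 : ∀ j, h * g j ∈ Ideal.span (Set.range f) ^ m)
    (h2 : ∀ x ∈ Ideal.span (Set.range f) ^ m, h * x ∈ Ideal.span (Set.range g)) :
    IsChart g (cU c) (PU m) (hPU m) f h u := by
  refine ⟨fun s => ?_, greedy_U m, fun A _ _ => exch_U m A, hli, hh, fun j => ?_, fun l => ?_⟩
  · rw [zeros_cU]
    intro hbt
    have h3 : (fun _ => 1 : Fin c → ℂ) ∈ (⊥ : Submodule ℂ (Fin c → ℂ)) := by
      rw [hbt]; trivial
    rw [Submodule.mem_bot] at h3
    exact one_ne_zero (congrFun h3 ⟨0, hc⟩)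
  · rw [span_eq]
    exact h1 j
  · refine h2 _ ?_
    rw [← span_eq]
    exact Ideal.subset_span ⟨l, rfl⟩

theorem mem_pair (g : J → MvPolynomial σ ℂ) (u : σ → ℂ) (c m : ℕ) (hu : SmoothAt g u c m) :
    LocPair g u (-(c : ℤ), (m : ℤ)) := by
  obtain ⟨hc, hm, f, h, hf0, hli, hh, h1, h2⟩ := hu
  refine ⟨Fin c, Unit, inferInstance, inferInstance, fun _ => Fin c, fun _ => inferInstance,
    cU c, PU m, hPU m, f, h, isChart g u c m hc f h hli hh h1 h2, Finset.univ,
    fun s _ => Finset.mem_univ s, ?_, ?_, (pair_U c m).symm⟩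
  · rw [Gs_U, Submodule.mem_bot]
    funext i
    exact hf0 i
  · rw [fP_U, Finset.card_univ]
    simpa using hm

theorem pairs (g : J → MvPolynomial σ ℂ) (c m : ℕ) (hc : 0 < c) (hm : 0 < m)
    (f : Fin c → MvPolynomial σ ℂ) (h : MvPolynomial σ ℂ) (D : Set (ℤ × ℤ))
    (hD : ∀ w : σ → ℂ, w ≠ 0 → SmoothAt g w c m → (-(c : ℤ), (m : ℤ)) ∈ D) :
    Zeta.Pairs g (cU c) (PU m) (hPU m) f h D := by
  intro w hw _ hch A _ hyA hpos
  obtain rfl := univ_of_pos hpos
  rw [pair_U]
  obtain ⟨-, -, -, hli, hh, h1, h2⟩ := hch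
  refine hD w hw ⟨hc, hm, f, h, ?_, hli, hh, fun j => ?_, fun x hx => ?_⟩
  · rw [Gs_U, Submodule.mem_bot] at hyA
    exact fun i => congrFun hyA i
  · rw [← span_eq]
    exact h1 j
  · rw [← span_eq] at hx
    rw [← smul_eq_mul]
    refine Submodule.span_induction (p := fun x _ => h • x ∈ Ideal.span (Set.range g))
      ?_ ?_ ?_ ?_ hx
    · rintro _ ⟨l, rfl⟩
      exact h2 l
    · rw [smul_zero]
      exact Submodule.zero_mem _
    · intro a b _ _ ha hb
      rw [smul_add]
      exact Submodule.add_mem _ ha hb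
    · intro r a _ ha
      rw [smul_comm]
      exact Submodule.smul_mem _ _ ha

end Smooth

end Pool.Agent.D0H67.CX
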