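import Pool.Agent.D0H67.CX.Good
import Pool.Agent.D0H67.CX.Smooth

/-! # Multiple smooth schemes: the zeta function and Q1 -/

set_option autoImplicit false
set_option linter.unusedSectionVars false
set_option linter.unusedVariables false

namespace Pool.Agent.D0H67.CX.SmoothT

open MvPolynomial Pool.Agent.W428.MOT Pool.Agent.TH192.MT Pool.Agent.TH192.DT
  Pool.Agent.D0H67.SUB Pool.Agent.D0H67.PM Pool.Agent.D0H67.CX.Loc Pool.Agent.D0H67.CX.GermT

variable {σ J : Type} [Fintype σ] [Finite J] (g : J → MvPolynomial σ ℂ)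

theorem zeta (d : ℕ) (hd : 0 < d) (hg : ∀ j, (g j).IsHomogeneous d)
    (hu : ∀ u : σ → ℂ, u ≠ 0 → (∀ j, eval u (g j) = 0) → ∃ c m, SmoothAt g u c m) :
    zetaJ g ∈ ratRing ℂ {q : ℤ × ℤ | q = (-(Fintype.card σ : ℤ), (d : ℤ)) ∨
      ∃ u : σ → ℂ, u ≠ 0 ∧ ∃ c m : ℕ, SmoothAt g u c m ∧ q = (-(c : ℤ), (m : ℤ))} := by
  refine Zeta.main g Good.hORDT Good.hZST Good.hREC d hd hg _ (Or.inl rfl) ?_
  intro u hu0 hug
  obtain ⟨c, m, hc, hm, f, h, hf0, hli, hh, h1, h2⟩ := hu u hu0 hug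
  exact ⟨Fin c, Unit, inferInstance, inferInstance, fun _ => Fin c, fun _ => inferInstance,
    Smooth.cU c, Smooth.PU m, Smooth.hPU m, f, h, Smooth.isChart g u c m hc f h hli hh h1 h2,
    Smooth.pairs g c m hc hm f h _ fun w hw hs => Or.inr ⟨w, hw, c, m, hs, rfl⟩⟩

theorem locFold {u : σ → ℂ} {c m : ℕ} (h : SmoothAt g u c m) : LocFold g u := by
  obtain ⟨hc, hm, f, h, hf0, hli, hh, h1, h2⟩ := h
  exact ⟨Fin c, Unit, inferInstance, inferInstance, fun _ => Fin c, fun _ => inferInstance,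
    Smooth.cU c, Smooth.PU m, Smooth.hPU m, f, h, Smooth.isChart g u c m hc f h hli hh h1 h2⟩

/-- the germ of a cone over multiple smooth schemes belongs to the class -/
theorem germ (d : ℕ) (hd : 0 < d) (hg : ∀ j, (g j).IsHomogeneous d)
    (hu : ∀ u : σ → ℂ, u ≠ 0 → (∀ j, eval u (g j) = 0) → ∃ c m, SmoothAt g u c m)
    (hv : (Nonempty σ ∧ ∃ ι : σ → J, AlgebraicIndependent ℂ fun i => g (ι i)) ∨
      ∃ u : σ → ℂ, u ≠ 0 ∧ ∃ c m, SmoothAt g u c m ∧ d ∣ Fintype.card σ * m) :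
    ∃ D, Germ g D := by
  refine ⟨_, Germ.cone g d hd hg (Ω := Empty) (fun _ => Unit) (fun _ => Unit)
    (fun ω => ω.elim) (fun ω => ω.elim) (fun ω => ω.elim) (fun ω => ω.elim) (fun ω => ω.elim)
    (fun ω => ω.elim) (fun u hu0 hug => ?_) ?_⟩
  · obtain ⟨c, m, h⟩ := hu u hu0 hug
    exact Or.inr (locFold g h)
  · rcases hv with hv | ⟨u, hu0, c, m, h, hdv⟩
    · exact Or.inl hv
    · refine Or.inr ⟨u, hu0, _, Smooth.mem_pair g u c m h, ?_⟩
      change (d : ℤ) ∣ (Fintype.card σ : ℤ) * (m : ℤ)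
      exact_mod_cast hdv

end Pool.Agent.D0H67.CX.SmoothT
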