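import Pool.Agent.D0H67.CX.Good3
import Pool.Agent.D0H67.CX.Smooth
import Pool.Agent.D0H67.CX.SmoothT

/-! # Examples of germs of the class -/

set_option autoImplicit false
set_option linter.unusedSectionVars false
set_option linter.unusedVariables false

namespace Pool.Agent.D0H67.CX.Qh

open MvPolynomial Pool.Agent.W428.MOT Pool.Agent.TH192.MT Pool.Agent.TH192.DT
  Pool.Agent.D0H67.SUB Pool.Agent.D0H67.PM

/-- Forms of degree `d` in `n` variables, `n` of which are algebraically independent, such that the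
ideal is outside the origin locally a power of the ideal of a smooth subvariety, for example the
ideals of smooth projective varieties which are generated by such forms. -/
theorem smooth {σ J : Type} [Fintype σ] [Finite J] (g : J → MvPolynomial σ ℂ) (d : ℕ) (hd : 0 < d)
    (hg : ∀ j, (g j).IsHomogeneous d)
    (hu : ∀ u : σ → ℂ, u ≠ 0 → (∀ j, eval u (g j) = 0) → ∃ c m, SmoothAt g u c m)
    (hv : (Nonempty σ ∧ ∃ ι : σ → J, AlgebraicIndependent ℂ fun i => g (ι i)) ∨
      ∃ u : σ → ℂ, u ≠ 0 ∧ (∀ j, eval u (g j) = 0) ∧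
        ∃ c m, SmoothAt g u c m ∧ d ∣ Fintype.card σ * m) :
    ∃ D, Germ g D := by
  refine ⟨_, Germ.cone g (fun _ => 1) d hd hg ?_ (Ω := Empty) (fun _ => Unit) (fun _ => Unit)
    (fun ω => ω.elim) (fun ω => ω.elim) (fun ω => ω.elim) (fun ω => ω.elim) (fun ω => ω.elim)
    (fun ω => ω.elim) (fun u hu0 => ?_) ?_⟩
  · rintro u ⟨⟨hu0, -⟩, -⟩ k hk
    obtain ⟨i, hi⟩ := Function.ne_iff.1 hu0
    exact Nat.dvd_one.1 (hk i hi)
  · obtain ⟨c, m, h⟩ := hu u hu0.1.1 hu0.2
    exact Or.inr (SmoothT.locFold g h)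
  · rcases hv with ⟨⟨i₀⟩, ι, hι⟩ | ⟨u, hu0, hug, c, m, h, hdv⟩
    · refine Or.inl ⟨fun k hk => Nat.dvd_one.1 (hk i₀), ι, ?_⟩
      simpa using hι
    · refine Or.inr ⟨u, ⟨⟨hu0, fun i hi => absurd hi one_ne_zero⟩, hug⟩, _,
        Smooth.mem_pair g u c m h, ?_⟩
      rw [Finset.sum_const, Finset.card_univ, smul_eq_mul, mul_one]
      change (d : ℤ) ∣ (Fintype.card σ : ℤ) * (m : ℤ)
      exact_mod_cast hdv

/-- Weighted homogeneous polynomials of the same degree without a common zero outside the origin,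
`n` of which are algebraically independent. -/
theorem primary {σ J : Type} [Fintype σ] [Finite J] (g : J → MvPolynomial σ ℂ) (w : σ → ℕ)
    (hw0 : ∀ i, w i ≠ 0) (d : ℕ) (hd : 0 < d) (hg : ∀ j, IsWeightedHomogeneous w (g j) d)
    (hu : ∀ u : σ → ℂ, (∀ j, eval u (g j) = 0) → u = 0)
    (hw : ∀ k : ℕ, (∀ i, k ∣ w i) → k = 1)
    (hv : ∃ ι : σ → J, AlgebraicIndependent ℂ fun i => g (ι i)) :
    ∃ D, Germ g D := by
  refine ⟨_, Germ.cone g w d hd hg ?_ (Ω := Empty) (fun _ => Unit) (fun _ => Unit)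
    (fun ω => ω.elim) (fun ω => ω.elim) (fun ω => ω.elim) (fun ω => ω.elim) (fun ω => ω.elim)
    (fun ω => ω.elim) (fun u hu0 => ?_) ?_⟩
  · rintro u ⟨⟨hu0, -⟩, hug⟩
    exact absurd (hu u hug) hu0
  · exact absurd (hu u hu0.2) hu0.1.1
  · obtain ⟨ι, hι⟩ := hv
    refine Or.inl ⟨hw, ι, ?_⟩
    have h : (fun i => if w i = 0 then (X i : MvPolynomial σ ℂ) else g (ι i)) =
        fun i => g (ι i) := funext fun i => if_neg (hw0 i)
    rw [h]
    exact hι

end Pool.Agent.D0H67.CX.Qh
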