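import Pool.Agent.D0H67.CX.Real
import Pool.Agent.D0H67.CX.Smooth

/-! # Cones: the theorem -/

set_option autoImplicit false
set_option linter.unusedSectionVars false
set_option linter.unusedVariables false

namespace Pool.Agent.D0H67.CX.Fin

open MvPolynomial Pool.Agent.W428.MOT Pool.Agent.TH192.MT Pool.Agent.TH192.DT
  Pool.Agent.D0H67.SUB Pool.Agent.D0H67.PM

open Classical in
/-- Q1 from the denominators and the points which realize them -/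
theorem q1 {σ J : Type} [Fintype σ] (g : J → MvPolynomial σ ℂ) (D : Set (ℤ × ℤ))
    (hpos : ∀ q ∈ D, 0 < q.2) (hrat : zetaJ g ∈ ratRing ℂ D)
    (hmon : ∀ q ∈ D, ∀ ε : ℝ, 0 < ε → ∃ (p : σ → ℂ) (y : J → ℂ), ‖p‖ < ε ∧
      MonZeta g p y (Finsupp.single q.2.toNat 1)) (s₀ : ℚ) :
    zetaJ g ∈ ratRing ℂ {q : ℤ × ℤ | 0 < q.2 ∧ (q.1 : ℚ) / q.2 ≠ s₀} ∨
      ∀ ε : ℝ, 0 < ε → ∃ p : σ → ℂ, ‖p‖ < ε ∧
        ∃ (y : J → ℂ) (b : ℕ →₀ ℤ), MonZeta g p y b ∧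
          ∑ M ∈ b.support.filter (fun M : ℕ => ∃ k : ℤ, s₀ * (M : ℚ) = k), b M ≠ 0 := by
  by_cases h : ∃ q ∈ D, (q.1 : ℚ) / q.2 = s₀
  · right
    obtain ⟨q, hq, h1⟩ := h
    intro ε hε
    obtain ⟨p, y, hp, hZ⟩ := hmon q hq ε hε
    refine ⟨p, hp, y, _, hZ, ?_⟩
    rw [Finsupp.support_single_ne_zero _ one_ne_zero, Finset.filter_singleton, if_pos,
      Finset.sum_singleton, Finsupp.single_eq_same]
    · exact one_ne_zero
    · refine ⟨q.1, ?_⟩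
      have h2 : ((q.2.toNat : ℕ) : ℚ) = (q.2 : ℚ) := by
        have := Int.toNat_of_nonneg (hpos q hq).le
        exact_mod_cast congrArg (fun x : ℤ => (x : ℚ)) this
      rw [← h1, h2, div_mul_cancel₀]
      exact_mod_cast (hpos q hq).ne'
  · left
    refine rat_mono (Lu ℂ) ?_ hrat
    exact fun q hq => ⟨hpos q hq, fun h1 => h ⟨q, hq, h1⟩⟩

end Pool.Agent.D0H67.CX.Fin
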