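import Pool.Agent.D0H67.CX.Loc

/-! # The class of germs -/

set_option autoImplicit false
set_option linter.unusedSectionVars false
set_option linter.unusedVariables false

namespace Pool.Agent.D0H67.CX

open MvPolynomial Pool.Agent.W428.MOT Pool.Agent.TH192.MT Pool.Agent.TH192.DT
  Pool.Agent.D0H67.SUB Pool.Agent.D0H67.PM

/-- The ideals `(g j)` and `(g' l)` are equal where `h ≠ 0`. -/
def EqOff {σ J J' : Type} (h : MvPolynomial σ ℂ) (g : J → MvPolynomial σ ℂ)
    (g' : J' → MvPolynomial σ ℂ) : Prop :=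
  (∀ j, h * g j ∈ Ideal.span (Set.range g')) ∧ ∀ l, h * g' l ∈ Ideal.span (Set.range g)

/-- `f(u) = 0`, the differentials of the `f i` at `u` are linearly independent, and `h(u) ≠ 0`. -/
def Center {σ τ : Type} (f : τ → MvPolynomial σ ℂ) (h : MvPolynomial σ ℂ) (u : σ → ℂ) : Prop :=
  (∀ i, eval u (f i) = 0) ∧
  LinearIndependent ℂ (fun (i : τ) (k : σ) => eval u (pderiv k (f i))) ∧ eval u h ≠ 0

/-- The pairs `(-codim G_A, f(A))` for the closed sets `A` with `f(A) > 0`. -/
def foldPairs {σ S : Type} [Fintype σ] {κ : S → Type} (c : (s : S) → κ s → σ → ℂ)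
    (P : Finset (S → ℕ)) (hP : P.Nonempty) : Set (ℤ × ℤ) :=
  {q | ∃ A : Finset S, Closed c A ∧ 0 < fP P hP A ∧
    q = (-((Fintype.card σ - Module.finrank ℂ (Gs c A) : ℕ) : ℤ), (fP P hP A : ℤ))}

/-- The pairs `(-codim G_A, ∑_A e)` for the irreducible sets `A`. -/
def prodPairs {σ S : Type} [Fintype σ] [DecidableEq S] {κ : S → Type}
    (c : (s : S) → κ s → σ → ℂ) (e : S → ℕ) : Set (ℤ × ℤ) :=
  {q | ∃ A : Finset S, IrrSet (fun s => zeros (c s)) A ∧
    q = (-((Fintype.card σ - Module.finrank ℂ (Gs c A) : ℕ) : ℤ), ((∑ s ∈ A, e s : ℕ) : ℤ))}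

/-- The least class of germs at the origin of ideals `(g j)`, with sets of pairs of integers, with
the following properties. (fold) It contains the ideals of fold type. (prod) It contains the
products of powers of ideals of linear subspaces. (pull) It contains the pull-backs of its germs by
polynomial maps `f`, `f(0) = 0`, with surjective differential at `0`, and the ideals which are equal
to them near `0`. (cone) Let the `g j` be forms of degree `d > 0` in `n` variables, let `n` of them be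
algebraically independent, or let `d ∣ n N` for the pair `(-c, N)` of a chart at a point `u ≠ 0`. Suppose
that there are finitely many maps `f ω` and germs `g' ω` of the class such that `(g j)` is the
pull-back of `g' ω` where `h ω ≠ 0`, and that every point `u ≠ 0` at which all `g j` vanish is the center
of one of these charts, or `(g j)` is of fold type at `u`. Then the germ of `(g j)` at the origin belongs
to the class, with the pairs of the charts and `(-n, d)`. -/
inductive Germ : {σ J : Type} → (J → MvPolynomial σ ℂ) → Set (ℤ × ℤ) → Prop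
  | fold {σ S : Type} [Fintype σ] [Fintype S] {κ : S → Type} [∀ s, Finite (κ s)]
      (c : (s : S) → κ s → σ → ℂ) (P : Finset (S → ℕ)) (hP : P.Nonempty)
      (hc : ∀ s, zeros (c s) ≠ ⊤) (hG : Greedy P hP)
      (hX : ∀ A : Finset S, Closed c A → 0 < fP P hP A → ExchOn P hP A) :
      Germ (gensP P c) (foldPairs c P hP)
  | prod {σ S : Type} [Fintype σ] [Fintype S] [DecidableEq S] {κ : S → Type} [∀ s, Finite (κ s)]
      (c : (s : S) → κ s → σ → ℂ) (e : S → ℕ) (he : ∀ s, 0 < e s) (hc : ∀ s, zeros (c s) ≠ ⊤) :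
      Germ (gens c e) (prodPairs c e)
  | pull {σ J τ J' : Type} [Finite σ] [Finite J] [Finite τ] [Finite J']
      (g : J → MvPolynomial σ ℂ) (g' : J' → MvPolynomial τ ℂ) (D : Set (ℤ × ℤ))
      (f : τ → MvPolynomial σ ℂ) (h : MvPolynomial σ ℂ) (hg' : Germ g' D) (hf : Center f h 0)
      (he : EqOff h g fun l => bind₁ f (g' l)) : Germ g D
  | cone {σ J : Type} [Fintype σ] [Finite J] (g : J → MvPolynomial σ ℂ) (d : ℕ) (hd : 0 < d)
      (hg : ∀ j, (g j).IsHomogeneous d) {Ω : Type} [Finite Ω] (τ J' : Ω → Type)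
      [∀ ω, Finite (τ ω)] [∀ ω, Finite (J' ω)] (g' : ∀ ω, J' ω → MvPolynomial (τ ω) ℂ)
      (D : Ω → Set (ℤ × ℤ)) (f : ∀ ω, τ ω → MvPolynomial σ ℂ) (h : Ω → MvPolynomial σ ℂ)
      (hg' : ∀ ω, Germ (g' ω) (D ω)) (he : ∀ ω, EqOff (h ω) g fun l => bind₁ (f ω) (g' ω l))
      (hu : ∀ u : σ → ℂ, u ≠ 0 → (∀ j, eval u (g j) = 0) →
        (∃ ω, Center (f ω) (h ω) u) ∨ LocFold g u)
      (hv : (Nonempty σ ∧ ∃ ι : σ → J, AlgebraicIndependent ℂ fun i => g (ι i)) ∨
        ∃ u : σ → ℂ, u ≠ 0 ∧ ∃ q, LocPair g u q ∧ (d : ℤ) ∣ Fintype.card σ * q.2) :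
      Germ g {q | q = (-(Fintype.card σ : ℤ), (d : ℤ)) ∨ ∃ u : σ → ℂ, u ≠ 0 ∧
        (∀ j, eval u (g j) = 0) ∧ (LocPair g u q ∨ ∃ ω, Center (f ω) (h ω) u ∧ q ∈ D ω)}

end Pool.Agent.D0H67.CX
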