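import Pool.Agent.D0H67.CX.Loc
import Pool.Agent.D0H67.CX.Stm3

/-! # The class of germs, with families of cones -/

set_option autoImplicit false
set_option linter.unusedSectionVars false
set_option linter.unusedVariables false

namespace Pool.Agent.D0H67.CX.Fam

open MvPolynomial Pool.Agent.W428.MOT Pool.Agent.TH192.MT Pool.Agent.TH192.DT
  Pool.Agent.D0H67.SUB Pool.Agent.D0H67.PM

/-- The ideals `(g j)` and `(g' l)` are equal where `h ≠ 0`. -/
def EqOff {σ J J' : Type} (h : MvPolynomial σ ℂ) (g : J → MvPolynomial σ ℂ)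
    (g' : J' → MvPolynomial σ ℂ) : Prop :=
  (∀ j, h * g j ∈ Ideal.span (Set.range g')) ∧ ∀ l, h * g' l ∈ Ideal.span (Set.range g)

/-- `f(u) = 0`, the differentials of the `f i` at `u` are linearly independent, and `h(u) ≠ 0`. -/
def Center {σ τ : Type} (f : τ → MvPolynomial σ ℂ) (h : MvPolynomial σ ℂ) (u : σ → ℂ) : Prop :=
  (∀ i, eval u (f i) = 0) ∧
  LinearIndependent ℂ (fun (i : τ) (k : σ) => eval u (pderiv k (f i))) ∧ eval u h ≠ 0

/-- The pairs `(-codim G_A, f(A))` for the closed sets `A` with `f(A) > 0`. -/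
def foldPairs {σ S : Type} [Fintype σ] {κ : S → Type} (c : (s : S) → κ s → σ → ℂ)
    (P : Finset (S → ℕ)) (hP : P.Nonempty) : Set (ℤ × ℤ) :=
  {q | ∃ A : Finset S, Closed c A ∧ 0 < fP P hP A ∧
    q = (-((Fintype.card σ - Module.finrank ℂ (Gs c A) : ℕ) : ℤ), (fP P hP A : ℤ))}

/-- The pairs `(-codim G_A, ∑_A e)` for the irreducible sets `A`. -/
def prodPairs {σ S : Type} [Fintype σ] [DecidableEq S] {κ : S → Type}
    (c : (s : S) → κ s → σ → ℂ) (e : S → ℕ) : Set (ℤ × ℤ) :=
  {q | ∃ A : Finset S, IrrSet (fun s => zeros (c s)) A ∧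
    q = (-((Fintype.card σ - Module.finrank ℂ (Gs c A) : ℕ) : ℤ), ((∑ s ∈ A, e s : ℕ) : ℤ))}

/-- The points `u = (x, 0)`, `x ≠ 0`, where all `g j` vanish (`x` the variables of weight `1`). -/
def Pts {σ J : Type} (g : J → MvPolynomial σ ℂ) (w : σ → ℕ) (u : σ → ℂ) : Prop :=
  (u ≠ 0 ∧ ∀ i, w i = 0 → u i = 0) ∧ ∀ j, eval u (g j) = 0

/-- The least class of germs at the origin of ideals `(g j)`, with sets of pairs of integers, with
the following properties. (fold) It contains the ideals of fold type. (prod) It contains the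
products of powers of ideals of linear subspaces. (pull) It contains the pull-backs of its germs by
polynomial maps `f`, `f(0) = 0`, with surjective differential at `0`, and the ideals which are equal
to them near `0`. (cone) Let the variables have weights `w i ∈ {0, 1}`; let `x` be the `n` variables of
weight `1` and `s` the variables of weight `0` (parameters), and let the `g j` be homogeneous of
degree `d > 0` in `x`, with coefficients which depend polynomially on `s`. Let `n > 0` of the `g j` be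
algebraically independent over `ℂ(s)`, or let `d ∣ n N` for the pair `(-c, N)` of a chart at a point
`(x, 0)`, `x ≠ 0`. Suppose that there are finitely many maps `f ω` and germs `g' ω` of the class such that
`(g j)` is the pull-back of `g' ω` where `h ω ≠ 0`, and that every point `(x, 0)`, `x ≠ 0`, at which all
`g j` vanish is the center of one of these charts, or `(g j)` is of fold type at this point. Then the
germ of `(g j)` at the origin belongs to the class, with the pairs of the charts and `(-n, d)`. -/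
inductive Germ : {σ J : Type} → (J → MvPolynomial σ ℂ) → Set (ℤ × ℤ) → Prop
  | fold {σ S : Type} [Fintype σ] [Fintype S] {κ : S → Type} [∀ s, Finite (κ s)]
      (c : (s : S) → κ s → σ → ℂ) (P : Finset (S → ℕ)) (hP : P.Nonempty)
      (hc : ∀ s, zeros (c s) ≠ ⊤) (hG : Greedy P hP)
      (hX : ∀ A : Finset S, Closed c A → 0 < fP P hP A → ExchOn P hP A) :
      Germ (gensP P c) (foldPairs c P hP)
  | prod {σ S : Type} [Fintype σ] [Fintype S] [DecidableEq S] {κ : S → Type} [∀ s, Finite (κ s)]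
      (c : (s : S) → κ s → σ → ℂ) (e : S → ℕ) (he : ∀ s, 0 < e s) (hc : ∀ s, zeros (c s) ≠ ⊤) :
      Germ (gens c e) (prodPairs c e)
  | pull {σ J τ J' : Type} [Finite σ] [Finite J] [Finite τ] [Finite J']
      (g : J → MvPolynomial σ ℂ) (g' : J' → MvPolynomial τ ℂ) (D : Set (ℤ × ℤ))
      (f : τ → MvPolynomial σ ℂ) (h : MvPolynomial σ ℂ) (hg' : Germ g' D) (hf : Center f h 0)
      (he : EqOff h g fun l => bind₁ f (g' l)) : Germ g D
  | cone {σ J : Type} [Fintype σ] [Finite J] (g : J → MvPolynomial σ ℂ) (w : σ → ℕ)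
      (hw : ∀ i, w i ≤ 1) (d : ℕ) (hd : 0 < d) (hg : ∀ j, IsWeightedHomogeneous w (g j) d)
      {Ω : Type} [Finite Ω] (τ J' : Ω → Type) [∀ ω, Finite (τ ω)] [∀ ω, Finite (J' ω)]
      (g' : ∀ ω, J' ω → MvPolynomial (τ ω) ℂ) (D : Ω → Set (ℤ × ℤ))
      (f : ∀ ω, τ ω → MvPolynomial σ ℂ) (h : Ω → MvPolynomial σ ℂ)
      (hg' : ∀ ω, Germ (g' ω) (D ω)) (he : ∀ ω, EqOff (h ω) g fun l => bind₁ (f ω) (g' ω l))
      (hu : ∀ u : σ → ℂ, Pts g w u → (∃ ω, Center (f ω) (h ω) u) ∨ LocFold g u)
      (hv : ((∃ i, w i = 1) ∧ ∃ ι : σ → J,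
          AlgebraicIndependent ℂ fun i => if w i = 1 then g (ι i) else X i) ∨
        ∃ u : σ → ℂ, Pts g w u ∧ ∃ q, LocPair g u q ∧ (d : ℤ) ∣ (∑ i, w i : ℕ) * q.2) :
      Germ g {q | q = (-((∑ i, w i : ℕ) : ℤ), (d : ℤ)) ∨ ∃ u : σ → ℂ, Pts g w u ∧
        (LocPair g u q ∨ ∃ ω, Center (f ω) (h ω) u ∧ q ∈ D ω)}

end Pool.Agent.D0H67.CX.Fam
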