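import Pool.Agent.D0H67.CX.Zeta
import Pool.Agent.D0H67.CX.Lift

/-! # The monodromy zeta functions -/

set_option autoImplicit false
set_option linter.unusedSectionVars false
set_option linter.unusedVariables false

namespace Pool.Agent.D0H67.CX.Real

open MvPolynomial Pool.Agent.W428.MOT Pool.Agent.TH192.MT Pool.Agent.TH192.DT
  Pool.Agent.D0H67.SUB Pool.Agent.D0H67.PM Pool.Agent.D0H67.CX.Loc

variable {σ J : Type} [Fintype σ] [Finite J] (g : J → MvPolynomial σ ℂ)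

/-- the pairs of the charts -/
theorem chart (hNEAR : S_NEAR) (hSCALE : S_SCALE) (hLIFT : S_LIFT) (d : ℕ)
    (hg : ∀ j, (g j).IsHomogeneous d) (u : σ → ℂ) (q : ℤ × ℤ) (hq : LocPair g u q) (ε : ℝ)
    (hε : 0 < ε) : ∃ (p : σ → ℂ) (y : J → ℂ), ‖p‖ < ε ∧
      MonZeta g p y (Finsupp.single q.2.toNat 1) := by
  classical
  obtain ⟨τ, S, iτ, iS, κ, hκ, c, P, hP, f, h, hch, A, hA, hyA, hpos, rfl⟩ := hq
  obtain ⟨hc, hG, hX, hli, hhu, hI1, hI2⟩ := hch
  obtain ⟨κ0, hκ0, hdet⟩ := Small.minor _ hli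
  set H : MvPolynomial σ ℂ := h * (Matrix.of fun i j => pderiv (κ0 j) (f i) :
        Matrix τ τ (MvPolynomial σ ℂ)).det with hH
  have hev : ∀ x : σ → ℂ, eval x H = eval x h *
      (Matrix.of fun i j => eval x (pderiv (κ0 j) (f i)) : Matrix τ τ ℂ).det := by
    intro x
    rw [hH, map_mul, RingHom.map_det]
    rfl
  have hHu : eval u H ≠ 0 := by
    rw [hev]
    exact mul_ne_zero hhu hdet
  have hopen : IsOpen {x : σ → ℂ | eval x H ≠ 0} :=
    isOpen_ne_fun (MvPolynomial.continuous_eval H) continuous_const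
  obtain ⟨ε₁, hε₁, hball⟩ := Metric.isOpen_iff.1 hopen u hHu
  obtain ⟨δ, hδ, hnear⟩ := hNEAR f u hli ε₁ hε₁
  obtain ⟨p', hp'G, hp'δ, hp'⟩ := Small.gen (Gs c A) (fun s : {s // s ∉ A} => zeros (c s))
    (fun s hs => s.2 (hA s hs)) (fun i => eval u (f i)) hyA δ hδ
  obtain ⟨p, hp, hfp⟩ := hnear p' hp'δ
  have hpH : eval p H ≠ 0 := hball (by rw [Metric.mem_ball, dist_eq_norm]; exact hp)
  rw [hev] at hpH
  obtain ⟨y', hy'⟩ := Pmon.mon c P hP hc A hpos (hX A hA hpos) p' hp'G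
    fun s hs => hp' ⟨s, hs⟩
  have hfp' : (fun i => eval p (f i)) = p' := funext hfp
  rw [← hfp'] at hy'
  obtain ⟨y, hy⟩ := hLIFT g (gensP P c) f h hI1 hI2 κ0 p hκ0 (right_ne_zero_of_mul hpH)
    (left_ne_zero_of_mul hpH) y' _ hy'
  have hr : 0 < ε / (2 * (‖p‖ + 1)) := by positivity
  have hr' : ((ε / (2 * (‖p‖ + 1)) : ℝ) : ℂ) ≠ 0 := by exact_mod_cast hr.ne'
  refine ⟨((ε / (2 * (‖p‖ + 1)) : ℝ) : ℂ) • p, y, ?_, ?_⟩
  · rw [norm_smul, Complex.norm_real, Real.norm_of_nonneg hr.le]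
    have h2 : 0 ≤ ‖p‖ := norm_nonneg _
    rw [div_mul_eq_mul_div, div_lt_iff₀ (by positivity)]
    nlinarith
  · have h3 := hSCALE g d hg _ hr' p y _ hy
    exact h3

/-- the vertex -/
theorem vertex (hAPEX : S_APEX) [Nonempty σ] (d : ℕ) (hd : 0 < d)
    (hg : ∀ j, (g j).IsHomogeneous d) (f₀ : MvPolynomial σ ℂ) (hf₀ : f₀ ≠ 0)
    (hf₀h : f₀.IsHomogeneous (d - 1))
    (hf₀g : ∀ i, X i * f₀ ∈ Submodule.span ℂ (Set.range g)) :
    ∃ y : J → ℂ, MonZeta g 0 y (Finsupp.single d 1) := by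
  classical
  obtain ⟨M, hL, hM⟩ := exists_meas ℂ
  -- the direction
  have hv : ∃ v : σ → ℂ, v ≠ 0 ∧ eval v f₀ ≠ 0 := by
    by_contra hcon
    push Not at hcon
    by_cases hd1 : d - 1 = 0
    · rw [hd1] at hf₀h
      obtain ⟨i⟩ := ‹Nonempty σ›
      have h1 := hcon (fun _ => 1) (fun h2 => one_ne_zero (congrFun h2 i))
      have h2 : f₀ = C (coeff 0 f₀) := by
        rw [← totalDegree_eq_zero_iff_eq_C]
        have := hf₀h.totalDegree hf₀
        exact this
      rw [h2, eval_C] at h1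
      apply hf₀
      rw [h2, h1, map_zero]
    · apply hf₀
      refine MvPolynomial.funext fun v => ?_
      rw [map_zero]
      by_cases hv0 : v = 0
      · rw [hv0]
        have h1 : coeff 0 f₀ = 0 := by
          refine hf₀h.coeff_eq_zero ?_
          simp only [map_zero]
          exact fun h2 => hd1 h2.symm
        have h2 : eval (0 : σ → ℂ) f₀ = constantCoeff f₀ := by
          rw [MvPolynomial.eval_zero]
        rw [h2, constantCoeff_eq, h1]
      · exact hcon v hv0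
  obtain ⟨v, hv0, hvf⟩ := hv
  set vF : Pt ℂ σ := fun i => algebraMap ℂ (AlgebraicClosure ℂ) (v i) with hvF
  have hvF0 : vF ≠ 0 := by
    intro h1
    apply hv0
    funext i
    exact injA (by rw [show algebraMap ℂ (AlgebraicClosure ℂ) (v i) = 0 from congrFun h1 i]; simp)
  have hvFf : aeval vF f₀ ≠ 0 := by
    rw [hvF, aevalA]
    intro h1
    exact hvf (injA (by rw [h1, map_zero]))
  have hJ := hAPEX g d hd hg f₀ hf₀h hf₀g vF hvF0 hvFf
  have hy : (fun j => aeval vF (g j)) = fun j => algebraMap ℂ (AlgebraicClosure ℂ) (eval v (g j)) := by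
    funext j
    rw [hvF, aevalA]
  have h0F : (fun i => algebraMap ℂ (AlgebraicClosure ℂ) ((0 : σ → ℂ) i)) = (0 : Pt ℂ σ) := by
    funext i
    simp
  have hLw : M.L * (((Lu ℂ)⁻¹ : (MK ℂ)ˣ) : MK ℂ) = 1 := by rw [hL, Units.mul_inv]
  have hvG : vF ∉ (⊥ : Submodule (AlgebraicClosure ℂ) (Pt ℂ σ)) := fun h1 =>
    hvF0 ((Submodule.mem_bot _).1 h1)
  refine ⟨fun j => eval v (g j), ?_, ⟨d, hd, ?_⟩, ?_, ?_⟩
  · intro h1
    obtain ⟨i, hi⟩ := Function.ne_iff.1 hv0
    have h2 : ∀ x ∈ Submodule.span ℂ (Set.range g), eval v x = 0 := by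
      intro x hx
      induction hx using Submodule.span_induction with
      | mem x hx =>
        obtain ⟨j, rfl⟩ := hx
        exact congrFun h1 j
      | zero => exact map_zero _
      | add x y _ _ hx hy => rw [map_add, hx, hy, add_zero]
      | smul a x _ hx => rw [smul_eval, hx, mul_zero]
    have h3 := h2 _ (hf₀g i)
    rw [map_mul, eval_X] at h3
    rcases mul_eq_zero.1 h3 with h4 | h4
    · exact hi h4
    · exact hvf h4
  · rw [h0F, ← hy, hJ]
    have hz : jk (fun q : σ × _root_.Fin (d + 1) => if (q.2 : ℕ) = 1 then vF q.1 else 0) 0 = 0 := by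
      rw [Lev.jk_zero]
      funext i
      simp
    refine ⟨fun q => if (q.2 : ℕ) = 1 then vF q.1 else 0, hz, 1, fun k hk => ?_, ?_,
      Nat.mul_one _⟩
    · have hk0 : k = 0 := Nat.lt_one_iff.1 hk
      subst hk0
      rw [hz]
      exact Submodule.zero_mem _
    · refine ⟨1, one_ne_zero, ?_⟩
      rw [one_smul]
      have h6 : jk (fun q : σ × _root_.Fin (d + 1) => if (q.2 : ℕ) = 1 then vF q.1 else 0) 1 =
          vF := by
        funext i
        rw [Lev.jk_lt _ (by omega)]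
        simp
      rw [h6, sub_self]
      exact Submodule.zero_mem _
  · rw [Finsupp.single_eq_of_ne hd.ne]
  · intro N hN0
    obtain ⟨Q, k, hQ1, hQ⟩ := Sing.main M _ hLw (⊥ : Submodule (AlgebraicClosure ℂ) (Pt ℂ σ)) 0 vF
      (Submodule.zero_mem _) hvG _ hd N hN0
    rw [h0F, ← hy, hJ]
    refine ⟨Q, k, ?_, ?_⟩
    · rw [hQ1, Finsupp.support_single_ne_zero _ one_ne_zero, Finset.filter_singleton]
      split_ifs
      · rw [Finset.sum_singleton, Finsupp.single_eq_same]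
      · rw [Finset.sum_empty]
    · rw [← hM, ← hL]
      exact hQ

end Pool.Agent.D0H67.CX.Real
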