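import Pool.Agent.D0H67.CX.Germ
import Pool.Agent.D0H67.CX.Core
import Pool.Agent.D0H67.CX.Lift
import Pool.Agent.D0H67.CX.Real
import Pool.Agent.D0H67.CX.Stm2

/-! # The theorem for the class of germs -/

set_option autoImplicit false
set_option linter.unusedSectionVars false
set_option linter.unusedVariables false

namespace Pool.Agent.D0H67.CX.GermT

open MvPolynomial Pool.Agent.W428.MOT Pool.Agent.TH192.MT Pool.Agent.TH192.DT
  Pool.Agent.D0H67.SUB Pool.Agent.D0H67.PM Pool.Agent.D0H67.CX.Loc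

open Classical in
/-- near the origin there are points `e` of the exceptional divisor of the blow-up such that
`exp(2 π i s₀)` is a zero or a pole of the monodromy zeta function -/
def RealS {σ J : Type} [Fintype σ] (g : J → MvPolynomial σ ℂ) (s₀ : ℚ) : Prop :=
  ∀ ε : ℝ, 0 < ε → ∃ p : σ → ℂ, ‖p‖ < ε ∧ ∃ (y : J → ℂ) (b : ℕ →₀ ℤ), MonZeta g p y b ∧
    ∑ M ∈ b.support.filter (fun M : ℕ => ∃ k : ℤ, s₀ * (M : ℚ) = k), b M ≠ 0

theorem real_single {σ J : Type} [Fintype σ] (g : J → MvPolynomial σ ℂ) (s₀ : ℚ) (N : ℕ)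
    (hN : ∃ k : ℤ, s₀ * (N : ℚ) = k)
    (h : ∀ ε : ℝ, 0 < ε → ∃ p : σ → ℂ, ‖p‖ < ε ∧ ∃ (y : J → ℂ) (χ : ℤ), χ ≠ 0 ∧
      MonZeta g p y (Finsupp.single N χ)) : RealS g s₀ := by
  intro ε hε
  obtain ⟨p, hp, y, χ, hχ, hZ⟩ := h ε hε
  refine ⟨p, hp, y, _, hZ, ?_⟩
  rw [Finsupp.support_single_ne_zero _ hχ, Finset.filter_singleton, if_pos hN,
    Finset.sum_singleton, Finsupp.single_eq_same]
  exact hχ

theorem ratio {q : ℤ × ℤ} (hq : 0 < q.2) : ∃ k : ℤ, (q.1 : ℚ) / q.2 * (q.2.toNat : ℚ) = k := by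
  refine ⟨q.1, ?_⟩
  have h2 : ((q.2.toNat : ℕ) : ℚ) = (q.2 : ℚ) := by
    have := Int.toNat_of_nonneg hq.le
    exact_mod_cast congrArg (fun x : ℤ => (x : ℚ)) this
  rw [h2, div_mul_cancel₀]
  exact_mod_cast hq.ne'

section lift

variable {σ J τ J' : Type} [Fintype σ] [Finite J] [Fintype τ] [Finite J']

open Classical in
/-- the monodromy zeta functions of `g'` near the origin give monodromy zeta functions of `g` near
the center -/
theorem lift_real (hNEAR : S_NEAR) (hLIFT : S_LIFT) (g : J → MvPolynomial σ ℂ)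
    (g' : J' → MvPolynomial τ ℂ) (f : τ → MvPolynomial σ ℂ) (h : MvPolynomial σ ℂ)
    (he : EqOff h g fun l => bind₁ f (g' l)) (u : σ → ℂ) (hu : Center f h u) (s₀ : ℚ)
    (hr : RealS g' s₀) (ε : ℝ) (hε : 0 < ε) : ∃ p : σ → ℂ, ‖p - u‖ < ε ∧
      ∃ (y : J → ℂ) (b : ℕ →₀ ℤ), MonZeta g p y b ∧
      ∑ M ∈ b.support.filter (fun M : ℕ => ∃ k : ℤ, s₀ * (M : ℚ) = k), b M ≠ 0 := by
  obtain ⟨hf0, hli, hhu⟩ := hu
  obtain ⟨κ0, hκ0, hdet⟩ := Small.minor _ hli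
  set H : MvPolynomial σ ℂ := h * (Matrix.of fun i j => pderiv (κ0 j) (f i) :
        Matrix τ τ (MvPolynomial σ ℂ)).det with hH
  have hev : ∀ x : σ → ℂ, eval x H = eval x h *
      (Matrix.of fun i j => eval x (pderiv (κ0 j) (f i)) : Matrix τ τ ℂ).det := by
    intro x
    rw [hH, map_mul, RingHom.map_det]
    rfl
  have hHu : eval u H ≠ 0 := by
    rw [hev]
    exact mul_ne_zero hhu hdet
  have hopen : IsOpen {x : σ → ℂ | eval x H ≠ 0} :=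
    isOpen_ne_fun (MvPolynomial.continuous_eval H) continuous_const
  obtain ⟨ε₁, hε₁, hball⟩ := Metric.isOpen_iff.1 hopen u hHu
  obtain ⟨δ, hδ, hnear⟩ := hNEAR f u hli (min ε ε₁) (lt_min hε hε₁)
  obtain ⟨p', hp'δ, y', b, hy', hb⟩ := hr δ hδ
  have h0 : (fun i => eval u (f i)) = 0 := funext hf0
  obtain ⟨p, hp, hfp⟩ := hnear p' (by rw [h0, sub_zero]; exact hp'δ)
  have hpH : eval p H ≠ 0 := hball (by
    rw [Metric.mem_ball, dist_eq_norm]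
    exact lt_of_lt_of_le hp (min_le_right _ _))
  rw [hev] at hpH
  have hfp' : (fun i => eval p (f i)) = p' := funext hfp
  rw [← hfp'] at hy'
  obtain ⟨y, hy⟩ := hLIFT g g' f h he.1 he.2 κ0 p hκ0 (right_ne_zero_of_mul hpH)
    (left_ne_zero_of_mul hpH) y' _ hy'
  exact ⟨p, lt_of_lt_of_le hp (min_le_left _ _), y, b, hy, hb⟩

/-- at the origin -/
theorem real_pull (hNEAR : S_NEAR) (hLIFT : S_LIFT) (g : J → MvPolynomial σ ℂ)
    (g' : J' → MvPolynomial τ ℂ) (f : τ → MvPolynomial σ ℂ) (h : MvPolynomial σ ℂ)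
    (he : EqOff h g fun l => bind₁ f (g' l)) (hu : Center f h 0) (s₀ : ℚ)
    (hr : RealS g' s₀) : RealS g s₀ := by
  intro ε hε
  obtain ⟨p, hp, y, b, h1, h2⟩ := lift_real hNEAR hLIFT g g' f h he 0 hu s₀ hr ε hε
  exact ⟨p, by rwa [sub_zero] at hp, y, b, h1, h2⟩

/-- at other points of a cone -/
theorem real_cone (hNEAR : S_NEAR) (hSCALE : S_SCALE) (hLIFT : S_LIFT) (g : J → MvPolynomial σ ℂ)
    (d : ℕ) (hg : ∀ j, (g j).IsHomogeneous d)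
    (g' : J' → MvPolynomial τ ℂ) (f : τ → MvPolynomial σ ℂ) (h : MvPolynomial σ ℂ)
    (he : EqOff h g fun l => bind₁ f (g' l)) (u : σ → ℂ) (hu : Center f h u) (s₀ : ℚ)
    (hr : RealS g' s₀) : RealS g s₀ := by
  intro ε hε
  obtain ⟨p, hp, y, b, h1, h2⟩ := lift_real hNEAR hLIFT g g' f h he u hu s₀ hr 1 one_pos
  have hr : 0 < ε / (2 * (‖p‖ + 1)) := by positivity
  have hr' : ((ε / (2 * (‖p‖ + 1)) : ℝ) : ℂ) ≠ 0 := by exact_mod_cast hr.ne'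
  refine ⟨((ε / (2 * (‖p‖ + 1)) : ℝ) : ℂ) • p, ?_, y, b, hSCALE g d hg _ hr' p y _ h1, h2⟩
  rw [norm_smul, Complex.norm_real, Real.norm_of_nonneg hr.le]
  have h2 : 0 ≤ ‖p‖ := norm_nonneg _
  rw [div_mul_eq_mul_div, div_lt_iff₀ (by positivity)]
  nlinarith

/-- the series over the center -/
theorem center_mem (hFIB : S_FIB) (hORDT : S_ORDT) (M : Meas ℂ (MK ℂ))
    (hL : M.L = ((Lu ℂ : (MK ℂ)ˣ) : MK ℂ))
    (hM : ∀ (ι : Type) [Fintype ι] (S : Set (Pt ℂ ι)),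
      M.χ ι S = algebraMap (K0 ℂ) (MK ℂ) (cls ι S)) (g : J → MvPolynomial σ ℂ)
    (g' : J' → MvPolynomial τ ℂ) (f : τ → MvPolynomial σ ℂ) (h : MvPolynomial σ ℂ)
    (he : EqOff h g fun l => bind₁ f (g' l)) [DecidableEq τ] (κ0 : τ → σ)
    (hκ0 : Function.Injective κ0) (D : Set (ℤ × ℤ)) (hD : zetaJ g' ∈ ratRing ℂ D)
    (B : Set (Pt ℂ σ)) (hB : Constr B) (hBf : ∀ x ∈ B, vf f x = 0) (hBh : ∀ x ∈ B, aeval x h ≠ 0)
    (hdet : ∀ x ∈ B, (jac f κ0 x).det ≠ 0) :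
    ZF M (((Lu ℂ)⁻¹ : (MK ℂ)ˣ) : MK ℂ) g B ∈ ratU (Lu ℂ) D := by
  have hLw : M.L * (((Lu ℂ)⁻¹ : (MK ℂ)ˣ) : MK ℂ) = 1 := by rw [hL, Units.mul_inv]
  rw [Cen.series hFIB hORDT g g' f h he.1 he.2 κ0 hκ0 B hB hBf hBh hdet M _ hLw]
  exact Subalgebra.mul_mem _ (rat_C _ _) (Core.of_zeta g' D M hM hD)

end lift

/-- a fold chart -/
theorem LR_of_chart {σ J : Type} [Fintype σ] [Finite J] (g : J → MvPolynomial σ ℂ)
    (hORDT : S_ORDT) (hZST : S_ZST) (M : Meas ℂ (MK ℂ))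
    (hL : M.L = ((Lu ℂ : (MK ℂ)ˣ) : MK ℂ))
    (hadd : Add M (((Lu ℂ)⁻¹ : (MK ℂ)ˣ) : MK ℂ) g)
    {τ S : Type} [Fintype τ] [Fintype S] {κ : S → Type} [hκ : ∀ s, Finite (κ s)]
    (c : (s : S) → κ s → τ → ℂ) (P : Finset (S → ℕ)) (hP : P.Nonempty)
    (f : τ → MvPolynomial σ ℂ) (h : MvPolynomial σ ℂ) (u : σ → ℂ)
    (hch : IsChart g c P hP f h u) (D : Set (ℤ × ℤ)) (hD : Zeta.Pairs g c P hP f h D) :
    Core.LR g M D u := by
  classical
  obtain ⟨κ0, hκ0, hdet⟩ := Small.minor _ hch.2.2.2.1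
  refine ⟨h * (Matrix.of fun i j => pderiv (κ0 j) (f i) :
    Matrix τ τ (MvPolynomial σ ℂ)).det, ?_, fun B hB hB0 hBg hBH => ?_⟩
  · rw [map_mul]
    refine mul_ne_zero hch.2.2.2.2.1 ?_
    rw [RingHom.map_det]
    exact hdet
  · have h5 : ∀ x : Pt ℂ σ, aeval x (Matrix.of fun i j => pderiv (κ0 j) (f i) :
        Matrix τ τ (MvPolynomial σ ℂ)).det = (jac f κ0 x).det := by
      intro x
      rw [AlgHom.map_det]
      rfl
    refine Zeta.piece g hORDT hZST M hL hadd c P hP f h u hch D hD κ0 hκ0 B hB hB0 hBg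
      (fun x hx h6 => hBH x hx ?_) (fun x hx h6 => hBH x hx ?_)
    · rw [map_mul, h6, zero_mul]
    · rw [map_mul, h5, h6, mul_zero]

end Pool.Agent.D0H67.CX.GermT
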