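import Pool.Agent.D0H67.CX.GermT
import Pool.Agent.D0H67.CX.Fin
import Pool.Agent.D0H87.CX.Tay
import Pool.Agent.D0H87.CX.Scale
import Pool.Agent.D0H87.CX.Near
import Pool.Agent.D0H65.CX.Fib
import Pool.Agent.D0H25.SUB.Beta
import Pool.Agent.D0H25.SUB.Forms
import Pool.Agent.D0H9.SUB.Ord
import Pool.Agent.D0H9.SUB.Pt

/-! # The theorem for the class of germs: induction -/

set_option autoImplicit false
set_option linter.unusedSectionVars false
set_option linter.unusedVariables false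

namespace Pool.Agent.D0H67.CX.Good

open MvPolynomial Pool.Agent.W428.MOT Pool.Agent.TH192.MT Pool.Agent.TH192.DT
  Pool.Agent.D0H67.SUB Pool.Agent.D0H67.PM Pool.Agent.D0H67.CX.Loc Pool.Agent.D0H67.CX.GermT

theorem hFIB : S_FIB := Pool.Agent.D0H65.CX.t_FIB Pool.Agent.D0H87.CX.t_TAY Pool.Agent.D0H65.CX.t_SS
theorem hORDT : S_ORDT := Pool.Agent.D0H35.CX.t_ORDT
theorem hZST : S_ZST := Zst.main hFIB
theorem hLIFT : S_LIFT := Lift.main hFIB hORDT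
theorem hREC : S_REC := Pool.Agent.D0H87.CX.t_REC
theorem hNEAR : S_NEAR := Pool.Agent.D0H87.CX.t_NEAR
theorem hSCALE : S_SCALE := Pool.Agent.D0H87.CX.t_SCALE

/-- the property -/
def Gd {σ J : Type} [Fintype σ] (g : J → MvPolynomial σ ℂ) (D : Set (ℤ × ℤ)) : Prop :=
  (∀ q ∈ D, 0 < q.2) ∧ zetaJ g ∈ ratRing ℂ D ∧ ∀ q ∈ D, RealS g ((q.1 : ℚ) / q.2)

theorem ratio' {q : ℤ × ℤ} {N : ℕ} (hN : 0 < N) (hq : q.2 = (N : ℤ)) :
    ∃ k : ℤ, (q.1 : ℚ) / q.2 * (N : ℚ) = k := by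
  have h := ratio (q := q) (by rw [hq]; exact_mod_cast hN)
  rwa [hq, Int.toNat_natCast, ← hq] at h

theorem fold {σ S : Type} [Fintype σ] [Fintype S] {κ : S → Type} [∀ s, Finite (κ s)]
    (c : (s : S) → κ s → σ → ℂ) (P : Finset (S → ℕ)) (hP : P.Nonempty)
    (hc : ∀ s, zeros (c s) ≠ ⊤) (hG : Greedy P hP)
    (hX : ∀ A : Finset S, Closed c A → 0 < fP P hP A → ExchOn P hP A) :
    Gd (gensP P c) (foldPairs c P hP) := by
  classical
  refine ⟨?_, PM.Fin.rat c P hP hG, ?_⟩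
  · rintro q ⟨A, -, hA, rfl⟩
    exact Int.natCast_pos.2 hA
  · rintro q ⟨A, hA, hf, rfl⟩
    refine real_single _ _ (fP P hP A) (ratio' hf rfl) fun ε hε => ?_
    obtain ⟨p, -, hp, y, hy⟩ := PM.Fin.mon c P hP hc A hA hf (hX A hA hf) ε hε
    exact ⟨p, hp, y, 1, one_ne_zero, hy⟩

theorem prod {σ S : Type} [Fintype σ] [Fintype S] [DecidableEq S] {κ : S → Type}
    [∀ s, Finite (κ s)] (c : (s : S) → κ s → σ → ℂ) (e : S → ℕ) (he : ∀ s, 0 < e s)
    (hc : ∀ s, zeros (c s) ≠ ⊤) : Gd (gens c e) (prodPairs c e) := by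
  have hpos : ∀ A : Finset S, IrrSet (fun s => zeros (c s)) A → 0 < ∑ s ∈ A, e s :=
    fun A hA => Finset.sum_pos (fun s _ => he s) hA.1
  refine ⟨?_, SUB.Fin.rat Pool.Agent.D0H9.SUB.ord1 Pool.Agent.D0H9.SUB.trans c e he hc, ?_⟩
  · rintro q ⟨A, hA, rfl⟩
    exact Int.natCast_pos.2 (hpos A hA)
  · rintro q ⟨A, hA, rfl⟩
    refine real_single _ _ (∑ s ∈ A, e s) (ratio' (hpos A hA) rfl) fun ε hε => ?_
    obtain ⟨p, -, hp, y, χ, hχ, hy⟩ := SUB.Fin.mon Pool.Agent.D0H9.SUB.ord2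
      Pool.Agent.D0H9.SUB.trans Pool.Agent.D0H9.SUB.pt Pool.Agent.D0H25.SUB.forms
      (Cong.main Pool.Agent.D0H25.SUB.forms (Euler.main Pool.Agent.D0H25.SUB.main_beta))
      c e he hc A hA ε hε
    exact ⟨p, hp, y, χ, hχ, hy⟩

theorem pull {σ J τ J' : Type} [Fintype σ] [Finite J] [Fintype τ] [Finite J']
    (g : J → MvPolynomial σ ℂ) (g' : J' → MvPolynomial τ ℂ) (D : Set (ℤ × ℤ))
    (f : τ → MvPolynomial σ ℂ) (h : MvPolynomial σ ℂ) (hg' : Gd g' D) (hf : Center f h 0)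
    (he : EqOff h g fun l => bind₁ f (g' l)) : Gd g D := by
  classical
  refine ⟨hg'.1, ?_, fun q hq =>
    real_pull hNEAR hLIFT g g' f h he hf _ (hg'.2.2 q hq)⟩
  obtain ⟨M, hL, hM⟩ := exists_meas ℂ
  obtain ⟨κ0, hκ0, hdet⟩ := Small.minor _ hf.2.1
  refine Core.zeta_of g D M hM (center_mem hFIB hORDT M hL hM g g' f h he κ0 hκ0 D hg'.2.1 {0}
    Shift.constr_z ?_ ?_ ?_)
  · rintro x rfl
    funext i
    have h0 : (0 : Pt ℂ σ) = fun i => algebraMap ℂ (AlgebraicClosure ℂ) ((0 : σ → ℂ) i) := by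
      funext i
      simp
    unfold vf
    rw [h0, aevalA, hf.1 i, map_zero]
    rfl
  · rintro x rfl
    have h0 : (0 : Pt ℂ σ) = fun i => algebraMap ℂ (AlgebraicClosure ℂ) ((0 : σ → ℂ) i) := by
      funext i
      simp
    rw [h0, aevalA]
    intro h1
    exact hf.2.2 (injA (by rw [h1, map_zero]))
  · rintro x rfl
    have h0 : (0 : Pt ℂ σ) = fun i => algebraMap ℂ (AlgebraicClosure ℂ) ((0 : σ → ℂ) i) := by
      funext i
      simp
    rw [h0, jac_det]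
    intro h1
    exact hdet (injA (by rw [h1, map_zero]))

/-- the pairs of a cone -/
def coneD {σ J : Type} [Fintype σ] (g : J → MvPolynomial σ ℂ) (d : ℕ) {Ω : Type} {τ : Ω → Type}
    (D : Ω → Set (ℤ × ℤ)) (f : ∀ ω, τ ω → MvPolynomial σ ℂ) (h : Ω → MvPolynomial σ ℂ) :
    Set (ℤ × ℤ) :=
  {q | q = (-(Fintype.card σ : ℤ), (d : ℤ)) ∨ ∃ u : σ → ℂ, u ≠ 0 ∧
    (∀ j, eval u (g j) = 0) ∧ (LocPair g u q ∨ ∃ ω, Center (f ω) (h ω) u ∧ q ∈ D ω)}

theorem locPair_pos {σ J : Type} [Fintype σ] {g : J → MvPolynomial σ ℂ} {u : σ → ℂ} {q : ℤ × ℤ}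
    (h : LocPair g u q) : 0 < q.2 := by
  obtain ⟨τ, S, iτ, iS, κ, hκ, c, P, hP, f, h, hch, A, hA, hyA, hpos, rfl⟩ := h
  exact Int.natCast_pos.2 hpos

theorem cone_zeta {σ J : Type} [Fintype σ] [Finite J] (g : J → MvPolynomial σ ℂ) (d : ℕ)
    (hd : 0 < d) (hg : ∀ j, (g j).IsHomogeneous d) {Ω : Type} [Finite Ω] (τ J' : Ω → Type)
    [∀ ω, Fintype (τ ω)] [∀ ω, Finite (J' ω)] (g' : ∀ ω, J' ω → MvPolynomial (τ ω) ℂ)
    (D : Ω → Set (ℤ × ℤ)) (f : ∀ ω, τ ω → MvPolynomial σ ℂ) (h : Ω → MvPolynomial σ ℂ)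
    (hg' : ∀ ω, zetaJ (g' ω) ∈ ratRing ℂ (D ω))
    (he : ∀ ω, EqOff (h ω) g fun l => bind₁ (f ω) (g' ω l))
    (hu : ∀ u : σ → ℂ, u ≠ 0 → (∀ j, eval u (g j) = 0) →
      (∃ ω, Center (f ω) (h ω) u) ∨ LocFold g u) :
    zetaJ g ∈ ratRing ℂ (coneD g d D f h) := by
  classical
  obtain ⟨M, hL, hM⟩ := exists_meas ℂ
  have hLw : M.L * (((Lu ℂ)⁻¹ : (MK ℂ)ˣ) : MK ℂ) = 1 := by rw [hL, Units.mul_inv]
  have hadd : Add M (((Lu ℂ)⁻¹ : (MK ℂ)ˣ) : MK ℂ) g := (hREC g d hd hg M _ hLw).2.1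
  refine Core.zeta_of g _ M hM (Core.core g hREC d hd hg _ (Or.inl rfl) M hL
    (Ω := Σ ω, {κ0 : τ ω → σ // Function.Injective κ0})
    (fun ω => {x : Pt ℂ σ | (∀ i, aeval x (f ω.1 i) = 0) ∧ aeval x (h ω.1) ≠ 0 ∧
      (jac (f ω.1) ω.2.1 x).det ≠ 0}) ?_ ?_ ?_)
  · rintro ⟨ω, κ0, hκ0⟩
    refine Constr.and (Constr.all fun i => Constr.eqz (IsPF.poly _)) (Constr.and
      (Constr.ne (IsPF.poly _) IsPF.zero) ?_)
    have h5 : ∀ x : Pt ℂ σ, aeval x (Matrix.of fun i j => pderiv (κ0 j) (f ω i) :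
        Matrix (τ ω) (τ ω) (MvPolynomial σ ℂ)).det = (jac (f ω) κ0 x).det := by
      intro x
      rw [AlgHom.map_det]
      rfl
    simp only [← h5]
    exact Constr.ne (IsPF.poly _) IsPF.zero
  · rintro ⟨ω, κ0, hκ0⟩ B hBC hB hB0 hBg
    rcases B.eq_empty_or_nonempty with hne | ⟨x, hx⟩
    · rw [hne, zf_empty hadd]
      exact Subalgebra.zero_mem _
    · refine Rat2.ratU_mono (Lu ℂ) ?_ (center_mem hFIB hORDT M hL hM g (g' ω) (f ω) (h ω) (he ω)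
        κ0 hκ0 (D ω) (hg' ω) B hB (fun y hy => funext (hBC hy).1) (fun y hy => (hBC hy).2.1)
        fun y hy => (hBC hy).2.2)
      intro q hq
      obtain ⟨w, hw⟩ := exists_pt x
      have hxC := hBC hx
      rw [← hw] at hxC
      refine Or.inr ⟨w, ?_, fun j => ?_, Or.inr ⟨ω, ⟨fun i => ?_, ?_, ?_⟩, hq⟩⟩
      · intro h5
        apply hB0 x hx
        rw [← hw, h5]
        funext i
        simp
      · have h5 := hBg x hx j
        rw [← hw, aevalA] at h5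
        exact injA (by rw [h5, map_zero])
      · have h5 := hxC.1 i
        rw [aevalA] at h5
        exact injA (by rw [h5, map_zero])
      · have h5 := hxC.2.2
        rw [jac_det] at h5
        exact indep_of_det _ κ0 fun h6 => h5 (by rw [h6, map_zero])
      · intro h5
        apply hxC.2.1
        rw [aevalA, h5, map_zero]
  · intro u hu0 hug
    rcases hu u hu0 hug with ⟨ω, h1, h2, h3⟩ | hloc
    · left
      obtain ⟨κ0, hκ0, hdet⟩ := Small.minor _ h2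
      refine ⟨⟨ω, κ0, hκ0⟩, fun i => ?_, ?_, ?_⟩
      · rw [aevalA, h1 i, map_zero]
      · rw [aevalA]
        intro h5
        exact h3 (injA (by rw [h5, map_zero]))
      · rw [jac_det]
        intro h5
        exact hdet (injA (by rw [h5, map_zero]))
    · right
      obtain ⟨τ', S, iτ, iS, κ, hκ, c, P, hP, f', h', hch⟩ := hloc
      refine LR_of_chart g hORDT hZST M hL hadd c P hP f' h' u hch _ ?_
      intro w hw hwg hchw A hA hyA hpos
      exact Or.inr ⟨w, hw, hwg, Or.inl ⟨τ', S, iτ, iS, κ, hκ, c, P, hP, f', h', hchw, A, hA, hyA,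
        hpos, rfl⟩⟩

theorem cone (hVMON : S_VMON) {σ J : Type} [Fintype σ] [Finite J] (g : J → MvPolynomial σ ℂ)
    (d : ℕ) (hd : 0 < d) (hg : ∀ j, (g j).IsHomogeneous d) {Ω : Type} [Finite Ω]
    (τ J' : Ω → Type) [∀ ω, Fintype (τ ω)] [∀ ω, Finite (J' ω)]
    (g' : ∀ ω, J' ω → MvPolynomial (τ ω) ℂ)
    (D : Ω → Set (ℤ × ℤ)) (f : ∀ ω, τ ω → MvPolynomial σ ℂ) (h : Ω → MvPolynomial σ ℂ)
    (hg' : ∀ ω, Gd (g' ω) (D ω)) (he : ∀ ω, EqOff (h ω) g fun l => bind₁ (f ω) (g' ω l))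
    (hu : ∀ u : σ → ℂ, u ≠ 0 → (∀ j, eval u (g j) = 0) →
      (∃ ω, Center (f ω) (h ω) u) ∨ LocFold g u)
    (hv : (Nonempty σ ∧ ∃ ι : σ → J, AlgebraicIndependent ℂ fun i => g (ι i)) ∨
      ∃ u : σ → ℂ, u ≠ 0 ∧ ∃ q, LocPair g u q ∧ (d : ℤ) ∣ Fintype.card σ * q.2) :
    Gd g (coneD g d D f h) := by
  refine ⟨?_, cone_zeta g d hd hg τ J' g' D f h (fun ω => (hg' ω).2.1) he hu, ?_⟩
  · rintro q (rfl | ⟨u, -, -, hq | ⟨ω, -, hq⟩⟩)
    · exact Int.natCast_pos.2 hd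
    · exact locPair_pos hq
    · exact (hg' ω).1 q hq
  · rintro q (rfl | ⟨u, hu0, hug, hq | ⟨ω, hω, hq⟩⟩)
    · rcases hv with ⟨hσ, ι, hι⟩ | ⟨u, hu0, q, hq, k, hk⟩
      · obtain ⟨y, k, hk, hy⟩ := hVMON g ι d hd hg hι
        refine real_single _ _ d (ratio' hd rfl) fun ε hε => ⟨0, by simpa using hε, y, k, ?_, hy⟩
        exact_mod_cast hk.ne'
      · refine real_single _ _ q.2.toNat ?_ fun ε hε => ?_
        · refine ⟨-k, ?_⟩
          have h2 : ((q.2.toNat : ℕ) : ℚ) = (q.2 : ℚ) := by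
            have := Int.toNat_of_nonneg (locPair_pos hq).le
            exact_mod_cast congrArg (fun x : ℤ => (x : ℚ)) this
          have h3 : ((Fintype.card σ : ℤ) : ℚ) * (q.2 : ℚ) = ((d : ℤ) : ℚ) * (k : ℚ) := by
            exact_mod_cast hk
          have hd' : ((d : ℤ) : ℚ) ≠ 0 := by exact_mod_cast hd.ne'
          rw [h2]
          push_cast at h3 hd' ⊢
          rw [div_mul_eq_mul_div, div_eq_iff hd', neg_mul, h3]
          ring
        · obtain ⟨p, y, hp, hy⟩ := Real.chart g hNEAR hSCALE hLIFT d hg u q hq ε hε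
          exact ⟨p, hp, y, 1, one_ne_zero, hy⟩
    · refine real_single _ _ q.2.toNat (ratio (locPair_pos hq)) fun ε hε => ?_
      obtain ⟨p, y, hp, hy⟩ := Real.chart g hNEAR hSCALE hLIFT d hg u q hq ε hε
      exact ⟨p, hp, y, 1, one_ne_zero, hy⟩
    · exact real_cone hNEAR hSCALE hLIFT g d hg (g' ω) (f ω) (h ω) (he ω) u hω _
        ((hg' ω).2.2 q hq)

/-- **The theorem.** -/
theorem main (hVMON : S_VMON) {σ J : Type} (g : J → MvPolynomial σ ℂ) (D : Set (ℤ × ℤ))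
    (h : Germ g D) : ∀ [Fintype σ] [Finite J], Gd g D := by
  induction h with
  | @fold σ S iσ iS κ hκ c P hP hc hG hX =>
    intro iσ' _
    obtain rfl : iσ = iσ' := Subsingleton.elim _ _
    exact fold c P hP hc hG hX
  | @prod σ S iσ iS dS κ hκ c e he hc =>
    intro iσ' _
    obtain rfl : iσ = iσ' := Subsingleton.elim _ _
    exact prod c e he hc
  | @pull σ J τ J' _ _ _ _ g g' D f h hg' hf he ih =>
    intro iσ' _
    haveI := Fintype.ofFinite τ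
    exact pull g g' D f h ih hf he
  | @cone σ J iσ _ g d hd hg Ω _ τ J' _ _ g' D f h hg' he hu hv ih =>
    intro iσ' _
    obtain rfl : iσ = iσ' := Subsingleton.elim _ _
    haveI := fun ω => Fintype.ofFinite (τ ω)
    exact cone hVMON g d hd hg τ J' g' D f h (fun ω => ih ω) he hu hv

end Pool.Agent.D0H67.CX.Good
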