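import Pool.Agent.D0H67.CX.Real2
import Pool.Agent.D0H67.CX.Good

/-! # The theorem for the class of germs with families of cones: induction -/

set_option autoImplicit false
set_option linter.unusedSectionVars false
set_option linter.unusedVariables false

namespace Pool.Agent.D0H67.CX.Fam

open MvPolynomial Pool.Agent.W428.MOT Pool.Agent.TH192.MT Pool.Agent.TH192.DT
  Pool.Agent.D0H67.SUB Pool.Agent.D0H67.PM Pool.Agent.D0H67.CX.Loc Pool.Agent.D0H67.CX.GermT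
  Pool.Agent.D0H67.CX.Good

/-- the pairs of a cone -/
def coneD {σ J : Type} [Fintype σ] (g : J → MvPolynomial σ ℂ) (w : σ → ℕ) (d : ℕ) {Ω : Type}
    {τ : Ω → Type} (D : Ω → Set (ℤ × ℤ)) (f : ∀ ω, τ ω → MvPolynomial σ ℂ)
    (h : Ω → MvPolynomial σ ℂ) : Set (ℤ × ℤ) :=
  {q | q = (-((∑ i, w i : ℕ) : ℤ), (d : ℤ)) ∨ ∃ u : σ → ℂ, Pts g w u ∧
    (LocPair g u q ∨ ∃ ω, Center (f ω) (h ω) u ∧ q ∈ D ω)}

theorem cone_zeta (hADD : S_ADD2) (hREC : S_REC2) {σ J : Type} [Fintype σ] [Finite J]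
    (g : J → MvPolynomial σ ℂ) (w : σ → ℕ) (hw : ∀ i, w i ≤ 1) (d : ℕ)
    (hd : 0 < d) (hg : ∀ j, IsWeightedHomogeneous w (g j) d) {Ω : Type} [Finite Ω]
    (τ J' : Ω → Type) [∀ ω, Fintype (τ ω)] [∀ ω, Finite (J' ω)]
    (g' : ∀ ω, J' ω → MvPolynomial (τ ω) ℂ)
    (D : Ω → Set (ℤ × ℤ)) (f : ∀ ω, τ ω → MvPolynomial σ ℂ) (h : Ω → MvPolynomial σ ℂ)
    (hg' : ∀ ω, zetaJ (g' ω) ∈ ratRing ℂ (D ω))
    (he : ∀ ω, EqOff (h ω) g fun l => bind₁ (f ω) (g' ω l))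
    (hu : ∀ u : σ → ℂ, Pts g w u → (∃ ω, Center (f ω) (h ω) u) ∨ LocFold g u) :
    zetaJ g ∈ ratRing ℂ (coneD g w d D f h) := by
  classical
  obtain ⟨M, hL, hM⟩ := exists_meas ℂ
  have hLw : M.L * (((Lu ℂ)⁻¹ : (MK ℂ)ˣ) : MK ℂ) = 1 := by rw [hL, Units.mul_inv]
  have hadd : Add M (((Lu ℂ)⁻¹ : (MK ℂ)ˣ) : MK ℂ) g := (hADD g M _ hLw).1
  refine Core.zeta_of g _ M hM (core g hADD hREC w hw d hd hg _ (Or.inl rfl) M hL
    (Ω := Σ ω, {κ0 : τ ω → σ // Function.Injective κ0})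
    (fun ω => {x : Pt ℂ σ | (∀ i, aeval x (f ω.1 i) = 0) ∧ aeval x (h ω.1) ≠ 0 ∧
      (jac (f ω.1) ω.2.1 x).det ≠ 0}) ?_ ?_ ?_)
  · rintro ⟨ω, κ0, hκ0⟩
    refine Constr.and (Constr.all fun i => Constr.eqz (IsPF.poly _)) (Constr.and
      (Constr.ne (IsPF.poly _) IsPF.zero) ?_)
    have h5 : ∀ x : Pt ℂ σ, aeval x (Matrix.of fun i j => pderiv (κ0 j) (f ω i) :
        Matrix (τ ω) (τ ω) (MvPolynomial σ ℂ)).det = (jac (f ω) κ0 x).det := by
      intro x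
      rw [AlgHom.map_det]
      rfl
    simp only [← h5]
    exact Constr.ne (IsPF.poly _) IsPF.zero
  · rintro ⟨ω, κ0, hκ0⟩ B hBC hB hBW
    rcases B.eq_empty_or_nonempty with hne | ⟨x, hx⟩
    · rw [hne, zf_empty hadd]
      exact Subalgebra.zero_mem _
    · refine Rat2.ratU_mono (Lu ℂ) ?_ (center_mem hFIB hORDT M hL hM g (g' ω) (f ω) (h ω) (he ω)
        κ0 hκ0 (D ω) (hg' ω) B hB (fun y hy => funext (hBC hy).1) (fun y hy => (hBC hy).2.1)
        fun y hy => (hBC hy).2.2)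
      intro q hq
      obtain ⟨z, hz⟩ := exists_pt x
      have hxC := hBC hx
      rw [← hz] at hxC
      refine Or.inr ⟨z, (mem_WW g w z).1 (by rw [hz]; exact hBW hx), Or.inr ⟨ω, ⟨fun i => ?_, ?_,
        ?_⟩, hq⟩⟩
      · have h5 := hxC.1 i
        rw [aevalA] at h5
        exact injA (by rw [h5, map_zero])
      · have h5 := hxC.2.2
        rw [jac_det] at h5
        exact indep_of_det _ κ0 fun h6 => h5 (by rw [h6, map_zero])
      · intro h5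
        apply hxC.2.1
        rw [aevalA, h5, map_zero]
  · intro u huW
    rcases hu u huW with ⟨ω, h1, h2, h3⟩ | hloc
    · left
      obtain ⟨κ0, hκ0, hdet⟩ := Small.minor _ h2
      refine ⟨⟨ω, κ0, hκ0⟩, fun i => ?_, ?_, ?_⟩
      · rw [aevalA, h1 i, map_zero]
      · rw [aevalA]
        intro h5
        exact h3 (injA (by rw [h5, map_zero]))
      · rw [jac_det]
        intro h5
        exact hdet (injA (by rw [h5, map_zero]))
    · right
      obtain ⟨τ', S, iτ, iS, κ, hκ, c, P, hP, f', h', hch⟩ := hloc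
      refine LR_of_chart g hORDT hZST M hL hadd (WW g w) (QQ g w)
        (fun z hz => (mem_WW g w z).1 hz) c P hP f' h' u hch _ ?_
      intro z hz hchz A hA hyA hpos
      exact Or.inr ⟨z, hz, Or.inl ⟨τ', S, iτ, iS, κ, hκ, c, P, hP, f', h', hchz, A, hA, hyA,
        hpos, rfl⟩⟩

theorem cone (hADD : S_ADD2) (hREC : S_REC2) (hSCALE : S_SCALE2) (hVMON : S_VMON2)
    {σ J : Type} [Fintype σ] [Finite J] (g : J → MvPolynomial σ ℂ) (w : σ → ℕ)
    (hw : ∀ i, w i ≤ 1) (d : ℕ) (hd : 0 < d) (hg : ∀ j, IsWeightedHomogeneous w (g j) d)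
    {Ω : Type} [Finite Ω] (τ J' : Ω → Type) [∀ ω, Fintype (τ ω)] [∀ ω, Finite (J' ω)]
    (g' : ∀ ω, J' ω → MvPolynomial (τ ω) ℂ)
    (D : Ω → Set (ℤ × ℤ)) (f : ∀ ω, τ ω → MvPolynomial σ ℂ) (h : Ω → MvPolynomial σ ℂ)
    (hg' : ∀ ω, Gd (g' ω) (D ω)) (he : ∀ ω, EqOff (h ω) g fun l => bind₁ (f ω) (g' ω l))
    (hu : ∀ u : σ → ℂ, Pts g w u → (∃ ω, Center (f ω) (h ω) u) ∨ LocFold g u)
    (hv : ((∃ i, w i = 1) ∧ ∃ ι : σ → J,
          AlgebraicIndependent ℂ fun i => if w i = 1 then g (ι i) else X i) ∨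
        ∃ u : σ → ℂ, Pts g w u ∧ ∃ q, LocPair g u q ∧ (d : ℤ) ∣ (∑ i, w i : ℕ) * q.2) :
    Gd g (coneD g w d D f h) := by
  classical
  have hchart : ∀ (u : σ → ℂ), Pts g w u → ∀ q, LocPair g u q → ∀ s₀ : ℚ,
      (∃ k : ℤ, s₀ * (q.2.toNat : ℚ) = k) → RealS g s₀ := by
    intro u huP q hq s₀ hs
    refine real_single _ _ q.2.toNat hs fun ε hε => ?_
    obtain ⟨p, hp, y, b, h1, h2⟩ := scale g hSCALE w hw d hg u huP.1.2
      (fun b => b = Finsupp.single q.2.toNat 1) (fun ε hε => by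
        obtain ⟨p, hp, y, hy⟩ := chart g hNEAR hLIFT u q hq ε hε
        exact ⟨p, hp, y, _, hy, rfl⟩) ε hε
    exact ⟨p, hp, y, 1, one_ne_zero, by rw [← h2]; exact h1⟩
  refine ⟨?_, cone_zeta hADD hREC g w hw d hd hg τ J' g' D f h (fun ω => (hg' ω).2.1) he hu, ?_⟩
  · rintro q (rfl | ⟨u, -, hq | ⟨ω, -, hq⟩⟩)
    · exact Int.natCast_pos.2 hd
    · exact locPair_pos hq
    · exact (hg' ω).1 q hq
  · rintro q (rfl | ⟨u, huP, hq | ⟨ω, hω, hq⟩⟩)
    · rcases hv with ⟨hσ, ι, hι⟩ | ⟨u, huP, q, hq, k, hk⟩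
      · refine real_single _ _ d (ratio' hd rfl) fun ε hε => ?_
        obtain ⟨p, hp, y, k, hk, hy⟩ := hVMON g ι w d hw hσ hd hg hι ε hε
        exact ⟨p, hp, y, k, by exact_mod_cast hk.ne', hy⟩
      · refine hchart u huP q hq _ ⟨-k, ?_⟩
        have h2 : ((q.2.toNat : ℕ) : ℚ) = (q.2 : ℚ) := by
          have := Int.toNat_of_nonneg (locPair_pos hq).le
          exact_mod_cast congrArg (fun x : ℤ => (x : ℚ)) this
        have h3 : (((∑ i, w i : ℕ) : ℤ) : ℚ) * (q.2 : ℚ) = ((d : ℤ) : ℚ) * (k : ℚ) := by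
          exact_mod_cast hk
        have hd' : ((d : ℤ) : ℚ) ≠ 0 := by exact_mod_cast hd.ne'
        rw [h2]
        generalize (∑ i, w i : ℕ) = n at h3 ⊢
        push_cast at h3 hd' ⊢
        rw [div_mul_eq_mul_div, div_eq_iff hd', neg_mul, h3]
        ring
    · exact hchart u huP q hq _ (ratio (locPair_pos hq))
    · intro ε hε
      exact scale g hSCALE w hw d hg u huP.1.2
        (fun b => ∑ M ∈ b.support.filter (fun M : ℕ => ∃ k : ℤ,
          ((q.1 : ℚ) / q.2) * (M : ℚ) = k), b M ≠ 0)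
        (fun ε hε => lift_real hNEAR hLIFT g (g' ω) (f ω) (h ω) (he ω) u hω _
          ((hg' ω).2.2 q hq) ε hε) ε hε

/-- **The theorem.** -/
theorem main (hADD : S_ADD2) (hREC : S_REC2) (hSCALE : S_SCALE2) (hVMON : S_VMON2)
    {σ J : Type} (g : J → MvPolynomial σ ℂ) (D : Set (ℤ × ℤ))
    (h : Germ g D) : ∀ [Fintype σ] [Finite J], Gd g D := by
  induction h with
  | @fold σ S iσ iS κ hκ c P hP hc hG hX =>
    intro iσ' _
    obtain rfl : iσ = iσ' := Subsingleton.elim _ _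
    exact Good.fold c P hP hc hG hX
  | @prod σ S iσ iS dS κ hκ c e he hc =>
    intro iσ' _
    obtain rfl : iσ = iσ' := Subsingleton.elim _ _
    exact Good.prod c e he hc
  | @pull σ J τ J' _ _ _ _ g g' D f h hg' hf he ih =>
    intro iσ' _
    haveI := Fintype.ofFinite τ
    exact Good.pull g g' D f h ih hf he
  | @cone σ J iσ _ g w hw d hd hg Ω _ τ J' _ _ g' D f h hg' he hu hv ih =>
    intro iσ' _
    obtain rfl : iσ = iσ' := Subsingleton.elim _ _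
    haveI := fun ω => Fintype.ofFinite (τ ω)
    exact cone hADD hREC hSCALE hVMON g w hw d hd hg τ J' g' D f h (fun ω => ih ω) he hu hv

end Pool.Agent.D0H67.CX.Fam
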