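import Pool.Agent.D0H67.CX.Real3
import Pool.Agent.D0H67.CX.Core3
import Pool.Agent.D0H67.CX.Good

/-! # The theorem for the class of germs with families of quasi-homogeneous cones: induction -/

set_option autoImplicit false
set_option linter.unusedSectionVars false
set_option linter.unusedVariables false

namespace Pool.Agent.D0H67.CX.Qh

open MvPolynomial Pool.Agent.W428.MOT Pool.Agent.TH192.MT Pool.Agent.TH192.DT
  Pool.Agent.D0H67.SUB Pool.Agent.D0H67.PM Pool.Agent.D0H67.CX.Loc Pool.Agent.D0H67.CX.GermT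
  Pool.Agent.D0H67.CX.Good

/-- the pairs of a cone -/
def coneD {σ J : Type} [Fintype σ] (g : J → MvPolynomial σ ℂ) (w : σ → ℕ) (d : ℕ) {Ω : Type}
    {τ : Ω → Type} (D : Ω → Set (ℤ × ℤ)) (f : ∀ ω, τ ω → MvPolynomial σ ℂ)
    (h : Ω → MvPolynomial σ ℂ) : Set (ℤ × ℤ) :=
  {q | q = (-((∑ i, w i : ℕ) : ℤ), (d : ℤ)) ∨ ∃ u : σ → ℂ, Pts g w u ∧
    (LocPair g u q ∨ ∃ ω, Center (f ω) (h ω) u ∧ q ∈ D ω)}

theorem cone_zeta (hADD : S_ADD2) (hREC : S_REC3) {σ J : Type} [Fintype σ] [Finite J]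
    (g : J → MvPolynomial σ ℂ) (w : σ → ℕ) (d : ℕ)
    (hd : 0 < d) (hg : ∀ j, IsWeightedHomogeneous w (g j) d)
    (hw : ∀ u : σ → ℂ, Pts g w u → ∀ k : ℕ, (∀ i, u i ≠ 0 → k ∣ w i) → k = 1)
    {Ω : Type} [Finite Ω]
    (τ J' : Ω → Type) [∀ ω, Fintype (τ ω)] [∀ ω, Finite (J' ω)]
    (g' : ∀ ω, J' ω → MvPolynomial (τ ω) ℂ)
    (D : Ω → Set (ℤ × ℤ)) (f : ∀ ω, τ ω → MvPolynomial σ ℂ) (h : Ω → MvPolynomial σ ℂ)
    (hg' : ∀ ω, zetaJ (g' ω) ∈ ratRing ℂ (D ω))
    (he : ∀ ω, EqOff (h ω) g fun l => bind₁ (f ω) (g' ω l))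
    (hu : ∀ u : σ → ℂ, Pts g w u → (∃ ω, Center (f ω) (h ω) u) ∨ LocFold g u) :
    zetaJ g ∈ ratRing ℂ (coneD g w d D f h) := by
  classical
  obtain ⟨M, hL, hM⟩ := exists_meas ℂ
  have hLw : M.L * (((Lu ℂ)⁻¹ : (MK ℂ)ˣ) : MK ℂ) = 1 := by rw [hL, Units.mul_inv]
  have hadd : Add M (((Lu ℂ)⁻¹ : (MK ℂ)ˣ) : MK ℂ) g := (hADD g M _ hLw).1
  refine Core.zeta_of g _ M hM (core g hADD hREC w d hd hg hw _ (Or.inl rfl) M hL
    (Ω := Σ ω, {κ0 : τ ω → σ // Function.Injective κ0})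
    (fun ω => {x : Pt ℂ σ | (∀ i, aeval x (f ω.1 i) = 0) ∧ aeval x (h ω.1) ≠ 0 ∧
      (jac (f ω.1) ω.2.1 x).det ≠ 0}) ?_ ?_ ?_)
  · rintro ⟨ω, κ0, hκ0⟩
    refine Constr.and (Constr.all fun i => Constr.eqz (IsPF.poly _)) (Constr.and
      (Constr.ne (IsPF.poly _) IsPF.zero) ?_)
    have h5 : ∀ x : Pt ℂ σ, aeval x (Matrix.of fun i j => pderiv (κ0 j) (f ω i) :
        Matrix (τ ω) (τ ω) (MvPolynomial σ ℂ)).det = (jac (f ω) κ0 x).det := by
      intro x
      rw [AlgHom.map_det]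
      rfl
    simp only [← h5]
    exact Constr.ne (IsPF.poly _) IsPF.zero
  · rintro ⟨ω, κ0, hκ0⟩ B hBC hB hBW
    rcases B.eq_empty_or_nonempty with hne | ⟨x, hx⟩
    · rw [hne, zf_empty hadd]
      exact Subalgebra.zero_mem _
    · refine Rat2.ratU_mono (Lu ℂ) ?_ (center_mem hFIB hORDT M hL hM g (g' ω) (f ω) (h ω) (he ω)
        κ0 hκ0 (D ω) (hg' ω) B hB (fun y hy => funext (hBC hy).1) (fun y hy => (hBC hy).2.1)
        fun y hy => (hBC hy).2.2)
      intro q hq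
      obtain ⟨z, hz⟩ := exists_pt x
      have hxC := hBC hx
      rw [← hz] at hxC
      refine Or.inr ⟨z, (Fam.mem_WW g w z).1 (by rw [hz]; exact hBW hx), Or.inr ⟨ω, ⟨fun i => ?_, ?_,
        ?_⟩, hq⟩⟩
      · have h5 := hxC.1 i
        rw [aevalA] at h5
        exact injA (by rw [h5, map_zero])
      · have h5 := hxC.2.2
        rw [jac_det] at h5
        exact indep_of_det _ κ0 fun h6 => h5 (by rw [h6, map_zero])
      · intro h5
        apply hxC.2.1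
        rw [aevalA, h5, map_zero]
  · intro u huW
    rcases hu u huW with ⟨ω, h1, h2, h3⟩ | hloc
    · left
      obtain ⟨κ0, hκ0, hdet⟩ := Small.minor _ h2
      refine ⟨⟨ω, κ0, hκ0⟩, fun i => ?_, ?_, ?_⟩
      · rw [aevalA, h1 i, map_zero]
      · rw [aevalA]
        intro h5
        exact h3 (injA (by rw [h5, map_zero]))
      · rw [jac_det]
        intro h5
        exact hdet (injA (by rw [h5, map_zero]))
    · right
      obtain ⟨τ', S, iτ, iS, κ, hκ, c, P, hP, f', h', hch⟩ := hloc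
      refine Fam.LR_of_chart g hORDT hZST M hL hadd (Fam.WW g w) (Fam.QQ g w)
        (fun z hz => (Fam.mem_WW g w z).1 hz) c P hP f' h' u hch _ ?_
      intro z hz hchz A hA hyA hpos
      exact Or.inr ⟨z, hz, Or.inl ⟨τ', S, iτ, iS, κ, hκ, c, P, hP, f', h', hchz, A, hA, hyA,
        hpos, rfl⟩⟩

theorem cone (hADD : S_ADD2) (hREC : S_REC3) (hSCALE : S_SCALE2) (hVMON : S_VMON3)
    {σ J : Type} [Fintype σ] [Finite J] (g : J → MvPolynomial σ ℂ) (w : σ → ℕ)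
    (d : ℕ) (hd : 0 < d) (hg : ∀ j, IsWeightedHomogeneous w (g j) d)
    (hw : ∀ u : σ → ℂ, Pts g w u → ∀ k : ℕ, (∀ i, u i ≠ 0 → k ∣ w i) → k = 1)
    {Ω : Type} [Finite Ω] (τ J' : Ω → Type) [∀ ω, Fintype (τ ω)] [∀ ω, Finite (J' ω)]
    (g' : ∀ ω, J' ω → MvPolynomial (τ ω) ℂ)
    (D : Ω → Set (ℤ × ℤ)) (f : ∀ ω, τ ω → MvPolynomial σ ℂ) (h : Ω → MvPolynomial σ ℂ)
    (hg' : ∀ ω, Gd (g' ω) (D ω)) (he : ∀ ω, EqOff (h ω) g fun l => bind₁ (f ω) (g' ω l))
    (hu : ∀ u : σ → ℂ, Pts g w u → (∃ ω, Center (f ω) (h ω) u) ∨ LocFold g u)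
    (hv : ((∀ k : ℕ, (∀ i, k ∣ w i) → k = 1) ∧ ∃ ι : σ → J,
          AlgebraicIndependent ℂ fun i => if w i = 0 then X i else g (ι i)) ∨
        ∃ u : σ → ℂ, Pts g w u ∧ ∃ q, LocPair g u q ∧ (d : ℤ) ∣ (∑ i, w i : ℕ) * q.2) :
    Gd g (coneD g w d D f h) := by
  classical
  have hchart : ∀ (u : σ → ℂ), Pts g w u → ∀ q, LocPair g u q → ∀ s₀ : ℚ,
      (∃ k : ℤ, s₀ * (q.2.toNat : ℚ) = k) → RealS g s₀ := by
    intro u huP q hq s₀ hs
    refine real_single _ _ q.2.toNat hs fun ε hε => ?_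
    obtain ⟨p, hp, y, b, h1, h2⟩ := scale g hSCALE w d hg u huP.1.2
      (fun b => b = Finsupp.single q.2.toNat 1) (fun ε hε => by
        obtain ⟨p, hp, y, hy⟩ := Fam.chart g hNEAR hLIFT u q hq ε hε
        exact ⟨p, hp, y, _, hy, rfl⟩) ε hε
    exact ⟨p, hp, y, 1, one_ne_zero, by rw [← h2]; exact h1⟩
  refine ⟨?_, cone_zeta hADD hREC g w d hd hg hw τ J' g' D f h (fun ω => (hg' ω).2.1) he hu, ?_⟩
  · rintro q (rfl | ⟨u, -, hq | ⟨ω, -, hq⟩⟩)
    · exact Int.natCast_pos.2 hd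
    · exact locPair_pos hq
    · exact (hg' ω).1 q hq
  · rintro q (rfl | ⟨u, huP, hq | ⟨ω, hω, hq⟩⟩)
    · rcases hv with ⟨hσ, ι, hι⟩ | ⟨u, huP, q, hq, k, hk⟩
      · refine real_single _ _ d (ratio' hd rfl) fun ε hε => ?_
        obtain ⟨p, hp, y, k, hk, hy⟩ := hVMON g ι w d hσ hd hg hι ε hε
        exact ⟨p, hp, y, k, by exact_mod_cast hk.ne', hy⟩
      · refine hchart u huP q hq _ ⟨-k, ?_⟩
        have h2 : ((q.2.toNat : ℕ) : ℚ) = (q.2 : ℚ) := by
          have := Int.toNat_of_nonneg (locPair_pos hq).le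
          exact_mod_cast congrArg (fun x : ℤ => (x : ℚ)) this
        have h3 : (((∑ i, w i : ℕ) : ℤ) : ℚ) * (q.2 : ℚ) = ((d : ℤ) : ℚ) * (k : ℚ) := by
          exact_mod_cast hk
        have hd' : ((d : ℤ) : ℚ) ≠ 0 := by exact_mod_cast hd.ne'
        rw [h2]
        generalize (∑ i, w i : ℕ) = n at h3 ⊢
        push_cast at h3 hd' ⊢
        rw [div_mul_eq_mul_div, div_eq_iff hd', neg_mul, h3]
        ring
    · exact hchart u huP q hq _ (ratio (locPair_pos hq))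
    · intro ε hε
      exact scale g hSCALE w d hg u huP.1.2
        (fun b => ∑ M ∈ b.support.filter (fun M : ℕ => ∃ k : ℤ,
          ((q.1 : ℚ) / q.2) * (M : ℚ) = k), b M ≠ 0)
        (fun ε hε => lift_real hNEAR hLIFT g (g' ω) (f ω) (h ω) (he ω) u hω _
          ((hg' ω).2.2 q hq) ε hε) ε hε

/-- products in disjoint variables -/
theorem ext (hPRODZ : S_PRODZ) {σ J τ J' : Type} [Fintype σ] [Finite J] [Fintype τ] [Finite J']
    (g : J → MvPolynomial σ ℂ) (g' : J' → MvPolynomial τ ℂ) (D D' : Set (ℤ × ℤ))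
    (hg : Gd g D) (hg' : Gd g' D') (h0 : ∃ j, g j ≠ 0) (h0' : ∃ l, g' l ≠ 0) :
    Gd (extG g g') (D ∪ D') := by
  classical
  refine ⟨?_, ?_, ?_⟩
  · rintro q (hq | hq)
    · exact hg.1 q hq
    · exact hg'.1 q hq
  · obtain ⟨M, hL, hM⟩ := exists_meas ℂ
    have hLw : M.L * (((Lu ℂ)⁻¹ : (MK ℂ)ˣ) : MK ℂ) = 1 := by rw [hL, Units.mul_inv]
    refine Core.zeta_of _ _ M hM ?_
    rw [hPRODZ g g' M _ hLw]
    exact Subalgebra.mul_mem _
      (Rat2.ratU_mono (Lu ℂ) Set.subset_union_left (Core.of_zeta g D M hM hg.2.1))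
      (Rat2.ratU_mono (Lu ℂ) Set.subset_union_right (Core.of_zeta g' D' M hM hg'.2.1))
  · rintro q (hq | hq)
    · exact real_ext hNEAR hLIFT g g' h0' _ (hg.2.2 q hq)
    · have h1 := real_ext hNEAR hLIFT g' g h0 _ (hg'.2.2 q hq)
      have hb : ∀ (j : J) (l : J'), bind₁ (fun i : τ ⊕ σ => (X i.swap : MvPolynomial (σ ⊕ τ) ℂ))
          (extG g' g (l, j)) = extG g g' (j, l) := by
        intro j l
        have h2 : ∀ p : MvPolynomial τ ℂ, bind₁ (fun i : τ ⊕ σ =>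
            (X i.swap : MvPolynomial (σ ⊕ τ) ℂ)) (rename Sum.inl p) = rename Sum.inr p := by
          intro p
          rw [bind₁_rename]
          induction p using MvPolynomial.induction_on with
          | C a => simp
          | add p q hp hq => rw [map_add, map_add, hp, hq]
          | mul_X p i hp => rw [map_mul, map_mul, hp, bind₁_X_right, rename_X]; rfl
        have h3 : ∀ p : MvPolynomial σ ℂ, bind₁ (fun i : τ ⊕ σ =>
            (X i.swap : MvPolynomial (σ ⊕ τ) ℂ)) (rename Sum.inr p) = rename Sum.inl p := by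
          intro p
          rw [bind₁_rename]
          induction p using MvPolynomial.induction_on with
          | C a => simp
          | add p q hp hq => rw [map_add, map_add, hp, hq]
          | mul_X p i hp => rw [map_mul, map_mul, hp, bind₁_X_right, rename_X]; rfl
        unfold extG
        rw [map_mul, h2, h3, mul_comm]
      refine real_pull hNEAR hLIFT (extG g g') (extG g' g)
        (fun i : τ ⊕ σ => (X i.swap : MvPolynomial (σ ⊕ τ) ℂ)) 1 ⟨?_, ?_⟩ ⟨?_, ?_, ?_⟩ _ h1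
      · rintro ⟨j, l⟩
        rw [one_mul]
        exact Ideal.subset_span ⟨(l, j), hb j l⟩
      · rintro ⟨l, j⟩
        rw [one_mul]
        exact Ideal.subset_span ⟨(j, l), (hb j l).symm⟩
      · intro i
        rw [eval_X]
        rfl
      · rw [Fintype.linearIndependent_iff]
        intro a ha i
        have h4 := congrFun ha i.swap
        rw [Finset.sum_apply, Finset.sum_eq_single i] at h4
        · simpa [pderiv_X] using h4
        · intro b _ hb'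
          rw [Pi.smul_apply, pderiv_X, Pi.single_eq_of_ne (by
            intro h2
            have h5 := congrArg Sum.swap h2
            rw [Sum.swap_swap, Sum.swap_swap] at h5
            exact hb' h5), map_zero, smul_zero]
        · intro h2
          exact absurd (Finset.mem_univ i) h2
      · rw [map_one]
        exact one_ne_zero

/-- powers -/
theorem pow (hPOWZ : S_POWZ) (hPOWR : S_POWR) (hPOWM : S_POWM) {σ J : Type} [Fintype σ]
    [Finite J] (g : J → MvPolynomial σ ℂ) (D : Set (ℤ × ℤ)) (m : ℕ) (hm : 0 < m) (hg : Gd g D) :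
    Gd (powG g m) {q | ∃ p ∈ D, q = (p.1, (m : ℤ) * p.2)} := by
  classical
  have hm' : (0 : ℤ) < (m : ℤ) := Int.natCast_pos.2 hm
  refine ⟨?_, ?_, ?_⟩
  · rintro q ⟨p, hp, rfl⟩
    exact mul_pos hm' (hg.1 p hp)
  · obtain ⟨M, hL, hM⟩ := exists_meas ℂ
    have hLw : M.L * (((Lu ℂ)⁻¹ : (MK ℂ)ˣ) : MK ℂ) = 1 := by rw [hL, Units.mul_inv]
    refine Core.zeta_of _ _ M hM ?_
    rw [hPOWZ g m hm M _ hLw]
    exact hPOWR (Lu ℂ) D hg.1 m hm _ (Core.of_zeta g D M hM hg.2.1)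
  · rintro q ⟨p, hp, rfl⟩ ε hε
    obtain ⟨z, hz, y, b, hy, hb⟩ := hg.2.2 p hp ε hε
    refine ⟨z, hz, _, _, hPOWM g m hm z y b hy, ?_⟩
    have hinj : Function.Injective fun M : ℕ => m * M := fun a b h =>
      Nat.eq_of_mul_eq_mul_left hm h
    rw [Finsupp.mapDomain_support_of_injective hinj, Finset.filter_image,
      Finset.sum_image fun a _ b _ h => hinj h]
    have h1 : ∀ M : ℕ, ((((p.1 : ℤ) : ℚ) / (((m : ℤ) * p.2 : ℤ) : ℚ)) * ((m * M : ℕ) : ℚ)) =
        (p.1 : ℚ) / p.2 * (M : ℚ) := by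
      intro M
      have h2 : (m : ℚ) ≠ 0 := by exact_mod_cast hm.ne'
      have h3 : ((p.2 : ℤ) : ℚ) ≠ 0 := by exact_mod_cast (hg.1 p hp).ne'
      push_cast
      field_simp
    simp only [h1, Finsupp.mapDomain_apply hinj]
    exact hb

/-- **The theorem.** -/
theorem main (hADD : S_ADD2) (hREC : S_REC3) (hSCALE : S_SCALE2) (hVMON : S_VMON3)
    (hPRODZ : S_PRODZ) (hPOWZ : S_POWZ) (hPOWR : S_POWR) (hPOWM : S_POWM)
    {σ J : Type} (g : J → MvPolynomial σ ℂ) (D : Set (ℤ × ℤ))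
    (h : Germ g D) : ∀ [Fintype σ] [Finite J], Gd g D := by
  induction h with
  | @fold σ S iσ iS κ hκ c P hP hc hG hX =>
    intro iσ' _
    obtain rfl : iσ = iσ' := Subsingleton.elim _ _
    exact Good.fold c P hP hc hG hX
  | @prod σ S iσ iS dS κ hκ c e he hc =>
    intro iσ' _
    obtain rfl : iσ = iσ' := Subsingleton.elim _ _
    exact Good.prod c e he hc
  | @pull σ J τ J' _ _ _ _ g g' D f h hg' hf he ih =>
    intro iσ' _
    haveI := Fintype.ofFinite τ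
    exact Good.pull g g' D f h ih hf he
  | @ext σ J τ J' _ _ _ _ g g' D D' hg hg' h0 h0' ih ih' =>
    intro iσ' _
    haveI := Fintype.ofFinite σ
    haveI := Fintype.ofFinite τ
    obtain rfl : iσ' = instFintypeSum σ τ := Subsingleton.elim _ _
    exact ext hPRODZ g g' D D' ih ih' h0 h0'
  | @pow σ J _ _ g D m hm hg ih =>
    intro iσ' _
    exact pow hPOWZ hPOWR hPOWM g D m hm ih
  | @cone σ J iσ _ g w d hd hg hw Ω _ τ J' _ _ g' D f h hg' he hu hv ih =>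
    intro iσ' _
    obtain rfl : iσ = iσ' := Subsingleton.elim _ _
    haveI := fun ω => Fintype.ofFinite (τ ω)
    exact cone hADD hREC hSCALE hVMON g w d hd hg hw τ J' g' D f h (fun ω => ih ω) he hu hv

end Pool.Agent.D0H67.CX.Qh
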