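import Pool.Agent.D0H67.CX.Stm

/-! # The order of a fold-type ideal on all jets -/

set_option autoImplicit false
set_option linter.unusedSectionVars false
set_option linter.unusedVariables false

namespace Pool.Agent.D0H67.CX.Ordv

open MvPolynomial Pool.Agent.W428.MOT Pool.Agent.TH192.MT Pool.Agent.TH192.DT
  Pool.Agent.D0H67.SUB Pool.Agent.D0H9.SUB Pool.Agent.D0H67.PM Pool.Agent.D0H67.PM.Ord

theorem ord1 {K : Type} [Field K] {σ S : Type} [Fintype σ] [Fintype S] [DecidableEq S]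
    {κ : S → Type} (c : (s : S) → κ s → σ → K) (P : Finset (S → ℕ)) (hP : P.Nonempty)
    (hG : Greedy P hP) (V : Set (Pt K σ)) (N : ℕ) :
    JetF (gensP P c) V N = Jf (fun s => zerosF (c s)) (fP P hP) Finset.univ V N N := by
  ext z
  have hz0 : (fun i => z (i, 0)) ∈ V ↔ jk z 0 ∈ V := by
    rw [Lev.jk_zero]
  unfold JetF Jf
  rw [Set.mem_ofPred_eq, Set.mem_ofPred_eq, hz0]
  refine and_congr_right fun _ => ?_
  obtain ⟨e', he', hmin⟩ := hG (fun k => Ak (fun s => zerosF (c s)) Finset.univ z k)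
    fun k l h => Eng.Ak_anti _ z h
  have hT : ∑ s, e' s * od c z s = ∑ k ∈ Finset.range (N + 1),
      fP P hP (Ak (fun s => zerosF (c s)) Finset.univ z k) := by
    rw [← sum_od]
    exact Finset.sum_congr rfl fun k _ => hmin k
  have hle : ∀ e ∈ P, ∑ s, e' s * od c z s ≤ ∑ s, e s * od c z s := by
    intro e he
    rw [hT, ← sum_od]
    exact Finset.sum_le_sum fun k _ => fP_le hP he _
  constructor
  · rintro ⟨h1, ⟨⟨e, he⟩, g⟩, h2⟩
    have h3 : ∑ s, e s * od c z s ≤ N := by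
      by_contra h4
      push Not at h4
      exact h2 ((coeffs z e g).1 N h4)
    have h4 := hle e he
    have h5 := top_zero (c := c) (z := z) (e := e') (by omega)
    refine ⟨by rw [← hmin N]; exact h5, ?_⟩
    rw [← hT]
    obtain ⟨g', hg'⟩ := exists_top h5
    by_contra h6
    exact hg' (h1 ⟨⟨e', he'⟩, g'⟩ _ (by omega))
  · rintro ⟨h1, h2⟩
    rw [← hT] at h2
    rw [← hmin N] at h1
    refine ⟨fun g k hk => ?_, ?_⟩
    · exact (coeffs z g.1.1 g.2).1 k (by have := hle g.1.1 g.1.2; omega)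
    · obtain ⟨g', hg'⟩ := exists_top h1
      rw [h2] at hg'
      exact ⟨⟨⟨e', he'⟩, g'⟩, hg'⟩

end Pool.Agent.D0H67.CX.Ordv
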