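import Pool.Agent.D0H67.CX.Stm

/-! # The monodromy zeta functions of the fold-type ideals at all points in general position -/

set_option autoImplicit false
set_option linter.unusedSectionVars false
set_option linter.unusedVariables false

namespace Pool.Agent.D0H67.CX.Pmon

open MvPolynomial Pool.Agent.W428.MOT Pool.Agent.TH192.MT Pool.Agent.TH192.DT
  Pool.Agent.D0H67.SUB Pool.Agent.D0H67.PM

variable {σ S : Type} [Fintype σ] [Fintype S] [DecidableEq S] {κ : S → Type}
  (c : (s : S) → κ s → σ → ℂ) (P : Finset (S → ℕ)) (hP : P.Nonempty)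

/-- the monodromy zeta functions -/
theorem mon (hc : ∀ s, zeros (c s) ≠ ⊤) (A : Finset S) (hf : 0 < fP P hP A)
    (hX : ExchOn P hP A) (p : σ → ℂ)
    (hpG : p ∈ (A.inf fun s => zeros (c s) : Submodule ℂ (σ → ℂ)))
    (hp : ∀ s, s ∉ A → p ∉ zeros (c s)) :
    ∃ y : GI P κ → ℂ, MonZeta (gensP P c) p y (Finsupp.single (fP P hP A) 1) := by
  obtain ⟨Φ, h1, h2, h3⟩ := Pool.Agent.D0H9.SUB.trans (K := ℂ) (σ := σ)
  obtain ⟨M, hL, hM⟩ := exists_meas ℂ
  set L : S → Submodule ℂ (σ → ℂ) := fun s => zeros (c s) with hLdef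
  obtain ⟨v, -, -, hvL⟩ := Pool.Agent.D0H9.SUB.pt (⊤ : Submodule ℂ (σ → ℂ)) (fun s : S => L s)
    (fun s h => hc s (top_le_iff.1 h)) 1 one_pos
  set pF : Pt ℂ σ := fun i => algebraMap ℂ (AlgebraicClosure ℂ) (p i) with hpF
  set vF : Pt ℂ σ := fun i => algebraMap ℂ (AlgebraicClosure ℂ) (v i) with hvF
  have h4 : ∀ s, Φ (L s) = zerosF (c s) := fun s => h3 (c s)
  have hvF' : ∀ s, vF ∉ zerosF (c s) := fun s => by
    rw [← h4, ← h2]
    exact hvL s
  have hpA : ∀ s ∈ A, p ∈ L s := fun s hs => (Finset.inf_le (f := L) hs) hpG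
  have hpF1 : ∀ s ∈ A, pF ∈ zerosF (c s) := fun s hs => by
    rw [← h4, ← h2]
    exact hpA s hs
  have hpF2 : ∀ s, s ∉ A → pF ∉ zerosF (c s) := fun s hs => by
    rw [← h4, ← h2]
    exact hp s hs
  have hA0 : A.Nonempty := by
    by_contra h
    rw [Finset.not_nonempty_iff_eq_empty] at h
    rw [h, PM.Fin.fP_empty] at hf
    omega
  obtain ⟨s0, hs0⟩ := hA0
  set G : Submodule (AlgebraicClosure ℂ) (Pt ℂ σ) := A.inf fun s => zerosF (c s) with hG
  have hpG' : pF ∈ G := by
    rw [hG, Submodule.mem_finsetInf]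
    exact hpF1
  have hvG : vF ∉ G := fun h => hvF' s0 ((Finset.inf_le hs0 : G ≤ _) h)
  have hLw : M.L * (((Lu ℂ)⁻¹ : (MK ℂ)ˣ) : MK ℂ) = 1 := by rw [hL, Units.mul_inv]
  -- the vector of the leading coefficients
  set y : GI P κ → ℂ := fun g => if ∑ s ∈ A, g.1.1 s = fP P hP A then ∏ s, ∏ k, ∑ i,
    c s (g.2 s k) i * (if s ∈ A then v i else p i) else 0 with hy
  have hyF : (fun g => algebraMap ℂ (AlgebraicClosure ℂ) (y g)) = fun g : GI P κ =>
      if ∑ s ∈ A, g.1.1 s = fP P hP A then ∏ s, ∏ k, ∑ i,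
      algebraMap ℂ (AlgebraicClosure ℂ) (c s (g.2 s k) i) * (if s ∈ A then vF i else pF i)
        else 0 := by
    funext g
    rw [hy]
    by_cases h : ∑ s ∈ A, g.1.1 s = fP P hP A
    · simp only [if_pos h, map_prod, map_sum, map_mul]
      refine Finset.prod_congr rfl fun s _ => Finset.prod_congr rfl fun k _ =>
        Finset.sum_congr rfl fun i _ => ?_
      congr 1
      split_ifs <;> rfl
    · simp only [if_neg h, map_zero]
  have hJ : ∀ N, JetE (gensP P c) pF (fun g => algebraMap ℂ (AlgebraicClosure ℂ) (y g)) N =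
      {z : Pt ℂ (σ × _root_.Fin (N + 1)) | jk z 0 = pF ∧ ∃ a : ℕ,
        (∀ k < a, jk z k ∈ G) ∧ jk z a ∈ conv G vF ∧ fP P hP A * a = N} := by
    intro N
    rw [hyF]
    exact Ord.ord2 c P hP A hX hf pF vF (fun s _ => hvF' s) hpF1 hpF2 N
  refine ⟨y, ?_, ?_, ?_, ?_⟩
  · -- `y ≠ 0`
    intro h0
    have h6 : ∀ s, ∃ j : κ s, ∑ i, c s j i * (if s ∈ A then v i else p i) ≠ 0 := by
      intro s
      by_contra h7
      push Not at h7
      by_cases hs : s ∈ A
      · exact hvL s fun j => by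
          have := h7 j
          simpa only [if_pos hs] using this
      · exact hp s hs fun j => by
          have := h7 j
          simpa only [if_neg hs] using this
    choose j hj using h6
    obtain ⟨e, he, he'⟩ := Ord.exists_min hP A
    have h7 := congrFun h0 ⟨⟨e, he⟩, fun s _ => j s⟩
    rw [hy] at h7
    simp only [if_pos he'] at h7
    exact (Finset.prod_ne_zero_iff.2 fun s _ => Finset.prod_ne_zero_iff.2 fun k _ => hj s) h7
  · -- there are jets
    refine ⟨fP P hP A, hf, ?_⟩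
    rw [hJ]
    have hz : jk (fun q : σ × _root_.Fin (fP P hP A + 1) => if (q.2 : ℕ) = 0 then pF q.1 else
        if (q.2 : ℕ) = 1 then vF q.1 else 0) 0 = pF := by
      rw [Lev.jk_zero]
      funext i
      simp
    refine ⟨fun q => if (q.2 : ℕ) = 0 then pF q.1 else if (q.2 : ℕ) = 1 then vF q.1 else 0, hz,
      1, fun k hk => ?_, ?_, Nat.mul_one _⟩
    · have hk0 : k = 0 := Nat.lt_one_iff.1 hk
      subst hk0
      rw [hz]
      exact hpG'
    · refine ⟨1, one_ne_zero, ?_⟩
      rw [one_smul]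
      have h6 : jk (fun q : σ × _root_.Fin (fP P hP A + 1) => if (q.2 : ℕ) = 0 then pF q.1 else
        if (q.2 : ℕ) = 1 then vF q.1 else 0) 1 = vF := by
        funext i
        rw [Lev.jk_lt _ (by omega)]
        simp
      rw [h6, sub_self]
      exact G.zero_mem
  · rw [Finsupp.single_eq_of_ne hf.ne]
  · intro N hN0
    obtain ⟨Q, k, hQ1, hQ⟩ := Sing.main M _ hLw G pF vF hpG' hvG _ hf N hN0
    rw [hJ]
    refine ⟨Q, k, ?_, ?_⟩
    · rw [hQ1, Finsupp.support_single_ne_zero _ one_ne_zero, Finset.filter_singleton]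
      split_ifs
      · rw [Finset.sum_singleton, Finsupp.single_eq_same]
      · rw [Finset.sum_empty]
    · rw [← hM, ← hL]
      exact hQ

end Pool.Agent.D0H67.CX.Pmon
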