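import Pool.Agent.D0H67.CX.Stm

/-! # COV, MINOR, GEN -/

set_option autoImplicit false
set_option linter.unusedSectionVars false
set_option linter.unusedVariables false

namespace Pool.Agent.D0H67.CX.Small

open MvPolynomial Pool.Agent.W428.MOT Pool.Agent.TH192.MT Pool.Agent.TH192.DT
  Pool.Agent.D0H67.SUB Pool.Agent.D0H67.PM

theorem cov : S_COV := by
  classical
  intro K _ σ _ Z H hH
  have h1 : (Submodule.span (MvPolynomial σ K) (H '' Z)).FG := IsNoetherian.noetherian _
  rw [Submodule.fg_span_iff_fg_span_finset_subset] at h1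
  obtain ⟨s', hs', hsp⟩ := h1
  have h2 : ∀ p ∈ s', ∃ u ∈ Z, H u = p := fun p hp => hs' hp
  choose! w hw hw' using h2
  refine ⟨s'.image w, ?_, fun x hx => ?_⟩
  · intro u hu
    rw [Finset.coe_image] at hu
    obtain ⟨p, hp, rfl⟩ := hu
    exact hw p hp
  · by_contra hcon
    push Not at hcon
    have h3 : H x ∈ Submodule.span (MvPolynomial σ K) (H '' Z) :=
      Submodule.subset_span ⟨x, hx, rfl⟩
    rw [hsp] at h3
    have h4 : (Submodule.span (MvPolynomial σ K) (s' : Set (MvPolynomial σ K))) ≤
        RingHom.ker (eval x) := by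
      rw [Submodule.span_le]
      intro p hp
      have h5 := hcon (w p) (Finset.mem_image_of_mem w hp)
      rw [hw' p hp] at h5
      exact h5
    exact hH x hx (h4 h3)

theorem minor : S_MINOR := by
  intro τ σ _ _ _ V hV
  set W : Matrix τ σ ℂ := Matrix.of V with hW
  obtain ⟨κ', a, ha, hsp, hli⟩ := exists_linearIndependent' ℂ W.col
  have : Finite κ' := Finite.of_injective a ha
  have := Fintype.ofFinite κ'
  have hr : W.rank = Fintype.card τ := by
    rw [Matrix.rank_eq_finrank_span_row]
    exact finrank_span_eq_card (b := W.row) hV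
  have hc : Fintype.card κ' = Fintype.card τ := by
    rw [← hr, Matrix.rank_eq_finrank_span_cols, ← hsp]
    exact (finrank_span_eq_card hli).symm
  let e : τ ≃ κ' := Fintype.equivOfCardEq hc.symm
  refine ⟨a ∘ e, ha.comp e.injective, ?_⟩
  have hli' : LinearIndependent ℂ (W.submatrix id (a ∘ e)).col := by
    have := hli.comp e e.injective
    exact this
  have := Matrix.linearIndependent_cols_iff_isUnit.1 hli'
  exact ((Matrix.isUnit_iff_isUnit_det _).1 this).ne_zero

theorem gen : S_GEN := by
  intro τ T _ _ G E h y hy ε hε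
  classical
  have := Fintype.ofFinite T
  obtain ⟨p0, hp0, -, hp0'⟩ := Pool.Agent.D0H9.SUB.pt G E h 1 one_pos
  -- the bad multiples
  have h1 : ∀ s, {a : ℂ | y + a • p0 ∈ E s}.Subsingleton := by
    intro s a ha b hb
    by_contra hab
    have h2 : (a - b) • p0 ∈ E s := by
      have := (E s).sub_mem ha hb
      have h3 : y + a • p0 - (y + b • p0) = (a - b) • p0 := by
        rw [sub_smul]; abel
      rwa [h3] at this
    exact hp0' s (((E s).smul_mem_iff (sub_ne_zero.2 hab)).1 h2)
  have h2 : (⋃ s, {a : ℂ | y + a • p0 ∈ E s}).Finite := Set.finite_iUnion fun s => (h1 s).finite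
  have hr : 0 < ε / (‖p0‖ + 1) := by positivity
  have h3 : (Metric.ball (0 : ℂ) (ε / (‖p0‖ + 1))).Infinite :=
    infinite_of_mem_nhds (0 : ℂ) (Metric.ball_mem_nhds 0 hr)
  obtain ⟨a, ha, ha'⟩ := h3.exists_notMem_finite h2
  refine ⟨y + a • p0, G.add_mem hy (G.smul_mem a hp0), ?_, fun s hs => ?_⟩
  · rw [add_sub_cancel_left, norm_smul]
    rw [Metric.mem_ball, dist_zero_right, lt_div_iff₀ (by positivity)] at ha
    have := norm_nonneg p0
    have := norm_nonneg a
    nlinarith
  · exact ha' (Set.mem_iUnion.2 ⟨s, hs⟩)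

end Pool.Agent.D0H67.CX.Small
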