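import Pool.Agent.D0H67.CX.Rat2
import Pool.Agent.D0H67.CX.Pmon
import Pool.Agent.D0H67.CX.Ordv
import Pool.Agent.D0H67.CX.Small

/-! # Charts, and the zeta function of a cone -/

set_option autoImplicit false
set_option linter.unusedSectionVars false
set_option linter.unusedVariables false

namespace Pool.Agent.D0H67.CX

open MvPolynomial Pool.Agent.W428.MOT Pool.Agent.TH192.MT Pool.Agent.TH192.DT
  Pool.Agent.D0H67.SUB Pool.Agent.D0H67.PM

/-- The intersection of the linear subspaces `L s`, `s ∈ A`. -/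
noncomputable def Gs {τ S : Type} [Fintype τ] {κ : S → Type} (c : (s : S) → κ s → τ → ℂ)
    (A : Finset S) : Submodule ℂ (τ → ℂ) := A.inf fun s => zeros (c s)

/-- `A` contains all `s` with `⋂_A L ⊆ L s`. -/
def Closed {τ S : Type} [Fintype τ] {κ : S → Type} (c : (s : S) → κ s → τ → ℂ)
    (A : Finset S) : Prop := ∀ s, Gs c A ≤ zeros (c s) → s ∈ A

/-- Near the point `u`, where `h ≠ 0`, the ideal `(g j)` is the ideal `J_P(f)` of fold type in the
functions `f i`, which have linearly independent differentials at `u`. -/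
def IsChart {σ J τ S : Type} [Fintype σ] [Fintype τ] [Fintype S] {κ : S → Type}
    (g : J → MvPolynomial σ ℂ) (c : (s : S) → κ s → τ → ℂ) (P : Finset (S → ℕ))
    (hP : P.Nonempty) (f : τ → MvPolynomial σ ℂ) (h : MvPolynomial σ ℂ) (u : σ → ℂ) : Prop :=
  (∀ s, zeros (c s) ≠ ⊤) ∧ Greedy P hP ∧
  (∀ A : Finset S, Closed c A → 0 < fP P hP A → ExchOn P hP A) ∧
  LinearIndependent ℂ (fun (i : τ) (k : σ) => eval u (pderiv k (f i))) ∧ eval u h ≠ 0 ∧
  (∀ j, h * g j ∈ Ideal.span (Set.range fun l => bind₁ f (gensP P c l))) ∧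
  ∀ l, h * bind₁ f (gensP P c l) ∈ Ideal.span (Set.range g)

/-- There is a chart at `u`. -/
def LocFold {σ J : Type} [Fintype σ] (g : J → MvPolynomial σ ℂ) (u : σ → ℂ) : Prop :=
  ∃ (τ S : Type) (_ : Fintype τ) (_ : Fintype S) (κ : S → Type) (_ : ∀ s, Finite (κ s))
    (c : (s : S) → κ s → τ → ℂ) (P : Finset (S → ℕ)) (hP : P.Nonempty)
    (f : τ → MvPolynomial σ ℂ) (h : MvPolynomial σ ℂ), IsChart g c P hP f h u

/-- The pairs `(-codim G_A, f(A))` of the charts at `u`, for the closed sets `A` with `f(A) > 0` and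
`f(u) ∈ G_A`. -/
def LocPair {σ J : Type} [Fintype σ] (g : J → MvPolynomial σ ℂ) (u : σ → ℂ) (q : ℤ × ℤ) : Prop :=
  ∃ (τ S : Type) (_ : Fintype τ) (_ : Fintype S) (κ : S → Type) (_ : ∀ s, Finite (κ s))
    (c : (s : S) → κ s → τ → ℂ) (P : Finset (S → ℕ)) (hP : P.Nonempty)
    (f : τ → MvPolynomial σ ℂ) (h : MvPolynomial σ ℂ), IsChart g c P hP f h u ∧
    ∃ A : Finset S, Closed c A ∧ (fun i => eval u (f i)) ∈ Gs c A ∧ 0 < fP P hP A ∧
      q = (-((Fintype.card τ - Module.finrank ℂ (Gs c A) : ℕ) : ℤ), (fP P hP A : ℤ))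

namespace Loc

/-! ### complex points -/

theorem aevalA {σ : Type} (u : σ → ℂ) (p : MvPolynomial σ ℂ) :
    aeval (fun i => algebraMap ℂ (AlgebraicClosure ℂ) (u i)) p =
      algebraMap ℂ (AlgebraicClosure ℂ) (eval u p) := by
  have h := MvPolynomial.aeval_algebraMap_apply (AlgebraicClosure ℂ) u p
  rw [← MvPolynomial.coe_aeval_eq_eval]
  exact h

theorem exists_pt {σ : Type} (x : Pt ℂ σ) :
    ∃ u : σ → ℂ, (fun i => algebraMap ℂ (AlgebraicClosure ℂ) (u i)) = x := by
  choose u hu using fun i => Base.exists_alg (x i)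
  exact ⟨u, funext hu⟩

theorem injA : Function.Injective (algebraMap ℂ (AlgebraicClosure ℂ)) :=
  (algebraMap ℂ (AlgebraicClosure ℂ)).injective

theorem jac_det {σ τ : Type} [Fintype τ] [DecidableEq τ] (f : τ → MvPolynomial σ ℂ) (κ : τ → σ)
    (u : σ → ℂ) : (jac f κ fun i => algebraMap ℂ (AlgebraicClosure ℂ) (u i)).det =
      algebraMap ℂ (AlgebraicClosure ℂ)
        (Matrix.of fun i j => eval u (pderiv (κ j) (f i)) : Matrix τ τ ℂ).det := by
  rw [RingHom.map_det]
  congr 1
  ext i j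
  unfold jac
  rw [Matrix.of_apply, aevalA]
  rfl

theorem indep_of_det {σ τ : Type} [Fintype τ] [DecidableEq τ] (A : τ → σ → ℂ) (κ : τ → σ)
    (h : (Matrix.of fun i j => A i (κ j) : Matrix τ τ ℂ).det ≠ 0) : LinearIndependent ℂ A := by
  have h1 : IsUnit (Matrix.of fun i j => A i (κ j) : Matrix τ τ ℂ) :=
    (Matrix.isUnit_iff_isUnit_det _).2 (isUnit_iff_ne_zero.2 h)
  have h2 := Matrix.linearIndependent_rows_iff_isUnit.2 h1
  exact LinearIndependent.of_comp (LinearMap.funLeft ℂ ℂ κ) h2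

/-! ### unions -/

section union

variable {R : Type} [CommRing R] {M : Meas ℂ R} {v : R} {σ J : Type} [Fintype σ]
  {g : J → MvPolynomial σ ℂ}

/-- additivity -/
def Add (M : Meas ℂ R) (v : R) (g : J → MvPolynomial σ ℂ) : Prop :=
  ∀ V W : Set (Pt ℂ σ), Constr V → Constr W → Disjoint V W →
      ZF M v g (V ∪ W) = ZF M v g V + ZF M v g W

theorem zf_empty (h : Add M v g) : ZF M v g ∅ = 0 := by
  have := h ∅ ∅ Constr.empty Constr.empty (Set.disjoint_empty _)
  rw [Set.union_empty] at this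
  exact left_eq_add.1 this

theorem mem_biUnion (h : Add M v g) (X : Subalgebra R (PowerSeries R)) {α : Type}
    [DecidableEq α] (s : Finset α) (V : α → Set (Pt ℂ σ)) (hV : ∀ a ∈ s, Constr (V a))
    (hd : ∀ a ∈ s, ∀ b ∈ s, a ≠ b → Disjoint (V a) (V b)) (hX : ∀ a ∈ s, ZF M v g (V a) ∈ X) :
    ZF M v g (⋃ a ∈ s, V a) ∈ X := by
  induction s using Finset.induction_on with
  | empty =>
    simp only [Finset.notMem_empty, Set.iUnion_of_empty, Set.iUnion_empty]
    rw [zf_empty h]
    exact X.zero_mem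
  | insert a s ha ih =>
    rw [Finset.set_biUnion_insert, h]
    · refine X.add_mem (hX a (Finset.mem_insert_self a s)) (ih ?_ ?_ ?_)
      · exact fun b hb => hV b (Finset.mem_insert_of_mem hb)
      · exact fun b hb b' hb' => hd b (Finset.mem_insert_of_mem hb) b' (Finset.mem_insert_of_mem hb')
      · exact fun b hb => hX b (Finset.mem_insert_of_mem hb)
    · exact hV a (Finset.mem_insert_self a s)
    · have h1 := Constr.bexFinset s (p := fun b z => z ∈ V b)
        fun b hb => hV b (Finset.mem_insert_of_mem hb)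
      have h2 : (⋃ b ∈ s, V b) = {z | ∃ b ∈ s, z ∈ V b} := by
        ext z
        simp
      rw [h2]
      exact h1
    · rw [Set.disjoint_iUnion₂_right]
      intro b hb
      exact hd a (Finset.mem_insert_self a s) b (Finset.mem_insert_of_mem hb)
        fun h3 => ha (h3 ▸ hb)

end union

end Loc

end Pool.Agent.D0H67.CX
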