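import Pool.Agent.D0H67.CX.Core2
import Pool.Agent.D0H67.CX.Germ2
import Pool.Agent.D0H67.CX.Real
import Pool.Agent.D0H67.CX.GermT

/-! # Families of cones: monodromy zeta functions -/

set_option autoImplicit false
set_option linter.unusedSectionVars false
set_option linter.unusedVariables false

namespace Pool.Agent.D0H67.CX.Fam

open MvPolynomial Pool.Agent.W428.MOT Pool.Agent.TH192.MT Pool.Agent.TH192.DT
  Pool.Agent.D0H67.SUB Pool.Agent.D0H67.PM Pool.Agent.D0H67.CX.Loc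

section

variable {σ J : Type} [Fintype σ] [Finite J] (g : J → MvPolynomial σ ℂ)

/-- scaling of the variables of weight `1` -/
theorem scale (hSCALE : S_SCALE2) (w : σ → ℕ) (hw : ∀ i, w i ≤ 1) (d : ℕ)
    (hg : ∀ j, IsWeightedHomogeneous w (g j) d) (u : σ → ℂ) (hu : ∀ i, w i = 0 → u i = 0)
    (Φ : (ℕ →₀ ℤ) → Prop)
    (h : ∀ ε : ℝ, 0 < ε → ∃ p : σ → ℂ, ‖p - u‖ < ε ∧ ∃ (y : J → ℂ) (b : ℕ →₀ ℤ),
      MonZeta g p y b ∧ Φ b) (ε : ℝ) (hε : 0 < ε) :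
    ∃ p : σ → ℂ, ‖p‖ < ε ∧ ∃ (y : J → ℂ) (b : ℕ →₀ ℤ), MonZeta g p y b ∧ Φ b := by
  obtain ⟨p, hp, y, b, h1, h2⟩ := h ε hε
  have hr : 0 < ε / (2 * (‖p‖ + 1)) := by positivity
  have hr' : ((ε / (2 * (‖p‖ + 1)) : ℝ) : ℂ) ≠ 0 := by exact_mod_cast hr.ne'
  refine ⟨_, ?_, y, b, hSCALE g w d hg _ hr' p y b h1, h2⟩
  rw [pi_norm_lt_iff hε]
  intro i
  rcases Nat.le_one_iff_eq_zero_or_eq_one.1 (hw i) with h3 | h3
  · rw [h3, pow_zero, one_mul]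
    have h4 : p i = (p - u) i := by rw [Pi.sub_apply, hu i h3, sub_zero]
    rw [h4]
    exact lt_of_le_of_lt (norm_le_pi_norm _ i) hp
  · rw [h3, pow_one, norm_mul, Complex.norm_real, Real.norm_of_nonneg hr.le]
    have h4 : ‖p i‖ ≤ ‖p‖ := norm_le_pi_norm _ i
    have h5 : 0 ≤ ‖p‖ := norm_nonneg _
    rw [div_mul_eq_mul_div, div_lt_iff₀ (by positivity)]
    nlinarith [norm_nonneg (p i)]

/-- the pairs of the charts, near the point `u` -/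
theorem chart (hNEAR : S_NEAR) (hLIFT : S_LIFT) (u : σ → ℂ) (q : ℤ × ℤ) (hq : LocPair g u q)
    (ε : ℝ) (hε : 0 < ε) : ∃ p : σ → ℂ, ‖p - u‖ < ε ∧ ∃ y : J → ℂ,
      MonZeta g p y (Finsupp.single q.2.toNat 1) := by
  classical
  obtain ⟨τ, S, iτ, iS, κ, hκ, c, P, hP, f, h, hch, A, hA, hyA, hpos, rfl⟩ := hq
  obtain ⟨hc, hG, hX, hli, hhu, hI1, hI2⟩ := hch
  obtain ⟨κ0, hκ0, hdet⟩ := Small.minor _ hli
  set H : MvPolynomial σ ℂ := h * (Matrix.of fun i j => pderiv (κ0 j) (f i) :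
        Matrix τ τ (MvPolynomial σ ℂ)).det with hH
  have hev : ∀ x : σ → ℂ, eval x H = eval x h *
      (Matrix.of fun i j => eval x (pderiv (κ0 j) (f i)) : Matrix τ τ ℂ).det := by
    intro x
    rw [hH, map_mul, RingHom.map_det]
    rfl
  have hHu : eval u H ≠ 0 := by
    rw [hev]
    exact mul_ne_zero hhu hdet
  have hopen : IsOpen {x : σ → ℂ | eval x H ≠ 0} :=
    isOpen_ne_fun (MvPolynomial.continuous_eval H) continuous_const
  obtain ⟨ε₁, hε₁, hball⟩ := Metric.isOpen_iff.1 hopen u hHu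
  obtain ⟨δ, hδ, hnear⟩ := hNEAR f u hli (min ε ε₁) (lt_min hε hε₁)
  obtain ⟨p', hp'G, hp'δ, hp'⟩ := Small.gen (Gs c A) (fun s : {s // s ∉ A} => zeros (c s))
    (fun s hs => s.2 (hA s hs)) (fun i => eval u (f i)) hyA δ hδ
  obtain ⟨p, hp, hfp⟩ := hnear p' hp'δ
  have hpH : eval p H ≠ 0 := hball (by
    rw [Metric.mem_ball, dist_eq_norm]
    exact lt_of_lt_of_le hp (min_le_right _ _))
  rw [hev] at hpH
  obtain ⟨y', hy'⟩ := Pmon.mon c P hP hc A hpos (hX A hA hpos) p' hp'G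
    fun s hs => hp' ⟨s, hs⟩
  have hfp' : (fun i => eval p (f i)) = p' := funext hfp
  rw [← hfp'] at hy'
  obtain ⟨y, hy⟩ := hLIFT g (gensP P c) f h hI1 hI2 κ0 p hκ0 (right_ne_zero_of_mul hpH)
    (left_ne_zero_of_mul hpH) y' _ hy'
  exact ⟨p, lt_of_lt_of_le hp (min_le_left _ _), y, hy⟩

end

end Pool.Agent.D0H67.CX.Fam
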