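import Pool.Agent.D0H67.PM.Fin

/-! # Cones over schemes which are locally fold-type: definitions and statements of the modules

`g j` are forms of the degree `d`. Locally outside the origin the ideal `(g j)` is the ideal
`J_P(f_1, …, f_c)`, `J_P` as in `PM.Stm` in `c` variables, the `f_i` part of a system of parameters. -/

set_option autoImplicit false
set_option linter.unusedSectionVars false
set_option linter.unusedVariables false

namespace Pool.Agent.D0H67.CX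

open MvPolynomial Pool.Agent.W428.MOT Pool.Agent.TH192.MT Pool.Agent.TH192.DT
  Pool.Agent.D0H67.SUB Pool.Agent.D0H67.PM Pool.Agent.D0H67.SUB.Trn

/-- The `N`-jet of `f(z)`. -/
noncomputable def push {K : Type} [Field K] {σ τ : Type} (f : τ → MvPolynomial σ K) {N : ℕ}
    (z : Pt K (σ × Fin (N + 1))) : Pt K (τ × Fin (N + 1)) :=
  fun q => PowerSeries.coeff (q.2 : ℕ) (aeval (ar z) (f q.1))

/-- the point `f(x)` -/
noncomputable def vf {K : Type} [Field K] {σ τ : Type} (f : τ → MvPolynomial σ K) (x : Pt K σ) :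
    Pt K τ := fun i => aeval x (f i)

/-- the Jacobian matrix of `f` at `x`, with the columns `κ j` only -/
noncomputable def jac {K : Type} [Field K] {σ τ : Type} (f : τ → MvPolynomial σ K) (κ : τ → σ)
    (x : Pt K σ) : Matrix τ τ (AlgebraicClosure K) :=
  Matrix.of fun i j => aeval x (pderiv (κ j) (f i))

/-- The series `∑ χ(JetF g V N) v ^ (n N) T ^ N`. -/
noncomputable def ZF {K : Type} [Field K] {σ J : Type} [Fintype σ] {R : Type} [CommRing R]
    (M : Meas K R) (v : R) (g : J → MvPolynomial σ K) (V : Set (Pt K σ)) : PowerSeries R :=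
  PowerSeries.mk fun N => M.χ (σ × Fin (N + 1)) (JetF g V N) * v ^ (Fintype.card σ * N)

/-- (TAY) Taylor expansion: the coefficient of `t ^ k` is affine in the last coefficients. Induction
on `f` (`MvPolynomial.induction_on`), with the coefficients `< k` equal as well. -/
def S_TAY : Prop :=
  ∀ {K : Type} [Field K] {σ : Type} [Fintype σ] (f : MvPolynomial σ K) (N k : ℕ), 0 < k →
    ∀ z z' : Pt K (σ × Fin (N + 1)), (∀ j < k, jk z j = jk z' j) →
      (∀ j < k, PowerSeries.coeff j (aeval (ar z) f) = PowerSeries.coeff j (aeval (ar z') f)) ∧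
      PowerSeries.coeff k (aeval (ar z) f) = PowerSeries.coeff k (aeval (ar z') f) +
        ∑ i, aeval (jk z 0) (pderiv i f) * (jk z k i - jk z' k i)

/-- (SS) one step: linear equations `A(x) w + q(x) = φ` with a nonvanishing minor; `(x, w)`
corresponds to `(x, φ, w outside the columns κ)` (Cramer's rule, `M.iso`, `RegularOn`, `M.prod`,
`chi_univ`; the constructibility by `constr_pre`). -/
def S_SS : Prop :=
  ∀ {K : Type} [Field K] {T σ τ : Type} [Fintype T] [Fintype σ] [Fintype τ] [DecidableEq τ]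
    (κ : τ → σ), Function.Injective κ → ∀ (Q : Set (Pt K T))
    (A : τ → σ → Pt K T → AlgebraicClosure K) (q : τ → Pt K T → AlgebraicClosure K),
    Constr Q → (∀ i j, IsPF (A i j)) → (∀ i, IsPF (q i)) →
    (∀ x ∈ Q, (Matrix.of fun i j => A i (κ j) x).det ≠ 0) →
    ∀ Ψ : Set (Pt K (T ⊕ τ)), Constr Ψ →
    Constr {z : Pt K (T ⊕ σ) | (fun t => z (Sum.inl t)) ∈ Q ∧
        (Sum.elim (fun t => z (Sum.inl t)) fun i =>
          ∑ j, A i j (fun t => z (Sum.inl t)) * z (Sum.inr j) + q i fun t => z (Sum.inl t)) ∈ Ψ} ∧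
    ∀ {R : Type} [CommRing R] (M : Meas K R),
      M.χ (T ⊕ σ) {z : Pt K (T ⊕ σ) | (fun t => z (Sum.inl t)) ∈ Q ∧
        (Sum.elim (fun t => z (Sum.inl t)) fun i =>
          ∑ j, A i j (fun t => z (Sum.inl t)) * z (Sum.inr j) + q i fun t => z (Sum.inl t)) ∈ Ψ} =
      M.χ (T ⊕ τ) {x : Pt K (T ⊕ τ) | (fun t => x (Sum.inl t)) ∈ Q ∧ x ∈ Ψ} *
        M.L ^ (Fintype.card σ - Fintype.card τ)

/-- (FIB) the jets `z` with `z_0 ∈ B` and given `f(z)`: a fibration over the jets of `f(z)`. From TAY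
and SS, by induction on `N`, with a further parameter space `Pt K ρ`: for all constructible
`Ψ ⊆ Pt K (ρ ⊕ (σ ⊕ (τ × Fin N)))`, the class of the `(r, z)` with `z_0 ∈ B` and
`(r, z_0, f(z)_1, …, f(z)_N) ∈ Ψ` is the class of the `(r, b, φ) ∈ Ψ`, `b ∈ B`, times `𝕃 ^ ((n - c) N)`. -/
def S_FIB : Prop :=
  ∀ {K : Type} [Field K] {σ τ : Type} [Fintype σ] [Fintype τ] [DecidableEq τ]
    (f : τ → MvPolynomial σ K) (κ : τ → σ), Function.Injective κ → ∀ B : Set (Pt K σ), Constr B →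
    (∀ x ∈ B, (jac f κ x).det ≠ 0) → ∀ N : ℕ,
    (∀ b ∈ B, ∀ w : Pt K (τ × Fin N), ∃ z : Pt K (σ × Fin (N + 1)), jk z 0 = b ∧
      push f z = gl (vf f b) w) ∧
    ∀ Ψ : Set (Pt K (τ × Fin (N + 1))), Constr Ψ →
      Constr {z : Pt K (σ × Fin (N + 1)) | jk z 0 ∈ B ∧ push f z ∈ Ψ} ∧
      ∀ {R : Type} [CommRing R] (M : Meas K R),
      M.χ _ {z : Pt K (σ × Fin (N + 1)) | jk z 0 ∈ B ∧ push f z ∈ Ψ} =
        M.χ (σ ⊕ (τ × Fin N)) {x : Pt K (σ ⊕ (τ × Fin N)) | (fun i => x (Sum.inl i)) ∈ B ∧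
          gl (vf f fun i => x (Sum.inl i)) (fun p => x (Sum.inr p)) ∈ Ψ} *
          M.L ^ ((Fintype.card σ - Fintype.card τ) * N)

/-- (ORDT) comparison of the ideals `(g j)` and `(g' l)(f)`, which are equal where `h ≠ 0`.
(The coefficients up to `t ^ N` of `g' l (f(z))` depend only on the `N`-jet `push f z` of `f(z)`.)
For the last part: `h g j = ∑_l H_{jl} g'_l(f)`, `y j = ∑_l H_{jl}(p) y'_l / h(p)`. -/
def S_ORDT : Prop :=
  ∀ {K : Type} [Field K] {σ τ J J' : Type} [Fintype σ] [Fintype τ] [Finite J] [Finite J']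
    (g : J → MvPolynomial σ K) (g' : J' → MvPolynomial τ K) (f : τ → MvPolynomial σ K)
    (h : MvPolynomial σ K),
    (∀ j, h * g j ∈ Ideal.span (Set.range fun l => bind₁ f (g' l))) →
    (∀ l, h * bind₁ f (g' l) ∈ Ideal.span (Set.range g)) →
    (∀ (N : ℕ) (z : Pt K (σ × Fin (N + 1))) (V : Set (Pt K σ)), aeval (jk z 0) h ≠ 0 →
      (z ∈ JetF g V N ↔ jk z 0 ∈ V ∧ push f z ∈ JetF g' Set.univ N)) ∧
    ∀ (p : Pt K σ) (y' : J' → AlgebraicClosure K) (N₀ : ℕ) (z₀ : Pt K (σ × Fin (N₀ + 1))),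
      aeval p h ≠ 0 → jk z₀ 0 = p → push f z₀ ∈ JetE g' (vf f p) y' N₀ →
      ∃ y : J → AlgebraicClosure K, (y' ≠ 0 → y ≠ 0) ∧ ∀ N, JetE g p y N =
        {z : Pt K (σ × Fin (N + 1)) | jk z 0 = p ∧ push f z ∈ JetE g' (vf f p) y' N}

/-- (LIFT) monodromy zeta functions and smooth maps: from FIB and ORDT with `B = {p}`;
`K = ℂ`, the coordinates of the points over the algebraic closure are complex
(`SUB.Base.exists_alg`), `exists_meas`. -/
def S_LIFT : Prop :=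
  ∀ {σ τ J J' : Type} [Fintype σ] [Fintype τ] [DecidableEq τ] [Finite J] [Finite J']
    (g : J → MvPolynomial σ ℂ) (g' : J' → MvPolynomial τ ℂ) (f : τ → MvPolynomial σ ℂ)
    (h : MvPolynomial σ ℂ),
    (∀ j, h * g j ∈ Ideal.span (Set.range fun l => bind₁ f (g' l))) →
    (∀ l, h * bind₁ f (g' l) ∈ Ideal.span (Set.range g)) →
    ∀ (κ : τ → σ) (p : σ → ℂ), Function.Injective κ →
      (Matrix.of fun i j => eval p (pderiv (κ j) (f i))).det ≠ 0 → eval p h ≠ 0 →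
      ∀ (y' : J' → ℂ) (b : ℕ →₀ ℤ), MonZeta g' (fun i => eval p (f i)) y' b →
        ∃ y : J → ℂ, MonZeta g p y b

/-- (ZST) the series over a stratum: FIB with `Ψ = Jf L r univ univ N N`; for `b ∈ B` the condition
on `gl (vf f b) w` is the condition `w ∈ Y L r A N N` of `PM.Eng` (see `Ak_VC`, `gl_mem`, `trnY`). -/
def S_ZST : Prop :=
  ∀ {K : Type} [Field K] [IsAlgClosed K] {σ τ S : Type} [Fintype σ] [Fintype τ] [DecidableEq τ]
    [Fintype S] [DecidableEq S] (f : τ → MvPolynomial σ K) (κ : τ → σ), Function.Injective κ →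
    ∀ (L : S → Submodule (AlgebraicClosure K) (Pt K τ)) (r : Finset S → ℕ) (A : Finset S)
      (B : Set (Pt K σ)), Constr B → (∀ x ∈ B, (jac f κ x).det ≠ 0) →
      (∀ x ∈ B, vf f x ∈ VC L Finset.univ A) → ∀ {R : Type} [CommRing R] (M : Meas K R) (v : R),
      M.L * v = 1 →
      (PowerSeries.mk fun N => M.χ (σ × Fin (N + 1)) {z | jk z 0 ∈ B ∧
        push f z ∈ Jf L r Finset.univ Set.univ N N} * v ^ (Fintype.card σ * N)) =
        PowerSeries.C (M.χ σ B) * zf M v L r A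

/-- (REC) (a) division by `t` (compare `PM.Eng`: `shift`, `level`); (b) additivity; (c) points where
some `g j` is not zero. -/
def S_REC : Prop :=
  ∀ {K : Type} [Field K] {σ J : Type} [Fintype σ] [Finite J] (g : J → MvPolynomial σ K) (d : ℕ),
    0 < d → (∀ j, (g j).IsHomogeneous d) → ∀ {R : Type} [CommRing R] (M : Meas K R) (v : R),
    M.L * v = 1 →
    (ZF M v g {0} = PowerSeries.C (v ^ Fintype.card σ) * PowerSeries.X ^ d * ZF M v g Set.univ) ∧
    (∀ V W : Set (Pt K σ), Constr V → Constr W → Disjoint V W →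
      ZF M v g (V ∪ W) = ZF M v g V + ZF M v g W) ∧
    ∀ V : Set (Pt K σ), Constr V → (∀ x ∈ V, ∃ j, aeval x (g j) ≠ 0) →
      ZF M v g V = PowerSeries.C (M.χ σ V)

/-- (COV) a finite cover, since polynomial rings are noetherian: finitely many `H u`, `u ∈ Z`,
generate the ideal generated by all of them. -/
def S_COV : Prop :=
  ∀ {K : Type} [Field K] {σ : Type} [Fintype σ] (Z : Set (σ → K))
    (H : (σ → K) → MvPolynomial σ K), (∀ u ∈ Z, eval u (H u) ≠ 0) →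
    ∃ T : Finset (σ → K), ↑T ⊆ Z ∧ ∀ x ∈ Z, ∃ u ∈ T, eval x (H u) ≠ 0

/-- (MINOR) -/
def S_MINOR : Prop :=
  ∀ {τ σ : Type} [Fintype τ] [Fintype σ] [DecidableEq τ] (A : τ → σ → ℂ), LinearIndependent ℂ A →
    ∃ κ : τ → σ, Function.Injective κ ∧ (Matrix.of fun i j => A i (κ j)).det ≠ 0

/-- (APEX) the jets at the vertex of the cone with leading coefficients `c g(v)`: with `f₀(z)`,
where `x_i f₀ = ∑ λ_{ij} g_j` with constants `λ_{ij}`, so `f₀(z) z_i = t ^ N (c f₀(v) v_i + ⋯)` for all `i`;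
hence `z = t ^ a (ρ v + ⋯)`, and `N = d a` since `f₀(z) = t ^ ((d - 1) a) (f₀(ρ v) + ⋯)`. -/
def S_APEX : Prop :=
  ∀ {K : Type} [Field K] {σ J : Type} [Fintype σ] (g : J → MvPolynomial σ K) (d : ℕ), 0 < d →
    (∀ j, (g j).IsHomogeneous d) → ∀ f₀ : MvPolynomial σ K, f₀.IsHomogeneous (d - 1) →
    (∀ i, X i * f₀ ∈ Submodule.span K (Set.range g)) → ∀ v : Pt K σ, v ≠ 0 → aeval v f₀ ≠ 0 →
    ∀ N : ℕ, JetE g 0 (fun j => aeval v (g j)) N =
      {z : Pt K (σ × Fin (N + 1)) | jk z 0 = 0 ∧ ∃ a : ℕ,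
        (∀ k < a, jk z k ∈ (⊥ : Submodule (AlgebraicClosure K) (Pt K σ))) ∧
          jk z a ∈ conv (⊥ : Submodule (AlgebraicClosure K) (Pt K σ)) v ∧ d * a = N}

/-- (SCALE) `JetE g (a p) y N = a JetE g p y N` for forms of the same degree -/
def S_SCALE : Prop :=
  ∀ {σ J : Type} [Fintype σ] [Finite J] (g : J → MvPolynomial σ ℂ) (d : ℕ),
    (∀ j, (g j).IsHomogeneous d) → ∀ (a : ℂ), a ≠ 0 → ∀ (p : σ → ℂ) (y : J → ℂ) (b : ℕ →₀ ℤ),
    MonZeta g p y b → MonZeta g (a • p) y b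

/-- (NEAR) a map with surjective differential is open (`HasStrictFDerivAt.map_nhds_eq_of_surj`) -/
def S_NEAR : Prop :=
  ∀ {σ τ : Type} [Fintype σ] [Fintype τ] (f : τ → MvPolynomial σ ℂ) (u : σ → ℂ),
    LinearIndependent ℂ (fun (i : τ) (k : σ) => eval u (pderiv k (f i))) →
    ∀ ε : ℝ, 0 < ε → ∃ δ : ℝ, 0 < δ ∧ ∀ y : τ → ℂ, ‖y - fun i => eval u (f i)‖ < δ →
      ∃ p : σ → ℂ, ‖p - u‖ < ε ∧ ∀ i, eval p (f i) = y i

/-- (GEN) points in general position near `y` (compare `D0H9.SUB.pt`) -/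
def S_GEN : Prop :=
  ∀ {τ T : Type} [Fintype τ] [Finite T] (G : Submodule ℂ (τ → ℂ))
    (E : T → Submodule ℂ (τ → ℂ)), (∀ s, ¬ G ≤ E s) → ∀ y ∈ G, ∀ ε : ℝ, 0 < ε →
    ∃ p ∈ G, ‖p - y‖ < ε ∧ ∀ s, p ∉ E s

/-- (RAT2) rationality, with the closed subsets of `A` only -/
def S_RAT2 : Prop :=
  ∀ {K : Type} [Field K] [IsAlgClosed K] {σ S : Type} [Fintype σ] [DecidableEq S]
    (L : S → Submodule (AlgebraicClosure K) (Pt K σ)) (f : Finset S → ℕ),
    f ∅ = 0 → (∀ A B, A ⊆ B → f A ≤ f B) →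
    ∀ {R : Type} [CommRing R] (M : Meas K R) (u : Rˣ), M.L = (u : R) →
    ∀ A : Finset S, (∀ s, A.inf L ≤ L s → s ∈ A) →
      zf M ((u⁻¹ : Rˣ) : R) L f A ∈ ratU u {q : ℤ × ℤ | ∃ B ⊆ A,
        (∀ s, B.inf L ≤ L s → s ∈ B) ∧ 0 < f B ∧
        q = (-((Fintype.card σ - Module.finrank (AlgebraicClosure K) (B.inf L : Submodule _ _)
          : ℕ) : ℤ), (f B : ℤ))}

end Pool.Agent.D0H67.CX
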