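import Pool.Agent.D0H67.CX.Zeta
import Pool.Agent.D0H67.CX.Cen

/-! # Families of cones: the pieces of the charts -/

set_option autoImplicit false
set_option linter.unusedSectionVars false
set_option linter.unusedVariables false

namespace Pool.Agent.D0H67.CX.Fam

open MvPolynomial Pool.Agent.W428.MOT Pool.Agent.TH192.MT Pool.Agent.TH192.DT
  Pool.Agent.D0H67.SUB Pool.Agent.D0H67.PM Pool.Agent.D0H67.CX.Loc Pool.Agent.D0H67.CX.Zeta

variable {σ J : Type} [Fintype σ] [Finite J] (g : J → MvPolynomial σ ℂ)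

/-- all pairs of the chart, at the points with the property `Q`, belong to `D` -/
def PairsQ (Q : (σ → ℂ) → Prop) {τ S : Type} [Fintype τ] [Fintype S] {κ : S → Type}
    (c : (s : S) → κ s → τ → ℂ) (P : Finset (S → ℕ)) (hP : P.Nonempty)
    (f : τ → MvPolynomial σ ℂ) (h : MvPolynomial σ ℂ) (D : Set (ℤ × ℤ)) : Prop :=
  ∀ w : σ → ℂ, Q w → IsChart g c P hP f h w →
    ∀ A : Finset S, Closed c A → (fun i => eval w (f i)) ∈ Gs c A → 0 < fP P hP A →
      (-((Fintype.card τ - Module.finrank ℂ (Gs c A) : ℕ) : ℤ), (fP P hP A : ℤ)) ∈ D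

/-- a piece of one chart -/
theorem piece (hORDT : S_ORDT) (hZST : S_ZST) (M : Meas ℂ (MK ℂ))
    (hL : M.L = ((Lu ℂ : (MK ℂ)ˣ) : MK ℂ))
    (hadd : Add M (((Lu ℂ)⁻¹ : (MK ℂ)ˣ) : MK ℂ) g)
    {τ S : Type} [Fintype τ] [Fintype S] {κ : S → Type} [hκ : ∀ s, Finite (κ s)]
    (c : (s : S) → κ s → τ → ℂ) (P : Finset (S → ℕ)) (hP : P.Nonempty)
    (f : τ → MvPolynomial σ ℂ) (h : MvPolynomial σ ℂ) (u : σ → ℂ)
    (hch : IsChart g c P hP f h u) (Q : (σ → ℂ) → Prop) (D : Set (ℤ × ℤ))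
    (hD : PairsQ g Q c P hP f h D)
    [DecidableEq τ] (κ0 : τ → σ) (hκ0 : Function.Injective κ0)
    (B : Set (Pt ℂ σ)) (hB : Constr B)
    (hBQ : ∀ w : σ → ℂ, (fun i => algebraMap ℂ (AlgebraicClosure ℂ) (w i)) ∈ B → Q w)
    (hBh : ∀ x ∈ B, aeval x h ≠ 0) (hBj : ∀ x ∈ B, (jac f κ0 x).det ≠ 0) :
    ZF M (((Lu ℂ)⁻¹ : (MK ℂ)ˣ) : MK ℂ) g B ∈ ratU (Lu ℂ) D := by
  classical
  obtain ⟨hc, hG, hX, hli, hhu, hI1, hI2⟩ := hch
  obtain ⟨Φ, h1, h2, h3⟩ := Pool.Agent.D0H9.SUB.trans (K := ℂ) (σ := τ)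
  have hLw : M.L * (((Lu ℂ)⁻¹ : (MK ℂ)ˣ) : MK ℂ) = 1 := by rw [hL, Units.mul_inv]
  set L : S → Submodule (AlgebraicClosure ℂ) (Pt ℂ τ) := fun s => zerosF (c s) with hLdef
  have hLc : ∀ s, Constr (L s : Set (Pt ℂ τ)) := fun s => Base.constr_sub (L s)
  have h4 : ∀ A : Finset S, A.inf L = Φ (Gs c A) := by
    intro A
    unfold Gs
    rw [map_finset_inf Φ A]
    exact Finset.inf_congr rfl fun s _ => (h3 (c s)).symm
  -- the strata
  set V : Finset S → Set (Pt ℂ σ) := fun A => {x | x ∈ B ∧ vf f x ∈ VC L Finset.univ A} with hV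
  have hVc : ∀ A, Constr (V A) := fun A => Constr.and hB
    ((Eng.constr_VC L hLc Finset.univ A).preimage (fun x => vf f x) fun i => IsPF.poly (f i))
  have hBV : B = ⋃ A ∈ (Finset.univ : Finset S).powerset, V A := by
    ext x
    simp only [Set.mem_iUnion, exists_prop, Finset.mem_powerset]
    constructor
    · intro hx
      refine ⟨Finset.univ.filter fun s => vf f x ∈ L s, Finset.subset_univ _, hx, ?_, ?_⟩
      · exact fun s hs => (Finset.mem_filter.1 hs).2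
      · intro s hs h5
        rw [Finset.mem_sdiff, Finset.mem_filter] at hs
        exact hs.2 ⟨hs.1, h5⟩
    · rintro ⟨A, -, hx, -⟩
      exact hx
  rw [hBV]
  refine mem_biUnion hadd _ _ _ (fun A _ => hVc A) ?_ ?_
  · intro A hA A' hA' hne
    rw [Set.disjoint_left]
    rintro x ⟨-, h5⟩ ⟨-, h6⟩
    exact hne (Eng.VC_disj L (Finset.mem_powerset.1 hA) (Finset.mem_powerset.1 hA') h5 h6)
  · intro A _
    by_cases hne : (V A).Nonempty
    · obtain ⟨x, hxB, hxA⟩ := hne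
      obtain ⟨w, hw⟩ := exists_pt x
      have hvf : vf f x = fun i => algebraMap ℂ (AlgebraicClosure ℂ) (eval w (f i)) := by
        funext i
        unfold vf
        rw [← hw, aevalA]
      have hmemL : ∀ s, (vf f x ∈ L s ↔ (fun i => eval w (f i)) ∈ zeros (c s)) := by
        intro s
        rw [hvf, hLdef, h2 (zeros (c s)), h3 (c s)]
      -- the stratum is closed
      have hcl : ∀ s, A.inf L ≤ L s → s ∈ A := by
        intro s hs
        by_contra h5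
        refine hxA.2 s (Finset.mem_sdiff.2 ⟨Finset.mem_univ s, h5⟩) (hs ?_)
        rw [Submodule.mem_finsetInf]
        exact hxA.1
      have hZ : ZF M (((Lu ℂ)⁻¹ : (MK ℂ)ˣ) : MK ℂ) g (V A) =
          PowerSeries.C (M.χ σ (V A)) *
            zf M (((Lu ℂ)⁻¹ : (MK ℂ)ˣ) : MK ℂ) L (fP P hP) A := by
        rw [← hZST f κ0 hκ0 L (fP P hP) A (V A) (hVc A) (fun x hx => hBj x hx.1)
          (fun x hx => hx.2) M _ hLw]
        unfold ZF
        congr 1
        funext N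
        congr 2
        ext z
        rw [← Ordv.ord1 c P hP hG Set.univ N]
        constructor
        · intro hz
          have h5 : jk z 0 ∈ V A := by
            rw [Lev.jk_zero]
            exact hz.1
          exact (((hORDT g (gensP P c) f h hI1 hI2).1 N z (V A) (hBh _ h5.1)).1 hz)
        · rintro ⟨h5, h6⟩
          exact (((hORDT g (gensP P c) f h hI1 hI2).1 N z (V A) (hBh _ h5.1)).2 ⟨h5, h6⟩)
      rw [hZ]
      refine Subalgebra.mul_mem _ (rat_C (Lu ℂ) _) ?_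
      refine Rat2.ratU_mono (Lu ℂ) ?_ (Rat2.main L (fP P hP) (PM.Fin.fP_empty P hP)
        (PM.Fin.fP_mono P hP) M (Lu ℂ) hL A hcl)
      rintro q ⟨A', hA', hA'cl, hA'pos, hq⟩
      have hwQ : Q w := hBQ w (by rw [hw]; exact hxB)
      have hq' : q = (-((Fintype.card τ - Module.finrank ℂ (Gs c A') : ℕ) : ℤ),
          (fP P hP A' : ℤ)) := by rw [hq, h4, h1]
      rw [hq']
      refine hD w hwQ ⟨hc, hG, hX, ?_, ?_, hI1, hI2⟩ A' ?_ ?_ hA'pos
      · have h5 := hBj x hxB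
        rw [← hw, jac_det] at h5
        exact indep_of_det _ κ0 fun h6 => h5 (by rw [h6, map_zero])
      · intro h5
        apply hBh x hxB
        rw [← hw, aevalA, h5, map_zero]
      · intro s hs
        apply hA'cl s
        rw [h4]
        change Φ _ ≤ zerosF (c s)
        rw [← h3 (c s), OrderIso.le_iff_le]
        exact hs
      · rw [mem_Gs]
        intro s hs
        rw [← hmemL]
        exact hxA.1 s (hA' hs)
    · rw [Set.not_nonempty_iff_eq_empty] at hne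
      rw [hne, zf_empty hadd]
      exact Subalgebra.zero_mem _


/-- The sets `B` near the point `u` -/
def LR (M : Meas ℂ (MK ℂ)) (D : Set (ℤ × ℤ)) (W : Set (Pt ℂ σ)) (u : σ → ℂ) : Prop :=
  ∃ H : MvPolynomial σ ℂ, eval u H ≠ 0 ∧ ∀ B ⊆ W, Constr B → (∀ x ∈ B, aeval x H ≠ 0) →
    ZF M (((Lu ℂ)⁻¹ : (MK ℂ)ˣ) : MK ℂ) g B ∈ ratU (Lu ℂ) D

/-- a fold chart -/
theorem LR_of_chart (hORDT : S_ORDT) (hZST : S_ZST) (M : Meas ℂ (MK ℂ))
    (hL : M.L = ((Lu ℂ : (MK ℂ)ˣ) : MK ℂ))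
    (hadd : Add M (((Lu ℂ)⁻¹ : (MK ℂ)ˣ) : MK ℂ) g) (W : Set (Pt ℂ σ)) (Q : (σ → ℂ) → Prop)
    (hWQ : ∀ w : σ → ℂ, (fun i => algebraMap ℂ (AlgebraicClosure ℂ) (w i)) ∈ W → Q w)
    {τ S : Type} [Fintype τ] [Fintype S] {κ : S → Type} [hκ : ∀ s, Finite (κ s)]
    (c : (s : S) → κ s → τ → ℂ) (P : Finset (S → ℕ)) (hP : P.Nonempty)
    (f : τ → MvPolynomial σ ℂ) (h : MvPolynomial σ ℂ) (u : σ → ℂ)
    (hch : IsChart g c P hP f h u) (D : Set (ℤ × ℤ)) (hD : PairsQ g Q c P hP f h D) :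
    LR g M D W u := by
  classical
  obtain ⟨κ0, hκ0, hdet⟩ := Small.minor _ hch.2.2.2.1
  refine ⟨h * (Matrix.of fun i j => pderiv (κ0 j) (f i) :
    Matrix τ τ (MvPolynomial σ ℂ)).det, ?_, fun B hBW hB hBH => ?_⟩
  · rw [map_mul]
    refine mul_ne_zero hch.2.2.2.2.1 ?_
    rw [RingHom.map_det]
    exact hdet
  · have h5 : ∀ x : Pt ℂ σ, aeval x (Matrix.of fun i j => pderiv (κ0 j) (f i) :
        Matrix τ τ (MvPolynomial σ ℂ)).det = (jac f κ0 x).det := by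
      intro x
      rw [AlgHom.map_det]
      rfl
    refine piece g hORDT hZST M hL hadd c P hP f h u hch Q D hD κ0 hκ0 B hB
      (fun w hw => hWQ w (hBW hw))
      (fun x hx h6 => hBH x hx ?_) (fun x hx h6 => hBH x hx ?_)
    · rw [map_mul, h6, zero_mul]
    · rw [map_mul, h5, h6, mul_zero]

end Pool.Agent.D0H67.CX.Fam
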