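import Pool.Agent.D0H67.CX.Stm

/-! # The series over a stratum -/

set_option autoImplicit false
set_option linter.unusedSectionVars false
set_option linter.unusedVariables false

namespace Pool.Agent.D0H67.CX.Zst

open MvPolynomial Pool.Agent.W428.MOT Pool.Agent.TH192.MT Pool.Agent.TH192.DT
  Pool.Agent.D0H67.SUB Pool.Agent.D0H67.PM Pool.Agent.D0H67.SUB.Trn Pool.Agent.D0H67.PM.Eng

theorem pow_key {R : Type} [CommRing R] {L v : R} (h : L * v = 1) {n c : ℕ} (hc : c ≤ n) (N : ℕ) :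
    L ^ ((n - c) * N) * v ^ (n * N) = v ^ (c * N) := by
  have h1 : n * N = (n - c) * N + c * N := by
    rw [← add_mul, Nat.sub_add_cancel hc]
  rw [h1, pow_add, ← mul_assoc, ← mul_pow, h, one_pow, one_mul]

theorem main (hFIB : S_FIB) : S_ZST := by
  intro K _ _ σ τ S _ _ _ _ _ f κ hκ L r A B hB hdet hA R _ M v hv
  have hL : ∀ s, Constr (L s : Set (Pt K τ)) := fun s => Base.constr_sub (L s)
  have hcard : Fintype.card τ ≤ Fintype.card σ := Fintype.card_le_of_injective κ hκ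
  ext N
  unfold zf
  rw [PowerSeries.coeff_mk, PowerSeries.coeff_C_mul, PowerSeries.coeff_mk]
  obtain ⟨-, hΨ⟩ := hFIB f κ hκ B hB hdet N
  rw [(hΨ _ (constr_Jf L r hL Finset.univ Constr.univ N N)).2 M]
  have hset : {x : Pt K (σ ⊕ (τ × Fin N)) | (fun i => x (Sum.inl i)) ∈ B ∧
      gl (vf f fun i => x (Sum.inl i)) (fun p => x (Sum.inr p)) ∈
        Jf L r Finset.univ Set.univ N N} =
      {x | (fun i => x (Sum.inl i)) ∈ B ∧ (fun p => x (Sum.inr p)) ∈ Eng.Y L r A N N} := by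
    ext x
    refine and_congr_right fun hx => ?_
    have h1 := hA _ hx
    set z := gl (vf f fun i => x (Sum.inl i)) (fun p => x (Sum.inr p)) with hz
    have h2 : jk z 0 = vf f fun i => x (Sum.inl i) := jk_gl_zero _ _
    have h3 : jk z 0 ∈ VC L Finset.univ A := by rw [h2]; exact h1
    have h4 : z ∈ Jf L r Finset.univ Set.univ N N ↔ z ∈ Jf L r A (VC L Finset.univ A) N N := by
      unfold Jf
      rw [Set.mem_ofPred_eq, Set.mem_ofPred_eq]
      have h5 : ∀ k, Ak L Finset.univ z k = Ak L A z k := Ak_VC L (Finset.subset_univ A) h3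
      simp only [h5]
      exact ⟨fun h => ⟨h3, h.2⟩, fun h => ⟨trivial, h.2⟩⟩
    rw [h4, hz, Eng.gl_mem L (V := VC L Finset.univ A) (fun x hx => hx.1) h1]
    rfl
  rw [hset, M.prod B _ hB (Eng.constr_Y L hL A N N)]
  have h0 : ∀ x ∈ ({0} : Set (Pt K τ)), ∀ s ∈ A, x ∈ L s := by
    rintro x rfl s _
    exact (L s).zero_mem
  have h6 : M.χ _ (Jf L r A {0} N N) = M.χ _ (Eng.Y L r A N N) := by
    rw [Eng.trnY L hL A Shift.constr_z h0, chi_zero, one_mul]
  rw [h6, mul_assoc, mul_assoc, pow_key hv hcard]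

end Pool.Agent.D0H67.CX.Zst
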